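import Pool.Agent.Helper50.NW.Simons

/-!
# Network weight: basic facts
-/

set_option autoImplicit false
set_option linter.unusedSectionVars false
set_option linter.style.haveILetI false

namespace Pool.Agent.Helper50.NW

open Set Filter Topology Cardinal

universe u

section Network

variable {E : Type u} [TopologicalSpace E]

/-- A family `𝒩` of subsets of `S` is a network of the subspace `S`. -/
def IsNetworkOn (S : Set E) (𝒩 : Set (Set E)) : Prop :=
  (∀ N ∈ 𝒩, N ⊆ S) ∧
    ∀ x ∈ S, ∀ U : Set E, IsOpen U → x ∈ U → ∃ N ∈ 𝒩, x ∈ N ∧ N ⊆ U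

/-- The network weight `nw(S) = ℵ₀ + min |𝒩|` of a subspace `S`. -/
noncomputable def netWeight (S : Set E) : Cardinal.{u} :=
  ℵ₀ ⊔ sInf {κ : Cardinal.{u} | ∃ 𝒩 : Set (Set E), IsNetworkOn S 𝒩 ∧ Cardinal.mk ↥𝒩 = κ}

theorem isNetworkOn_singletons (S : Set E) :
    IsNetworkOn S ((fun x => {x}) '' S : Set (Set E)) := by
  refine ⟨?_, ?_⟩
  · rintro _ ⟨x, hx, rfl⟩
    exact singleton_subset_iff.2 hx
  · intro x hx U _ hxU
    exact ⟨{x}, ⟨x, hx, rfl⟩, rfl, singleton_subset_iff.2 hxU⟩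

theorem exists_network (S : Set E) :
    ∃ 𝒩 : Set (Set E), IsNetworkOn S 𝒩 ∧ Cardinal.mk ↥𝒩 ≤ netWeight S := by
  have hne : {κ : Cardinal.{u} | ∃ 𝒩 : Set (Set E), IsNetworkOn S 𝒩 ∧
      Cardinal.mk ↥𝒩 = κ}.Nonempty := ⟨_, _, isNetworkOn_singletons S, rfl⟩
  obtain ⟨𝒩, h𝒩, hκ⟩ := csInf_mem hne
  exact ⟨𝒩, h𝒩, hκ ▸ le_sup_right⟩

theorem netWeight_le_of_network {S : Set E} {𝒩 : Set (Set E)} (h : IsNetworkOn S 𝒩) :
    netWeight S ≤ ℵ₀ ⊔ Cardinal.mk ↥𝒩 :=
  sup_le_sup le_rfl (csInf_le' ⟨𝒩, h, rfl⟩)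

theorem aleph0_le_netWeight (S : Set E) : ℵ₀ ≤ netWeight S := le_sup_left

theorem netWeight_mono {S T : Set E} (h : S ⊆ T) : netWeight S ≤ netWeight T := by
  obtain ⟨𝒩, h𝒩, hc⟩ := exists_network T
  have : IsNetworkOn S ((fun N => N ∩ S) '' 𝒩) := by
    refine ⟨?_, ?_⟩
    · rintro _ ⟨N, -, rfl⟩
      exact inter_subset_right
    · intro x hx U hU hxU
      obtain ⟨N, hN, hxN, hNU⟩ := h𝒩.2 x (h hx) U hU hxU
      exact ⟨N ∩ S, ⟨N, hN, rfl⟩, ⟨hxN, hx⟩, inter_subset_left.trans hNU⟩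
  refine (netWeight_le_of_network this).trans (sup_le (aleph0_le_netWeight T) ?_)
  exact Cardinal.mk_image_le.trans hc

/-- On a compact set, a separating family of continuous functions bounds the network weight. -/
theorem netWeight_le_of_separating {K : Set E} (hK : IsCompact K) {ι : Type u}
    (d : ι → E → ℝ) (hd : ∀ i, ContinuousOn (d i) K)
    (hsep : ∀ x ∈ K, ∀ y ∈ K, (∀ i, d i x = d i y) → x = y) :
    netWeight K ≤ ℵ₀ ⊔ Cardinal.mk ι := by
  classical
  -- the box sets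
  let W : ι × ℚ × ℚ → Set E := fun p => {x | x ∈ K ∧ (p.2.1 : ℝ) < d p.1 x ∧ d p.1 x < p.2.2}
  let B : List (ι × ℚ × ℚ) → Set E := fun l => {x | x ∈ K ∧ ∀ p ∈ l, x ∈ W p}
  have hnet : IsNetworkOn K (Set.range B) := by
    refine ⟨?_, ?_⟩
    · rintro _ ⟨l, rfl⟩
      exact fun x hx => hx.1
    · intro x hx U hU hxU
      -- closed sets around x
      let C : ι × ℚ × ℚ → Set E := fun p => {y | y ∈ K ∧ (p.2.1 : ℝ) ≤ d p.1 y ∧ d p.1 y ≤ p.2.2}
      let P : Type u := {p : ι × ℚ × ℚ // x ∈ W p}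
      have hcl : ∀ p : ι × ℚ × ℚ, ∃ F : Set E, IsClosed F ∧ K ∩ F = C p := by
        intro p
        have h1 : ∃ F : Set E, IsClosed F ∧
            K ∩ d p.1 ⁻¹' (Icc (p.2.1 : ℝ) p.2.2) = K ∩ F := by
          have := continuousOn_iff_isClosed.1 (hd p.1) (Icc (p.2.1 : ℝ) p.2.2) isClosed_Icc
          obtain ⟨u, hu, hu'⟩ := this
          exact ⟨u, hu, by rw [inter_comm, hu', inter_comm]⟩
        obtain ⟨F, hF, hF'⟩ := h1
        refine ⟨F, hF, ?_⟩
        rw [← hF']
        ext y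
        rfl
      choose F hFc hF using hcl
      -- compactness
      have hKU : IsCompact (K \ U) := hK.diff hU
      have hempty : (K \ U) ∩ ⋂ p : P, F p.1 = ∅ := by
        rw [eq_empty_iff_forall_notMem]
        rintro y ⟨⟨hyK, hyU⟩, hyF⟩
        rw [mem_iInter] at hyF
        apply hyU
        have : x = y := by
          apply hsep x hx y hyK
          intro i
          by_contra hne
          obtain ⟨q, hq⟩ : ∃ q : ℚ × ℚ, (q.1 : ℝ) < d i x ∧ d i x < q.2 ∧
              ¬ ((q.1 : ℝ) ≤ d i y ∧ d i y ≤ q.2) := by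
            rcases lt_or_gt_of_ne hne with hlt | hlt
            · obtain ⟨s, hs1, hs2⟩ := exists_rat_btwn hlt
              obtain ⟨r, hr⟩ := exists_rat_lt (d i x)
              exact ⟨(r, s), hr, hs1, fun h => absurd h.2 (not_le.2 hs2)⟩
            · obtain ⟨r, hr1, hr2⟩ := exists_rat_btwn hlt
              obtain ⟨s, hs⟩ := exists_rat_gt (d i x)
              exact ⟨(r, s), hr2, hs, fun h => absurd h.1 (not_le.2 hr1)⟩
          have hy := hyF ⟨(i, q), hx, hq.1, hq.2.1⟩
          have : y ∈ C (i, q) := by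
            rw [← hF]
            exact ⟨hyK, hy⟩
          exact hq.2.2 this.2
        rw [← this]
        exact hxU
      obtain ⟨t, ht⟩ := hKU.elim_finite_subfamily_closed (fun p : P => F p.1)
        (fun p => hFc p.1) hempty
      refine ⟨B ((t.image Subtype.val).toList), ⟨_, rfl⟩, ⟨hx, ?_⟩, ?_⟩
      · intro p hp
        rw [Finset.mem_toList, Finset.mem_image] at hp
        obtain ⟨p', -, rfl⟩ := hp
        exact p'.2
      · rintro y ⟨hyK, hy⟩
        by_contra hyU
        have : y ∈ (K \ U) ∩ ⋂ p ∈ t, F p.1 := by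
          refine ⟨⟨hyK, hyU⟩, ?_⟩
          rw [mem_iInter₂]
          intro p hp
          have h1 := hy p.1 (by
            rw [Finset.mem_toList, Finset.mem_image]
            exact ⟨p, hp, rfl⟩)
          have h2 : y ∈ C p.1 := ⟨hyK, h1.2.1.le, h1.2.2.le⟩
          rw [← hF] at h2
          exact h2.2
        rw [ht] at this
        exact this
  refine (netWeight_le_of_network hnet).trans (sup_le le_sup_left ?_)
  refine Cardinal.mk_range_le.trans ((Cardinal.mk_list_le_max _).trans (sup_le le_sup_left ?_))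
  have : #(ι × ℚ × ℚ) = #ι * ℵ₀ := by
    simp [Cardinal.mk_prod]
  rw [this]
  refine (Cardinal.mul_le_max _ _).trans ?_
  exact sup_le (sup_le le_sup_right le_sup_left) le_sup_left

end Network

/-- A set of size at most `κ`, where `κ` has countable cofinality, is an increasing union of a
sequence of sets of size less than `κ`. -/
theorem exists_countable_decomp {T : Type u} {κ : Cardinal.{u}} (hκ : κ.ord.cof = ℵ₀)
    (hT : #T ≤ κ) :
    ∃ S : ℕ → Set T, Monotone S ∧ (∀ t, ∃ n, t ∈ S n) ∧ ∀ n, #(S n) < κ := by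
  classical
  have hinf : ℵ₀ ≤ κ := by
    rw [← hκ]
    exact Ordinal.cof_ord_le κ
  have hα : #κ.ord.ToType = κ := by rw [Cardinal.mk_toType, Cardinal.card_ord]
  obtain ⟨ι⟩ : Nonempty (T ↪ κ.ord.ToType) := by
    rw [← Cardinal.le_def, hα]
    exact hT
  obtain ⟨s, hs, hsc⟩ := Order.exists_cof_eq κ.ord.ToType
  rw [Ordinal.cof_toType, hκ] at hsc
  have hscount : s.Countable := by
    rw [← Cardinal.le_aleph0_iff_set_countable, hsc]
  have hsne : s.Nonempty := by
    rw [Set.nonempty_iff_ne_empty]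
    rintro rfl
    simp at hsc
    exact absurd hsc.symm Cardinal.aleph0_ne_zero
  obtain ⟨a, rfl⟩ := hscount.exists_eq_range hsne
  let b := partialSups a
  refine ⟨fun n => {t | ι t ≤ b n}, ?_, ?_, ?_⟩
  · intro m n hmn t ht
    exact le_trans ht (b.monotone hmn)
  · intro t
    obtain ⟨_, ⟨n, rfl⟩, hn⟩ := hs (ι t)
    exact ⟨n, hn.trans (le_partialSups a n)⟩
  · intro n
    have h1 : #{t : T | ι t ≤ b n} ≤ #(Iic (b n)) := by
      refine Cardinal.mk_le_of_injective (f := fun t => ⟨ι t.1, t.2⟩) ?_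
      intro t t' h
      have := congrArg Subtype.val h
      exact Subtype.ext (ι.injective this)
    refine h1.trans_lt ?_
    have h2 : #(Iio (b n)) < κ := Cardinal.mk_Iio_toType_ord_lt (b n)
    have h3 : Iic (b n) = insert (b n) (Iio (b n)) := by
      ext x
      simp [le_iff_eq_or_lt]
    rw [h3]
    refine (Cardinal.mk_insert_le).trans_lt ?_
    exact Cardinal.add_lt_of_lt hinf h2 (Cardinal.one_lt_aleph0.trans_le hinf)

end Pool.Agent.Helper50.NW
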