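import Pool.Agent.Helper50.NW.NonExt

/-!
# The splitting theorem
-/

set_option autoImplicit false
set_option linter.unusedSectionVars false
set_option linter.style.haveILetI false

namespace Pool.Agent.Helper50.NW

open Set Filter Topology MeasureTheory

universe u

variable {I : Type u} [LinearOrder I] [WellFoundedLT I] [Nonempty I] {C : Type u} [Nonempty C]

/-- A point of the vector space is *split* in a set `S` if it is a proper convex combination of
two points of `S`, the first one different from it. -/
def IsSplit {V : Type*} [AddCommGroup V] [Module ℝ V] (S : Set V) (z : V) : Prop :=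
  ∃ q₁ ∈ S, ∃ q₂ ∈ S, ∃ t : ℝ, 0 < t ∧ t < 1 ∧ z = t • q₁ + (1 - t) • q₂ ∧ q₁ ≠ z

variable {Ω : Type*} [MeasurableSpace Ω] {μ : Measure Ω} [IsProbabilityMeasure μ]
  {A : I → Set Ω} {lam : ℝ}

/-- The coefficients `a i = 1 / μ (A i)`. -/
noncomputable def coef {Ω : Type*} [MeasurableSpace Ω] (μ : Measure Ω) (A : I → Set Ω) (i : I) :
    ℝ := (μ.real (A i))⁻¹

/-- **The averaging lemma**: case of the extreme values. -/
theorem split_extreme_value (h0 : 0 < lam) (h1 : lam < 1) (ha1 : ∀ b, 1 < coef μ A b)
    (ha : ∀ b, (1 - lam) * coef μ A b ≤ lam) (hA : ∀ i, MeasurableSet (A i))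
    (hC : ∀ x : C, ∃ y, y ≠ x)
    {f : I → C} {s : Hist I} (hs : s.Valid (Centered μ A)) {k : ℕ}
    (hk : s.L k = univ) {b' : I}
    (hb' : ∀ i, i < k → b' ∉ s.L i ∧ ∀ x ∈ s.y i, x < b') {ε : ℝ} (hε : ε = 1 ∨ ε = -1) :
    IsSplit (closure (convexHull ℝ (Zset lam (coef μ A) (Centered μ A) C)))
      (zf lam (coef μ A) ⟨f, univ, s, hv lam s k + ε * lam ^ k⟩) := by
  classical
  set a := coef μ A with ha_def
  set Z := Zset lam a (Centered μ A) C with hZ
  set c : ℝ := hv lam s k + ε * lam ^ k with hc
  have ha1' : ∀ b, 1 ≤ a b := fun b => (ha1 b).le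
  have hlk : 0 < lam ^ k := by positivity
  have h1l : 0 < 1 - lam := sub_pos.2 h1
  have hεabs : |ε| = 1 := by rcases hε with h | h <;> simp [h]
  have hε0 : ε ≠ 0 := by rcases hε with h | h <;> simp [h]
  have hAr : ∀ i, 0 < μ.real (A i) := by
    intro i
    by_contra hcon
    have h2 : μ.real (A i) = 0 := le_antisymm (not_lt.1 hcon) measureReal_nonneg
    have := ha1 i
    rw [ha_def, coef, h2, inv_zero] at this
    linarith
  have hAr1 : ∀ i, μ.real (A i) < 1 := by
    intro i
    have := ha1 i
    rw [ha_def, coef] at this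
    exact (one_lt_inv₀ (hAr i)).1 this
  have hempty : (∅ : Set I) ∈ Centered μ A := empty_mem_centered
  -- the extended parameters are valid
  have hval : ∀ y ∈ Centered μ A,
      (⟨f, univ, extHist s k b' ε y, c⟩ : Par I C).Valid lam (Centered μ A) := by
    intro y hy
    refine ⟨isLowerSet_univ, extHist_valid hs hε hy hempty hb', ?_, ?_⟩
    · have h2 := abs_hv_sub_le h0 h1 hs (Nat.zero_le k)
      simp only [hv, Finset.range_zero, Finset.sum_empty, sub_zero, pow_zero] at h2
      have h3 : |hv lam s k| ≤ 1 - lam ^ k := h2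
      calc |c| ≤ |hv lam s k| + |ε * lam ^ k| := abs_add_le _ _
        _ ≤ (1 - lam ^ k) + lam ^ k := by
          rw [abs_mul, hεabs, one_mul, abs_of_pos hlk]; linarith
        _ = 1 := by ring
    · rintro m ⟨b, -, hb⟩
      simp only [extHist] at hb
      have hm : m ≤ k := by
        by_contra hcon
        push Not at hcon
        rw [if_neg (by omega), if_neg (by omega)] at hb
        exact hb trivial
      rcases hm.lt_or_eq with hlt | rfl
      · have e1 : hv lam (extHist s k b' ε y) (m + 1) = hv lam s (m + 1) :=
          hv_extHist_le s b' ε y hlt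
        simp only
        rw [e1]
        have h3 := abs_hv_sub_le h0 h1 hs (show m + 1 ≤ k from hlt)
        calc |c - hv lam s (m + 1)|
            = |ε * lam ^ k + (hv lam s k - hv lam s (m + 1))| := by rw [hc]; ring_nf
          _ ≤ |ε * lam ^ k| + |hv lam s k - hv lam s (m + 1)| := abs_add_le _ _
          _ ≤ lam ^ k + (lam ^ (m + 1) - lam ^ k) := by
            rw [abs_mul, hεabs, one_mul, abs_of_pos hlk]; linarith
          _ = lam ^ (m + 1) := by ring
      · simp only
        rw [hv_extHist_succ]
        have : c - (hv lam s m + (1 - lam) * lam ^ m * ε) = ε * lam ^ (m + 1) := by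
          rw [hc, pow_succ]; ring
        rw [this, abs_mul, hεabs, one_mul, abs_of_pos (by positivity)]
  -- the base point and the directions
  let v₀ : (I → C) → ℝ := fun g => if f = g then c else
    if diff f g < b' then hw lam a s (diff f g) else hv lam s k + (1 - lam) * lam ^ k * ε
  let u : I → (I → C) → ℝ := fun b g =>
    if f ≠ g ∧ diff f g = b ∧ b' ≤ b then -((1 - lam) * lam ^ k * ε * a b) else 0
  have hsum_u : ∀ (F : Finset I) (w : I → ℝ) (g : I → C),
      (∑ b ∈ F, w b • u b) g = if f ≠ g ∧ diff f g ∈ F ∧ b' ≤ diff f g then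
        -(w (diff f g) * ((1 - lam) * lam ^ k * ε * a (diff f g))) else 0 := by
    intro F w g
    rw [Finset.sum_apply]
    by_cases hcond : f ≠ g ∧ diff f g ∈ F ∧ b' ≤ diff f g
    · rw [if_pos hcond, Finset.sum_eq_single (diff f g)]
      · simp only [u, Pi.smul_apply, smul_eq_mul]
        rw [if_pos ⟨hcond.1, trivial, hcond.2.2⟩]
        ring
      · intro b _ hb
        simp only [u, Pi.smul_apply, smul_eq_mul]
        rw [if_neg (fun h => hb h.2.1.symm), mul_zero]
      · intro h
        exact absurd hcond.2.1 h
    · rw [if_neg hcond]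
      refine Finset.sum_eq_zero fun b hb => ?_
      simp only [u, Pi.smul_apply, smul_eq_mul]
      rw [if_neg, mul_zero]
      rintro ⟨h2, h3, h4⟩
      subst h3
      exact hcond ⟨h2, hb, h4⟩
  have hmem : ∀ F : Finset I, (F : Set I) ∈ Centered μ A → v₀ + ∑ b ∈ F, u b ∈ Z := by
    intro F hF
    refine ⟨⟨f, univ, extHist s k b' ε F, c⟩, hval _ hF, ?_⟩
    funext g
    have hs1 := hsum_u F (fun _ => 1) g
    simp only [one_smul, one_mul] at hs1
    rw [Pi.add_apply, hs1]
    by_cases hfg : f = g
    · rw [zf_of_eq (by simp [hfg])]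
      simp [v₀, hfg]
    · have hne : ¬ ∀ b ∈ (univ : Set I), f b = g b :=
        fun h => hfg (funext fun b => h b (mem_univ b))
      rw [zf_of_ne (p := ⟨f, univ, extHist s k b' ε F, c⟩) hne]
      by_cases hlt : diff f g < b'
      · rw [hw_extHist_lt hs hk ε _ hlt]
        simp [v₀, hfg, hlt]
      · have hge := not_lt.1 hlt
        rw [hw_extHist_ge ε _ hb' hs hge]
        simp only [v₀, if_neg hfg, if_neg hlt]
        by_cases hF' : diff f g ∈ F
        · have hF1 : diff f g ∈ (F : Set I) := by exact_mod_cast hF'
          have hF2 : f ≠ g ∧ diff f g ∈ F ∧ b' ≤ diff f g := ⟨hfg, hF', hge⟩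
          rw [if_pos hF1, if_pos hF2]
          ring
        · have hF1 : diff f g ∉ (F : Set I) := by exact_mod_cast hF'
          have hF2 : ¬ (f ≠ g ∧ diff f g ∈ F ∧ b' ≤ diff f g) := fun h => hF' h.2.1
          rw [if_neg hF1, if_neg hF2]
          ring
  -- averages over `B`
  let q : Set Ω → (I → C) → ℝ := fun B g => v₀ g +
    if f ≠ g ∧ b' ≤ diff f g then
      -((μ.real (A (diff f g) ∩ B) / μ.real B) * ((1 - lam) * lam ^ k * ε * a (diff f g))) else 0
  have hq : ∀ B, MeasurableSet B → μ B ≠ 0 → q B ∈ closure (convexHull ℝ Z) := by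
    intro B hBm hB
    have hmemΔ : ∀ Δ : Finset I,
        v₀ + ∑ i ∈ Δ, (μ.real (A i ∩ B) / μ.real B) • u i ∈ convexHull ℝ Z := by
      intro Δ
      refine convex_average hA (convex_convexHull ℝ Z) u Δ B hBm hB v₀ fun F _ hFB => ?_
      refine subset_convexHull ℝ Z (hmem F (finset_mem_centered fun h => hFB ?_))
      exact measure_mono_null inter_subset_right h
    refine mem_closure_of_tendsto (f := fun Δ : Finset I =>
      v₀ + ∑ i ∈ Δ, (μ.real (A i ∩ B) / μ.real B) • u i) (b := atTop) ?_
      (Eventually.of_forall hmemΔ)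
    rw [tendsto_pi_nhds]
    intro g
    refine tendsto_const_nhds.congr' ?_
    filter_upwards [eventually_ge_atTop ({diff f g} : Finset I)] with Δ hΔ
    have hd : diff f g ∈ Δ := hΔ (Finset.mem_singleton_self _)
    rw [Pi.add_apply, hsum_u]
    simp only [q]
    congr 1
    by_cases hcond : f ≠ g ∧ b' ≤ diff f g
    · rw [if_pos hcond, if_pos ⟨hcond.1, hd, hcond.2⟩]
    · rw [if_neg hcond, if_neg fun h => hcond ⟨h.1, h.2.2⟩]
  -- the splitting along `A b'`
  have hB1 : μ (A b') ≠ 0 := by
    intro h
    have := hAr b'
    rw [measureReal_def, h] at this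
    simp at this
  have hB2 : μ (A b')ᶜ ≠ 0 := by
    intro h
    have h2 : μ.real (A b')ᶜ = 0 := by rw [measureReal_def, h]; simp
    rw [probReal_compl_eq_one_sub (hA b')] at h2
    have := hAr1 b'
    linarith
  set t := μ.real (A b') with ht
  have ht0 : 0 < t := hAr b'
  have ht1 : t < 1 := hAr1 b'
  have hcompl : μ.real (A b')ᶜ = 1 - t := probReal_compl_eq_one_sub (hA b')
  have hfz : ∀ g, zf lam a ⟨f, univ, s, c⟩ g = if f = g then c else hw lam a s (diff f g) := by
    intro g
    by_cases hfg : f = g
    · rw [zf_of_eq (by simp [hfg]), if_pos hfg]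
    · have hne : ¬ ∀ b ∈ (univ : Set I), f b = g b :=
        fun h => hfg (funext fun b => h b (mem_univ b))
      rw [zf_of_ne (p := ⟨f, univ, s, c⟩) hne, if_neg hfg]
  have hwge : ∀ b, b' ≤ b → hw lam a s b = hv lam s k := by
    intro b hb
    refine hw_eq_hv hs (fun i hi h => (hb' i hi).1 (hs.lower i hb h))
      (fun i hi h => absurd ((hb' i hi).2 b h) (not_lt.2 hb)) (by rw [hk]; trivial)
  refine ⟨q (A b'), hq _ (hA b') hB1, q (A b')ᶜ, hq _ (hA b').compl hB2, t, ht0, ht1, ?_, ?_⟩
  · funext g
    rw [hfz g]
    simp only [Pi.add_apply, Pi.smul_apply, smul_eq_mul, q, hcompl, v₀]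
    by_cases hfg : f = g
    · simp only [if_pos hfg]
      rw [if_neg (fun h => h.1 hfg), if_neg (fun h => h.1 hfg)]
      ring
    · simp only [if_neg hfg]
      by_cases hlt : diff f g < b'
      · rw [if_pos hlt, if_neg (fun h => absurd hlt (not_lt.2 h.2)),
          if_neg (fun h => absurd hlt (not_lt.2 h.2))]
        ring
      · have hge := not_lt.1 hlt
        rw [if_neg hlt, if_pos ⟨hfg, hge⟩, if_pos ⟨hfg, hge⟩, hwge _ hge, ← ht]
        have e1 : μ.real (A (diff f g)) =
            μ.real (A (diff f g) ∩ A b') + μ.real (A (diff f g) ∩ (A b')ᶜ) := by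
          rw [← measureReal_inter_add_sdiff (s := A (diff f g)) (hA b'), Set.sdiff_eq]
        have e2 : a (diff f g) * μ.real (A (diff f g)) = 1 := by
          rw [ha_def, coef]
          exact inv_mul_cancel₀ (hAr _).ne'
        have ht1' : 1 - t ≠ 0 := by linarith
        have e3 : t * (μ.real (A (diff f g) ∩ A b') / t *
              ((1 - lam) * lam ^ k * ε * a (diff f g))) +
            (1 - t) * (μ.real (A (diff f g) ∩ (A b')ᶜ) / (1 - t) *
              ((1 - lam) * lam ^ k * ε * a (diff f g))) = (1 - lam) * lam ^ k * ε := by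
          have : t * (μ.real (A (diff f g) ∩ A b') / t *
              ((1 - lam) * lam ^ k * ε * a (diff f g))) +
            (1 - t) * (μ.real (A (diff f g) ∩ (A b')ᶜ) / (1 - t) *
              ((1 - lam) * lam ^ k * ε * a (diff f g))) =
              (1 - lam) * lam ^ k * ε * (a (diff f g) *
                (μ.real (A (diff f g) ∩ A b') + μ.real (A (diff f g) ∩ (A b')ᶜ))) := by
            field_simp
          rw [this, ← e1, e2, mul_one]
        linear_combination e3
  · -- the first point is different
    intro heq
    obtain ⟨x, hx⟩ := hC (f b')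
    have hne : f ≠ Function.update f b' x := by
      intro h
      have := congrFun h b'
      rw [Function.update_self] at this
      exact hx this.symm
    have hd : diff f (Function.update f b' x) = b' := by
      refine diff_eq ?_ ?_
      · rw [Function.update_self]
        exact hx.symm
      · intro c hc
        rw [Function.update_of_ne hc.ne]
    have h2 := congrFun heq (Function.update f b' x)
    rw [hfz] at h2
    simp only [q, v₀, if_neg hne, hd, lt_irrefl, if_false, le_refl, and_true] at h2
    rw [if_pos hne, hwge b' le_rfl, inter_self, ← ht, div_self ht0.ne', one_mul] at h2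
    have h3 : (1 - lam) * lam ^ k * ε * (1 - a b') = 0 := by linear_combination h2
    have h4 : (1 - lam) * lam ^ k * ε ≠ 0 := mul_ne_zero (mul_pos h1l hlk).ne' hε0
    rcases mul_eq_zero.1 h3 with h5 | h5
    · exact h4 h5
    · have := ha1 b'
      linarith

/-- **The splitting theorem**: every point of `Z` is of node type or split. -/
theorem node_or_split (h0 : 0 < lam) (h1 : lam < 1) (ha1 : ∀ b, 1 < coef μ A b)
    (ha : ∀ b, (1 - lam) * coef μ A b ≤ lam) (hA : ∀ i, MeasurableSet (A i))
    (hC : ∀ x : C, ∃ y, y ≠ x)
    (hunb : ∀ b : ℕ → I, ∃ b', ∀ n, b n < b')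
    (hbdd : ∀ y ∈ Centered μ A, ∃ b, ∀ x ∈ y, x < b)
    {p : Par I C} (hp : p.Valid lam (Centered μ A)) :
    (∃ (f : I → C) (b' : I) (s : Hist I) (c : ℝ),
      zf lam (coef μ A) p = zf lam (coef μ A) ⟨f, Iio b', s, c⟩) ∨
    IsSplit (closure (convexHull ℝ (Zset lam (coef μ A) (Centered μ A) C)))
      (zf lam (coef μ A) p) := by
  classical
  have ha1' : ∀ b, 1 ≤ coef μ A b := fun b => (ha1 b).le
  obtain ⟨f, L, s, c⟩ := p
  have hs : s.Valid (Centered μ A) := hp.hist
  by_cases hL : L = univ
  · subst hL
    by_cases hall : ∀ i, s.L i ≠ univ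
    · -- infinitely many stages
      left
      obtain ⟨b', hb'⟩ := exists_stage_bound hunb hbdd hs (fun _ => True) (fun i _ => hall i)
      refine ⟨f, b', s, c, zf_univ_eq_node fun b hb => ?_⟩
      have h2 : ∀ n, |hw lam (coef μ A) s b - hv lam s n| ≤ lam ^ n := fun n =>
        abs_hw_sub_le h0 h1 ha1' ha hs fun i _ h => (hb' i trivial).1 (hs.lower i hb h)
      have h3 : ∀ m, |c - hv lam s (m + 1)| ≤ lam ^ (m + 1) := fun m =>
        hp.near m ⟨b', trivial, (hb' m trivial).1⟩
      have h4 : ∀ m, |hw lam (coef μ A) s b - c| ≤ 2 * lam ^ (m + 1) := by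
        intro m
        calc |hw lam (coef μ A) s b - c|
            = |(hw lam (coef μ A) s b - hv lam s (m + 1)) - (c - hv lam s (m + 1))| := by ring_nf
          _ ≤ |hw lam (coef μ A) s b - hv lam s (m + 1)| + |c - hv lam s (m + 1)| := abs_sub _ _
          _ ≤ lam ^ (m + 1) + lam ^ (m + 1) := add_le_add (h2 _) (h3 m)
          _ = 2 * lam ^ (m + 1) := by ring
      have h5 : Tendsto (fun m : ℕ => 2 * lam ^ (m + 1)) atTop (𝓝 0) := by
        have := ((tendsto_pow_atTop_nhds_zero_of_lt_one h0.le h1).comp
          (tendsto_add_atTop_nat 1)).const_mul 2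
        simpa using this
      have h6 : |hw lam (coef μ A) s b - c| ≤ 0 := ge_of_tendsto' h5 h4
      have h7 := abs_nonpos_iff.1 h6
      linarith
    · push Not at hall
      -- the least `k` with `L k = univ`
      let k := Nat.find hall
      have hk : s.L k = univ := Nat.find_spec hall
      have hkmin : ∀ i, i < k → s.L i ≠ univ := fun i hi => Nat.find_min hall hi
      obtain ⟨b', hb'⟩ := exists_stage_bound hunb hbdd hs (fun i => i < k) hkmin
      have hwge : ∀ b, b' ≤ b → hw lam (coef μ A) s b = hv lam s k := by
        intro b hb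
        refine hw_eq_hv hs (fun i hi h => (hb' i hi).1 (hs.lower i hb h))
          (fun i hi h => absurd ((hb' i hi).2 b h) (not_lt.2 hb)) (by rw [hk]; trivial)
      have hck : |c - hv lam s k| ≤ lam ^ k := by
        rcases Nat.eq_zero_or_pos k with h | h
        · rw [h]
          simpa [hv] using hp.abs_c
        · obtain ⟨m, hm⟩ : ∃ m, k = m + 1 := ⟨k - 1, by omega⟩
          rw [hm]
          exact hp.near m ⟨b', trivial, (hb' m (by omega)).1⟩
      by_cases hceq : c = hv lam s k
      · left
        exact ⟨f, b', s, c, zf_univ_eq_node fun b hb => by rw [hwge b hb, hceq]⟩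
      · right
        have hlk : 0 < lam ^ k := by positivity
        by_cases hext : |c - hv lam s k| = lam ^ k
        · -- extreme values
          rcases (abs_eq hlk.le).1 hext with h | h
          · have hc : c = hv lam s k + 1 * lam ^ k := by linarith
            rw [hc]
            exact split_extreme_value h0 h1 ha1 ha hA hC hs hk hb' (Or.inl rfl)
          · have hc : c = hv lam s k + (-1) * lam ^ k := by linarith
            rw [hc]
            exact split_extreme_value h0 h1 ha1 ha hA hC hs hk hb' (Or.inr rfl)
        · -- intermediate values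
          have hlt : |c - hv lam s k| < lam ^ k := lt_of_le_of_ne hck hext
          obtain ⟨hlt1, hlt2⟩ := abs_lt.1 hlt
          have hval : ∀ c' : ℝ, |c' - hv lam s k| ≤ lam ^ k →
              (⟨f, univ, s, c'⟩ : Par I C).Valid lam (Centered μ A) := by
            intro c' hc'
            refine ⟨isLowerSet_univ, hs, ?_, ?_⟩
            · have h2 := abs_hv_sub_le h0 h1 hs (Nat.zero_le k)
              simp only [hv, Finset.range_zero, Finset.sum_empty, sub_zero, pow_zero] at h2
              have h3 : |hv lam s k| ≤ 1 - lam ^ k := h2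
              calc |c'| = |(c' - hv lam s k) + hv lam s k| := by ring_nf
                _ ≤ |c' - hv lam s k| + |hv lam s k| := abs_add_le _ _
                _ ≤ lam ^ k + (1 - lam ^ k) := add_le_add hc' h3
                _ = 1 := by ring
            · rintro m ⟨b, -, hb⟩
              have hm : m + 1 ≤ k := by
                by_contra hcon
                push Not at hcon
                exact hb (hs.mono' (show k ≤ m by omega) (by rw [hk]; trivial))
              have h3 := abs_hv_sub_le h0 h1 hs hm
              calc |c' - hv lam s (m + 1)|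
                  = |(c' - hv lam s k) + (hv lam s k - hv lam s (m + 1))| := by ring_nf
                _ ≤ |c' - hv lam s k| + |hv lam s k - hv lam s (m + 1)| := abs_add_le _ _
                _ ≤ lam ^ k + (lam ^ (m + 1) - lam ^ k) := add_le_add hc' h3
                _ = lam ^ (m + 1) := by ring
          have hsub : Zset lam (coef μ A) (Centered μ A) C ⊆
              closure (convexHull ℝ (Zset lam (coef μ A) (Centered μ A) C)) :=
            (subset_convexHull ℝ _).trans subset_closure
          have hfz : ∀ c' g, zf lam (coef μ A) ⟨f, univ, s, c'⟩ g =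
              if f = g then c' else hw lam (coef μ A) s (diff f g) := by
            intro c' g
            by_cases hfg : f = g
            · rw [zf_of_eq (by simp [hfg]), if_pos hfg]
            · have hne : ¬ ∀ b ∈ (univ : Set I), f b = g b :=
                fun h => hfg (funext fun b => h b (mem_univ b))
              rw [zf_of_ne (p := ⟨f, univ, s, c'⟩) hne, if_neg hfg]
          refine ⟨zf lam (coef μ A) ⟨f, univ, s, hv lam s k + lam ^ k⟩,
            hsub ⟨_, hval _ (by simp [abs_of_pos hlk]), rfl⟩,
            zf lam (coef μ A) ⟨f, univ, s, hv lam s k - lam ^ k⟩,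
            hsub ⟨_, hval _ (by simp [abs_of_pos hlk]), rfl⟩,
            (c - hv lam s k + lam ^ k) / (2 * lam ^ k), by apply div_pos <;> linarith,
            by rw [div_lt_one (by positivity)]; linarith, ?_, ?_⟩
          · funext g
            rw [Pi.add_apply, Pi.smul_apply, Pi.smul_apply, hfz, hfz, hfz, smul_eq_mul, smul_eq_mul]
            by_cases hfg : f = g
            · simp only [if_pos hfg]
              field_simp
              ring
            · simp only [if_neg hfg]
              ring
          · intro heq
            have h2 := congrFun heq f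
            rw [hfz, hfz, if_pos rfl, if_pos rfl] at h2
            linarith
  · left
    -- a proper lower set is an initial segment
    have hlow : IsLowerSet L := hp.lower
    have hne : (Lᶜ).Nonempty := by
      rw [nonempty_compl]
      exact hL
    let b' := (wellFounded_lt (α := I)).min Lᶜ hne
    have hLeq : L = Iio b' := by
      ext x
      constructor
      · intro hx
        by_contra hcon
        exact (wellFounded_lt (α := I)).min_mem Lᶜ hne (hlow (not_lt.1 hcon) hx)
      · intro hx
        by_contra hcon
        exact (wellFounded_lt (α := I)).not_lt_min Lᶜ hcon hx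
    exact ⟨f, b', s, c, by rw [hLeq]⟩

end Pool.Agent.Helper50.NW
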