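import Pool.Agent.Helper50.NW.Prec
import Pool.Agent.Helper50.NW.NonExt2

/-!
# Cardinal arithmetic for the counterexample
-/

set_option autoImplicit false
set_option linter.unusedSectionVars false
set_option linter.style.haveILetI false

namespace Pool.Agent.Helper50.NW

open Set Filter Topology Cardinal MeasureTheory

universe u

theorem exists_not_le_of_lt_cof {α : Type u} [LinearOrder α] {y : Set α} (h : #y < Order.cof α) :
    ∃ b, ∀ x ∈ y, x < b := by
  have : ¬ IsCofinal y := fun hc => absurd (Order.cof_le hc) (not_le.2 h)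
  rw [IsCofinal] at this
  push Not at this
  obtain ⟨b, hb⟩ := this
  exact ⟨b, fun x hx => hb x hx⟩

theorem mk_Iio_lt_ord {κ : Cardinal.{u}} (c : κ.ord.ToType) : #(Iio c) < κ := by
  have h := Cardinal.mk_Iio_lt c (by
    rw [Ordinal.type_toType]
    rw [Cardinal.mk_toType, Cardinal.card_ord])
  rwa [Cardinal.mk_toType, Cardinal.card_ord] at h

/-- `κ ^ ν ≤ κ` for `ν < cf κ` if `2^{<κ} ≤ κ`. -/
theorem mk_fun_le {κ : Cardinal.{u}} (hκ : ℵ₀ ≤ κ) (h2 : 2 ^< κ ≤ κ) {N : Type u}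
    (hN : #N < κ.ord.cof) : #(N → κ.ord.ToType) ≤ κ := by
  have hC : #κ.ord.ToType = κ := by rw [Cardinal.mk_toType, Cardinal.card_ord]
  have hNκ : #N < κ := hN.trans_le (Ordinal.cof_ord_le κ)
  -- every function is bounded
  let Φ : (Σ c : κ.ord.ToType, N → Iio c) → (N → κ.ord.ToType) := fun p n => (p.2 n : κ.ord.ToType)
  have hsurj : Function.Surjective Φ := by
    intro φ
    have h1 : #(Set.range φ) < Order.cof κ.ord.ToType := by
      rw [Ordinal.cof_toType]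
      exact Cardinal.mk_range_le.trans_lt hN
    obtain ⟨b, hb⟩ := exists_not_le_of_lt_cof h1
    exact ⟨⟨b, fun n => ⟨φ n, hb _ ⟨n, rfl⟩⟩⟩, rfl⟩
  refine (Cardinal.mk_le_of_surjective hsurj).trans ?_
  rw [Cardinal.mk_sigma]
  have h1 : (Cardinal.sum fun c : κ.ord.ToType => #(N → Iio c)) ≤
      Cardinal.sum fun _ : κ.ord.ToType => κ := by
    refine Cardinal.sum_le_sum _ _ fun c => ?_
    have e1 : #(N → Iio c) = #(Iio c) ^ #N := by simp
    rw [e1]
    have hc := mk_Iio_lt_ord c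
    calc #(Iio c) ^ #N ≤ (2 ^ #(Iio c)) ^ #N :=
          Cardinal.power_le_power_right (Cardinal.cantor _).le
      _ = 2 ^ (#(Iio c) * #N) := by rw [Cardinal.power_mul]
      _ ≤ 2 ^< κ := Cardinal.le_powerlt 2 (Cardinal.mul_lt_of_lt hκ hc hNκ)
      _ ≤ κ := h2
  refine h1.trans ?_
  rw [Cardinal.sum_const', hC]
  exact (Cardinal.mul_eq_self hκ).le

/-- `𝔠 ^ ν ≤ κ` for `ν < κ` if `κ` is uncountable and `2^{<κ} ≤ κ`. -/
theorem mk_fun_real_le {κ : Cardinal.{u}} (hκ : ℵ₀ < κ) (h2 : 2 ^< κ ≤ κ) {N : Type u}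
    (hN : #N < κ) : #(N → ℝ) ≤ κ := by
  have e1 : #(N → ℝ) = 2 ^ (ℵ₀ * #N) := by
    rw [Cardinal.mk_arrow, Cardinal.mk_real, Cardinal.lift_continuum, ← Cardinal.two_power_aleph0,
      Cardinal.power_mul, Cardinal.lift_id']
  rw [e1]
  exact (Cardinal.le_powerlt 2 (Cardinal.mul_lt_of_lt hκ.le hκ hN)).trans h2

theorem mk_real_le {κ : Cardinal.{u}} (hκ : ℵ₀ < κ) (h2 : 2 ^< κ ≤ κ) :
    #(ULift.{u} ℝ) ≤ κ := by
  have e1 : #(ULift.{u} ℝ) = 2 ^ (ℵ₀ : Cardinal.{u}) := by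
    rw [Cardinal.mk_uLift, Cardinal.mk_real, Cardinal.lift_continuum, Cardinal.two_power_aleph0]
  rw [e1]
  exact (Cardinal.le_powerlt 2 hκ).trans h2

section Nodes

variable {I : Type u} [LinearOrder I] [WellFoundedLT I] [Nonempty I] {C : Type u} [Nonempty C]
variable {lam : ℝ} {a : I → ℝ}

/-- The set of points of node type. -/
def NodeSet (lam : ℝ) (a : I → ℝ) (Cen : Set (Set I)) (C : Type u) [Nonempty C] :
    Set ((I → C) → ℝ) :=
  {z | z ∈ Zset lam a Cen C ∧ ∃ (f : I → C) (b' : I) (s : Hist I) (c : ℝ),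
    z = zf lam a ⟨f, Iio b', s, c⟩}

theorem zf_node_congr {f f' : I → C} {b' : I} {s s' : Hist I} {c : ℝ}
    (h1 : ∀ b < b', f b = f' b) (h2 : ∀ b < b', hw lam a s b = hw lam a s' b) :
    zf lam a ⟨f, Iio b', s, c⟩ = zf lam a ⟨f', Iio b', s', c⟩ := by
  funext g
  by_cases hg : ∀ b ∈ Iio b', f b = g b
  · have hg' : ∀ b ∈ Iio b', f' b = g b := fun b hb => by rw [← h1 b hb, hg b hb]
    rw [zf_of_eq (p := ⟨f, Iio b', s, c⟩) hg, zf_of_eq (p := ⟨f', Iio b', s', c⟩) hg']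
  · have hg' : ¬ ∀ b ∈ Iio b', f' b = g b := fun h => hg fun b hb => by rw [h1 b hb, h b hb]
    rw [zf_of_ne (p := ⟨f, Iio b', s, c⟩) hg, zf_of_ne (p := ⟨f', Iio b', s', c⟩) hg']
    push Not at hg
    obtain ⟨b, hb, hne⟩ := hg
    have hfg : f ≠ g := fun e => hne (by rw [e])
    have hlt : diff f g < b' := (diff_le hne).trans_lt hb
    have hd : diff f' g = diff f g := by
      refine diff_eq ?_ ?_
      · rw [← h1 _ hlt]
        exact diff_ne hfg
      · intro x hx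
        rw [← h1 x (hx.trans hlt), eq_of_lt_diff hx hfg]
    rw [hd]
    exact h2 _ hlt

theorem mk_nodeSet_le {κ : Cardinal.{u}} (hκ : ℵ₀ < κ) (h2 : 2 ^< κ ≤ κ) (Cen : Set (Set I))
    (hI : #I ≤ κ) (hseg : ∀ b : I, #(Iio b) < κ.ord.cof) (hC : C = κ.ord.ToType) :
    #(NodeSet lam a Cen C) ≤ κ := by
  subst hC
  -- choose parameters
  have hex : ∀ z : NodeSet lam a Cen κ.ord.ToType, ∃ p : (I → κ.ord.ToType) × I × Hist I × ℝ,
      (z : (I → κ.ord.ToType) → ℝ) = zf lam a ⟨p.1, Iio p.2.1, p.2.2.1, p.2.2.2⟩ := by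
    rintro ⟨z, -, f, b', s, c, rfl⟩
    exact ⟨⟨f, b', s, c⟩, rfl⟩
  choose p hp using hex
  let Ψ : NodeSet lam a Cen κ.ord.ToType →
      Σ b : I, (Iio b → κ.ord.ToType) × (Iio b → ℝ) × ULift.{u} ℝ := fun z =>
    ⟨(p z).2.1, fun b => (p z).1 b, fun b => hw lam a (p z).2.2.1 b, ⟨(p z).2.2.2⟩⟩
  have hinj : Function.Injective Ψ := by
    intro z z' h
    apply Subtype.ext
    rw [hp z, hp z']
    simp only [Ψ] at h
    generalize p z = q at h
    generalize p z' = q' at h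
    obtain ⟨f, b, s, c⟩ := q
    obtain ⟨f', b', s', c'⟩ := q'
    simp only at h
    rw [Sigma.mk.injEq] at h
    obtain ⟨rfl, h⟩ := h
    have h := eq_of_heq h
    rw [Prod.mk.injEq, Prod.mk.injEq] at h
    obtain ⟨h1, h2, h3⟩ := h
    have h3 : c = c' := ULift.up_injective h3
    subst h3
    exact zf_node_congr (fun x hx => congrFun h1 ⟨x, hx⟩) (fun x hx => congrFun h2 ⟨x, hx⟩)
  refine (Cardinal.mk_le_of_injective hinj).trans ?_
  rw [Cardinal.mk_sigma]
  have h3 : (Cardinal.sum fun b : I => #((Iio b → κ.ord.ToType) × (Iio b → ℝ) × ULift.{u} ℝ)) ≤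
      Cardinal.sum fun _ : I => κ := by
    refine Cardinal.sum_le_sum _ _ fun b => ?_
    rw [← Cardinal.mul_def, ← Cardinal.mul_def]
    have e1 := mk_fun_le hκ.le h2 (hseg b)
    have e2 := mk_fun_real_le hκ h2 ((hseg b).trans_le (Ordinal.cof_ord_le κ))
    have e3 := mk_real_le hκ h2
    calc _ ≤ κ * (κ * κ) := by gcongr
      _ = κ := by rw [Cardinal.mul_eq_self hκ.le, Cardinal.mul_eq_self hκ.le]
  refine h3.trans ?_
  rw [Cardinal.sum_const']
  calc #I * κ ≤ κ * κ := by gcongr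
    _ = κ := Cardinal.mul_eq_self hκ.le

end Nodes

end Pool.Agent.Helper50.NW
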