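import Pool.Agent.Helper50.NW.Prec
import Pool.Agent.Helper98.NW.M1

/-!
# The precaliber limit theorem

Let `θ` be a regular uncountable cardinal which is a measure precaliber and `f i n` (`i ∈ ι`,
`|ι| = θ`, `n ∈ ℕ`) uniformly bounded continuous affine functions on the compact convex set `K`.
If for every extreme point `e`, `f i n e → 0` (`n → ∞`) for all but fewer than `θ` many `i`, then
the same holds for every point of `K`.
-/

set_option autoImplicit false
set_option linter.unusedSectionVars false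
set_option linter.style.haveILetI false

namespace Pool.Agent.Helper50.NW

open Set Filter Topology Cardinal MeasureTheory

universe u

section ClosingOff

variable {X : Type*} [TopologicalSpace X]

/-- closing off a set of functions under a countable family of finite valued operations -/
def clOff (H : C(X, ℝ) → ℕ → Finset C(X, ℝ)) (S : Set C(X, ℝ)) : ℕ → Set C(X, ℝ)
  | 0 => S
  | n + 1 => clOff H S n ∪ ⋃ g ∈ clOff H S n, ⋃ j : ℕ, (H g j : Set C(X, ℝ))

/-- the closed-off set -/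
def clOffU (H : C(X, ℝ) → ℕ → Finset C(X, ℝ)) (S : Set C(X, ℝ)) : Set C(X, ℝ) :=
  ⋃ n, clOff H S n

theorem clOff_countable (H : C(X, ℝ) → ℕ → Finset C(X, ℝ)) {S : Set C(X, ℝ)} (hS : S.Countable)
    (n : ℕ) : (clOff H S n).Countable := by
  induction n with
  | zero => exact hS
  | succ n ih =>
    exact ih.union (ih.biUnion fun g _ => countable_iUnion fun j => (H g j).countable_toSet)

theorem clOffU_countable (H : C(X, ℝ) → ℕ → Finset C(X, ℝ)) {S : Set C(X, ℝ)}
    (hS : S.Countable) : (clOffU H S).Countable :=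
  countable_iUnion fun n => clOff_countable H hS n

theorem subset_clOffU (H : C(X, ℝ) → ℕ → Finset C(X, ℝ)) (S : Set C(X, ℝ)) :
    S ⊆ clOffU H S := fun _ hg => mem_iUnion.2 ⟨0, hg⟩

theorem mem_clOffU_of (H : C(X, ℝ) → ℕ → Finset C(X, ℝ)) (S : Set C(X, ℝ)) {g h : C(X, ℝ)}
    (hg : g ∈ clOffU H S) {j : ℕ} (hh : h ∈ H g j) : h ∈ clOffU H S := by
  obtain ⟨n, hn⟩ := mem_iUnion.1 hg
  refine mem_iUnion.2 ⟨n + 1, Or.inr ?_⟩
  exact mem_biUnion hn (mem_iUnion.2 ⟨j, hh⟩)

theorem clOffU_subset (H : C(X, ℝ) → ℕ → Finset C(X, ℝ)) {S T : Set C(X, ℝ)} (hST : S ⊆ T)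
    (hH : ∀ g ∈ T, ∀ j, (H g j : Set C(X, ℝ)) ⊆ T) : clOffU H S ⊆ T := by
  refine iUnion_subset fun n => ?_
  induction n with
  | zero => exact hST
  | succ n ih =>
    refine union_subset ih ?_
    refine iUnion₂_subset fun g hg => iUnion_subset fun j => hH g (ih hg) j

end ClosingOff

variable {E : Type u} [AddCommGroup E] [Module ℝ E] [TopologicalSpace E]
  [IsTopologicalAddGroup E] [ContinuousSMul ℝ E] [LocallyConvexSpace ℝ E] [T2Space E]

/-- Points at which the family `T` of affine functions computes the upper envelopes of the squares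
of its members. -/
def GoodPt (K : Set E) (T : Set C(K, ℝ)) (x : K) : Prop :=
  ∀ g ∈ T, ∀ ε : ℝ, 0 < ε → ∃ h ∈ T, (∀ y, g y ^ 2 ≤ h y) ∧ h x ≤ g x ^ 2 + ε

/-- The fibres through good points are faces. -/
theorem isExtreme_fibre {K : Set E} {J : Type*} (T : J → Set C(K, ℝ))
    (hT : ∀ i, T i ⊆ affSet K) {x : K} (hx : ∀ i, GoodPt K (T i) x) :
    IsExtreme ℝ K ((↑) '' {y : K | ∀ i, ∀ g ∈ T i, g y = g x} : Set E) := by
  refine ⟨?_, ?_⟩
  · rintro _ ⟨y, -, rfl⟩
    exact y.2
  · rintro p hp q hq _ ⟨z, hz, rfl⟩ hpq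
    obtain ⟨a, b, ha, hb, hab, hz'⟩ := hpq
    refine ⟨⟨p, hp⟩, fun i g hg => ?_, rfl⟩
    have hgaff := hT i hg ⟨p, hp⟩ ⟨q, hq⟩ z a b ha.le hb.le hab hz'.symm
    have hgz := hz i g hg
    have key : ∀ ε : ℝ, 0 < ε → a * b * (g ⟨p, hp⟩ - g ⟨q, hq⟩) ^ 2 ≤ ε := by
      intro ε hε
      obtain ⟨h, hhT, hh1, hh2⟩ := hx i g hg ε hε
      have hhaff := hT i hhT ⟨p, hp⟩ ⟨q, hq⟩ z a b ha.le hb.le hab hz'.symm
      have hhz := hz i h hhT
      have e1 := mul_le_mul_of_nonneg_left (hh1 ⟨p, hp⟩) ha.le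
      have e2 := mul_le_mul_of_nonneg_left (hh1 ⟨q, hq⟩) hb.le
      have e3 : a * g ⟨p, hp⟩ ^ 2 + b * g ⟨q, hq⟩ ^ 2 ≤ (a * g ⟨p, hp⟩ + b * g ⟨q, hq⟩) ^ 2 + ε := by
        rw [← hgaff, hgz]
        linarith
      have hb' : b = 1 - a := by linarith
      subst hb'
      nlinarith [e3]
    have h1 : a * b * (g ⟨p, hp⟩ - g ⟨q, hq⟩) ^ 2 ≤ 0 := by
      by_contra hcon
      push Not at hcon
      have := key _ (half_pos hcon)
      linarith
    have h2 : 0 < a * b := mul_pos ha hb
    have h3 : (g ⟨p, hp⟩ - g ⟨q, hq⟩) ^ 2 = 0 := by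
      by_contra hcon
      have : 0 < (g ⟨p, hp⟩ - g ⟨q, hq⟩) ^ 2 := lt_of_le_of_ne (sq_nonneg _) (Ne.symm hcon)
      have := mul_pos h2 this
      linarith
    have h4 : g ⟨p, hp⟩ = g ⟨q, hq⟩ := by
      have := pow_eq_zero_iff (two_ne_zero) |>.1 h3
      linarith
    rw [← hgz, hgaff, ← h4, ← add_mul, hab, one_mul]

/-- At almost every point of a boundary measure, a closed-off countable family is good. -/
theorem ae_goodPt {K : Set E} (hK : IsCompact K) (μ : @Measure K (borel K))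
    (hμ : @IsProbabilityMeasure K (borel K) μ)
    (H : C(K, ℝ) → ℕ → Finset C(K, ℝ))
    (hH : ∀ g ∈ affSet K, ∀ j, ∃ hne : (H g j).Nonempty,
      (∀ h ∈ H g j, h ∈ affSet K ∧ ∀ x, g x ^ 2 ≤ h x) ∧
        @integral K ℝ _ _ (borel K) μ (fun x => (H g j).inf' hne (fun h => h x)) ≤
          @integral K ℝ _ _ (borel K) μ (fun x => g x ^ 2) + 1 / (j + 1))
    {S : Set C(K, ℝ)} (hS : S ⊆ affSet K) (hSc : S.Countable) :
    μ {x | ¬ GoodPt K (clOffU H S) x} = 0 := by
  letI : MeasurableSpace K := borel K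
  haveI : BorelSpace K := ⟨rfl⟩
  haveI : CompactSpace K := isCompact_iff_compactSpace.1 hK
  haveI := hμ
  have hT : clOffU H S ⊆ affSet K := by
    refine clOffU_subset H hS fun g hg j h hh => ?_
    obtain ⟨hne, h1, -⟩ := hH g hg j
    exact (h1 h hh).1
  have hcount := clOffU_countable H hSc
  -- the bad sets
  let Bad : C(K, ℝ) → ℕ → Set K := fun g m =>
    {x | ∀ j : ℕ, ∀ h ∈ H g j, g x ^ 2 + 1 / ((m : ℝ) + 1) < h x}
  have hBad : ∀ g ∈ affSet K, ∀ m, μ (Bad g m) = 0 := by
    intro g hg m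
    have hmpos : (0 : ℝ) < 1 / ((m : ℝ) + 1) := by positivity
    -- bound for every j
    have hj : ∀ j : ℕ, μ.real (Bad g m) * (1 / ((m : ℝ) + 1)) ≤ 1 / ((j : ℝ) + 1) := by
      intro j
      obtain ⟨hne, h1, h2⟩ := hH g hg j
      let φ : K → ℝ := fun x => (H g j).inf' hne (fun h => h x) - g x ^ 2
      have hcont1 : Continuous fun x : K => (H g j).inf' hne (fun h => h x) :=
        Continuous.finset_inf'_apply hne fun h _ => h.continuous
      have hcont2 : Continuous fun x : K => g x ^ 2 := by fun_prop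
      have hint1 : Integrable (fun x : K => (H g j).inf' hne (fun h => h x)) μ :=
        hcont1.integrable_of_hasCompactSupport (HasCompactSupport.of_compactSpace _)
      have hint2 : Integrable (fun x : K => g x ^ 2) μ :=
        hcont2.integrable_of_hasCompactSupport (HasCompactSupport.of_compactSpace _)
      have hφint : Integrable φ μ := hint1.sub hint2
      have hφ0 : ∀ x, 0 ≤ φ x := by
        intro x
        simp only [φ, sub_nonneg]
        exact Finset.le_inf' hne _ fun h hh => (h1 h hh).2 x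
      have hφI : ∫ x, φ x ∂μ ≤ 1 / ((j : ℝ) + 1) := by
        have : ∫ x, φ x ∂μ = ∫ x, (H g j).inf' hne (fun h => h x) ∂μ - ∫ x, g x ^ 2 ∂μ :=
          integral_sub hint1 hint2
        rw [this]
        linarith
      have hmark := mul_meas_ge_le_integral_of_nonneg (μ := μ) (f := φ)
        (Eventually.of_forall hφ0) hφint (1 / ((m : ℝ) + 1))
      have hsub : Bad g m ⊆ {x | 1 / ((m : ℝ) + 1) ≤ φ x} := by
        intro x hx
        simp only [φ, mem_ofPred_eq]
        have : g x ^ 2 + 1 / ((m : ℝ) + 1) ≤ (H g j).inf' hne (fun h => h x) :=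
          Finset.le_inf' hne _ fun h hh => (hx j h hh).le
        linarith
      have hle : μ.real (Bad g m) ≤ μ.real {x | 1 / ((m : ℝ) + 1) ≤ φ x} :=
        measureReal_mono hsub
      calc μ.real (Bad g m) * (1 / ((m : ℝ) + 1))
          ≤ μ.real {x | 1 / ((m : ℝ) + 1) ≤ φ x} * (1 / ((m : ℝ) + 1)) := by gcongr
        _ = 1 / ((m : ℝ) + 1) * μ.real {x | 1 / ((m : ℝ) + 1) ≤ φ x} := mul_comm _ _
        _ ≤ ∫ x, φ x ∂μ := hmark
        _ ≤ _ := hφI
    have hlim : Tendsto (fun j : ℕ => 1 / ((j : ℝ) + 1)) atTop (𝓝 0) :=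
      tendsto_one_div_add_atTop_nhds_zero_nat
    have h0 : μ.real (Bad g m) * (1 / ((m : ℝ) + 1)) ≤ 0 := ge_of_tendsto' hlim hj
    have h1 : μ.real (Bad g m) = 0 := by
      have h2 : 0 ≤ μ.real (Bad g m) := measureReal_nonneg
      nlinarith
    exact (measureReal_eq_zero_iff).1 h1
  -- the union of the bad sets
  have hnull : μ (⋃ g ∈ clOffU H S, ⋃ m : ℕ, Bad g m) = 0 := by
    refine (measure_biUnion_null_iff hcount).2 fun g hg => ?_
    rw [measure_iUnion_null_iff]
    exact fun m => hBad g (hT hg) m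
  refine measure_mono_null ?_ hnull
  intro x hx
  simp only [mem_ofPred_eq, GoodPt] at hx
  push Not at hx
  obtain ⟨g, hg, ε, hε, hcon⟩ := hx
  obtain ⟨m, hm⟩ := exists_nat_one_div_lt hε
  refine mem_biUnion hg (mem_iUnion.2 ⟨m, ?_⟩)
  intro j h hh
  obtain ⟨hne, h1, -⟩ := hH g (hT hg) j
  have := hcon h (mem_clOffU_of H S hg hh) (h1 h hh).2
  linarith

/-- **The precaliber limit theorem.** -/
theorem precaliber_limit {K : Set E} (hK : IsCompact K) {θ : Cardinal.{u}} (hθ : θ.IsRegular)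
    (hunc : ℵ₀ < θ) (hprec : IsMeasurePrecaliber θ) {ι : Type u} (hι : #ι = θ)
    (f : ι → ℕ → C(K, ℝ)) (hf : ∀ i n, f i n ∈ affSet K) (M : ℝ) (hM : ∀ i n x, |f i n x| ≤ M)
    (h0 : ∀ b : K, (b : E) ∈ extremePoints ℝ K →
      #{i | ¬ Tendsto (fun n => f i n b) atTop (𝓝 0)} < θ) (x₀ : K) :
    #{i | ¬ Tendsto (fun n => f i n x₀) atTop (𝓝 0)} < θ := by
  classical
  by_contra hcon
  push Not at hcon
  letI : MeasurableSpace K := borel K
  haveI : BorelSpace K := ⟨rfl⟩
  haveI : CompactSpace K := isCompact_iff_compactSpace.1 hK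
  -- a uniform constant
  have hk : ∀ i : {i | ¬ Tendsto (fun n => f i n x₀) atTop (𝓝 0)},
      ∃ k : ℕ, ∃ᶠ n in atTop, 1 / ((k : ℝ) + 1) ≤ |f i n x₀| := by
    rintro ⟨i, hi⟩
    by_contra hcon
    push Not at hcon
    apply hi
    rw [Metric.tendsto_atTop']
    intro ε hε
    obtain ⟨k, hk⟩ := exists_nat_one_div_lt hε
    obtain ⟨N, hN⟩ := eventually_atTop.1 (hcon k)
    refine ⟨N, fun n hn => ?_⟩
    rw [Real.dist_eq, sub_zero]
    exact (hN n hn.le).trans hk
  choose k hk' using hk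
  obtain ⟨⟨k₀⟩, J₁, hJ₁sub, hJ₁card, hJ₁k⟩ := Cardinal.infinite_pigeonhole_set
    (fun i => (⟨k i⟩ : ULift.{u} ℕ)) θ hcon hθ.aleph0_le (by
      rw [hθ.cof_ord]
      simpa using hunc)
  set c : ℝ := 1 / ((k₀ : ℝ) + 1) with hc
  have hcpos : 0 < c := by positivity
  have hfreq : ∀ i ∈ J₁, ∃ᶠ n in atTop, c ≤ |f i n x₀| := by
    intro i hi
    have h1 := hk' ⟨i, hJ₁sub hi⟩
    have h2 : k ⟨i, hJ₁sub hi⟩ = k₀ := congrArg ULift.down (hJ₁k hi)
    rwa [h2] at h1
  have hJ₁ : #J₁ = θ := le_antisymm ((Cardinal.mk_set_le _).trans hι.le) hJ₁card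
  -- the boundary measure
  obtain ⟨μ, hμp, hμr, hbar, hmax⟩ := exists_boundary_measure hK x₀
  haveI : IsProbabilityMeasure μ := hμp
  haveI : μ.Regular := hμr
  have hHex : ∀ (g : C(K, ℝ)) (j : ℕ), ∃ H : Finset C(K, ℝ), g ∈ affSet K →
      ∃ hne : H.Nonempty, (∀ h ∈ H, h ∈ affSet K ∧ ∀ x, g x ^ 2 ≤ h x) ∧
        ∫ x, H.inf' hne (fun h => h x) ∂μ ≤ ∫ x, g x ^ 2 ∂μ + 1 / (j + 1) := by
    intro g j
    by_cases hg : g ∈ affSet K
    · obtain ⟨H, hne, h1, h2⟩ := hmax g hg (1 / (j + 1)) (by positivity)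
      exact ⟨H, fun _ => ⟨hne, h1, h2⟩⟩
    · exact ⟨∅, fun h => absurd h hg⟩
  choose H hH using hHex
  have hH' : ∀ g ∈ affSet K, ∀ j, ∃ hne : (H g j).Nonempty,
      (∀ h ∈ H g j, h ∈ affSet K ∧ ∀ x, g x ^ 2 ≤ h x) ∧
        ∫ x, (H g j).inf' hne (fun h => h x) ∂μ ≤ ∫ x, g x ^ 2 ∂μ + 1 / (j + 1) :=
    fun g hg j => hH g j hg
  let T : ι → Set C(K, ℝ) := fun i => clOffU H (Set.range (f i))
  have hTaff : ∀ i, T i ⊆ affSet K := by
    intro i
    refine clOffU_subset H (by rintro _ ⟨n, rfl⟩; exact hf i n) fun g hg j h hh => ?_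
    obtain ⟨hne, h1, -⟩ := hH' g hg j
    exact (h1 h hh).1
  have hgood : ∀ i, μ {x | ¬ GoodPt K (T i) x} = 0 := fun i =>
    ae_goodPt hK μ hμp H hH' (by rintro _ ⟨n, rfl⟩; exact hf i n) (Set.countable_range _)
  -- the large sets
  let W : ι → ℕ → Set K := fun i m => ⋃ n ≥ m, {x | c / 2 ≤ |f i n x|}
  let V : ι → Set K := fun i => ⋂ m, W i m
  have hWm : ∀ i m, MeasurableSet (W i m) := fun i m =>
    MeasurableSet.biUnion (Set.to_countable _) fun n _ =>
      (isClosed_le continuous_const (by fun_prop)).measurableSet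
  have hVm : ∀ i, MeasurableSet (V i) := fun i => MeasurableSet.iInter fun m => hWm i m
  have hVpos : ∀ i ∈ J₁, μ (V i) ≠ 0 := by
    intro i hi hzero
    have hanti : Antitone (W i) := by
      intro m m' hmm
      exact biUnion_subset_biUnion_left fun n hn => le_trans hmm hn
    have hlim : Tendsto (fun m => μ (W i m)) atTop (𝓝 (μ (⋂ m, W i m))) :=
      tendsto_measure_iInter_atTop (fun m => (hWm i m).nullMeasurableSet) hanti
        ⟨0, measure_ne_top _ _⟩
    change Tendsto (fun m => μ (W i m)) atTop (𝓝 (μ (V i))) at hlim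
    rw [hzero] at hlim
    have hMpos : 0 ≤ M := (abs_nonneg _).trans (hM i 0 x₀)
    have hlim' : Tendsto (fun m => μ.real (W i m)) atTop (𝓝 0) := by
      have := (ENNReal.tendsto_toReal ENNReal.zero_ne_top).comp hlim
      rw [ENNReal.toReal_zero] at this
      exact this
    have hev : ∀ᶠ m in atTop, μ.real (W i m) < c / (2 * (M + 1)) :=
      hlim'.eventually (gt_mem_nhds (by positivity))
    obtain ⟨m, hm⟩ := hev.exists
    obtain ⟨n, hn, hcn⟩ := (frequently_atTop.1 (hfreq i hi)) m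
    have hint : Integrable (fun x : K => |f i n x|) μ :=
      (by fun_prop : Continuous fun x : K => |f i n x|).integrable_of_hasCompactSupport
        (HasCompactSupport.of_compactSpace _)
    have h1 : c ≤ ∫ x, |f i n x| ∂μ := by
      refine hcn.trans ?_
      rw [← hbar (f i n) (hf i n)]
      exact abs_integral_le_integral_abs
    have h2 : ∫ x, |f i n x| ∂μ ≤ ∫ x, ((W i m).indicator (fun _ => M) x + c / 2) ∂μ := by
      refine integral_mono hint (((integrable_const M).indicator (hWm i m)).add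
        (integrable_const _)) fun x => ?_
      by_cases hx : x ∈ W i m
      · simp only [indicator_of_mem hx]
        have := hM i n x
        linarith
      · simp only [indicator_of_notMem hx, zero_add]
        by_contra hcon
        push Not at hcon
        exact hx (mem_biUnion hn hcon.le)
    have h3 : ∫ x, ((W i m).indicator (fun _ => M) x + c / 2) ∂μ = μ.real (W i m) * M + c / 2 := by
      rw [integral_add ((integrable_const M).indicator (hWm i m)) (integrable_const _),
        integral_indicator_const _ (hWm i m), integral_const]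
      simp
    have h4 : μ.real (W i m) * M < c / 2 := by
      have h5 : μ.real (W i m) * (M + 1) < c / 2 := by
        have := mul_lt_mul_of_pos_right hm (show 0 < M + 1 by linarith)
        calc _ < c / (2 * (M + 1)) * (M + 1) := this
          _ = c / 2 := by field_simp
      have : 0 ≤ μ.real (W i m) := measureReal_nonneg
      nlinarith
    linarith
  -- compact subsets of the large sets consisting of good points
  have hQ : ∀ i : J₁, ∃ Q : Set K, IsCompact Q ∧ μ Q ≠ 0 ∧ ∀ x ∈ Q, x ∈ V i ∧ GoodPt K (T i) x := by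
    rintro ⟨i, hi⟩
    set B := toMeasurable μ {x | ¬ GoodPt K (T i) x} with hB
    have hB0 : μ B = 0 := by rw [hB, measure_toMeasurable, hgood i]
    have hm : MeasurableSet (V i \ B) := (hVm i).diff (measurableSet_toMeasurable _ _)
    have hpos : 0 < μ (V i \ B) := by
      rw [measure_sdiff_null hB0]
      exact pos_iff_ne_zero.2 (hVpos i hi)
    obtain ⟨Q, hQs, hQc, hQ0⟩ := hm.exists_lt_isCompact_of_ne_top (measure_ne_top _ _) hpos
    refine ⟨Q, hQc, hQ0.ne', fun x hx => ⟨(hQs hx).1, ?_⟩⟩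
    by_contra hcon
    exact (hQs hx).2 (subset_toMeasurable _ _ hcon)
  choose Q hQc hQ0 hQp using hQ
  -- the precaliber property
  obtain ⟨J, hJcard, hJ⟩ := hprec K μ J₁ Q hJ₁ (fun i => (hQc i).isClosed.measurableSet) hQ0
  have hJinter : (⋂ i : J, Q i.1).Nonempty := by
    by_contra hcon
    rw [not_nonempty_iff_eq_empty] at hcon
    obtain ⟨t, ht⟩ := isCompact_univ.elim_finite_subfamily_closed (fun i : J => Q i.1)
      (fun i => (hQc i.1).isClosed) (by rw [hcon, inter_empty])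
    apply hJ (t.image Subtype.val)
    · intro i hi
      rw [Finset.coe_image] at hi
      obtain ⟨i', -, rfl⟩ := hi
      exact i'.2
    · rw [univ_inter] at ht
      have : (⋂ i ∈ t.image Subtype.val, Q i) = ⋂ i ∈ t, Q i.1 := by
        ext x
        simp
      rw [this, ht, measure_empty]
  obtain ⟨x, hx⟩ := hJinter
  rw [mem_iInter] at hx
  -- the face
  have hface := isExtreme_fibre (K := K) (fun i : J => T i.1) (fun i => hTaff _) (x := x)
    (fun i => (hQp i.1 x (hx i)).2)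
  set F : Set E := (↑) '' {y : K | ∀ i : J, ∀ g ∈ T i.1, g y = g x} with hF
  have hFc : IsCompact F := by
    refine IsCompact.image ?_ continuous_subtype_val
    refine IsClosed.isCompact ?_
    have : {y : K | ∀ i : J, ∀ g ∈ T i.1, g y = g x} =
        ⋂ (i : J) (g : C(K, ℝ)) (_ : g ∈ T i.1), {y | g y = g x} := by
      ext y
      simp only [mem_ofPred_eq, mem_iInter]
    rw [this]
    exact isClosed_iInter fun i => isClosed_iInter fun g => isClosed_iInter fun _ =>
      isClosed_eq g.continuous continuous_const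
  obtain ⟨e, he⟩ := hFc.extremePoints_nonempty ⟨x, x, fun _ _ _ => rfl, rfl⟩
  have heK := hface.extremePoints_subset_extremePoints he
  obtain ⟨e', he', rfl⟩ := he.1
  have hbad := h0 e' heK
  have hsub : (fun i : J₁ => (i : ι)) '' J ⊆ {i | ¬ Tendsto (fun n => f i n e') atTop (𝓝 0)} := by
    rintro _ ⟨i, hi, rfl⟩ hlim
    have h1 : x ∈ V i := (hQp i x (hx ⟨i, hi⟩)).1
    have h2 : ∃ᶠ n in atTop, c / 2 ≤ |f i n e'| := by
      rw [frequently_atTop]
      intro m
      have h3 := mem_iInter.1 h1 m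
      obtain ⟨n, hn, h4⟩ := mem_iUnion₂.1 h3
      refine ⟨n, hn, ?_⟩
      have h5 : f i n e' = f i n x :=
        he' ⟨i, hi⟩ (f i n) (subset_clOffU H _ ⟨n, rfl⟩)
      rw [h5]
      exact h4
    have h6 : ∀ᶠ n in atTop, |f i n e'| < c / 2 := by
      have := hlim.abs
      rw [abs_zero] at this
      exact this.eventually (gt_mem_nhds (half_pos hcpos))
    obtain ⟨n, h7, h8⟩ := (h2.and_eventually h6).exists
    linarith
  have hcard : #((fun i : J₁ => (i : ι)) '' J) = θ := by
    rw [Cardinal.mk_image_eq Subtype.val_injective, hJcard]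
  have := Cardinal.mk_le_mk_of_subset hsub
  rw [hcard] at this
  exact absurd hbad (not_lt.2 this)

end Pool.Agent.Helper50.NW
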