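import Pool.Agent.Helper50.NW.CofOmega
import Pool.Agent.Helper50.NW.Limit
import Pool.Agent.Helper50.NW.Count

/-!
# Upper bounds for the network weight of a convex compactum
-/

set_option autoImplicit false
set_option linter.unusedSectionVars false
set_option linter.style.haveILetI false

namespace Pool.Agent.Helper50.NW

open Set Filter Topology Cardinal MeasureTheory

universe u

variable {E : Type u} [AddCommGroup E] [Module ℝ E] [TopologicalSpace E]
  [IsTopologicalAddGroup E] [ContinuousSMul ℝ E] [LocallyConvexSpace ℝ E] [T2Space E]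

theorem mk_iUnion_nat_lt {θ : Cardinal.{u}} (hθ : θ.IsRegular) (hunc : ℵ₀ < θ) {ι : Type u}
    (B : ℕ → Set ι) (hB : ∀ k, #(B k) < θ) : #(⋃ k, B k) < θ := by
  have h1 : (⋃ k, B k) = ⋃ k : ULift.{u} ℕ, B k.down := by
    ext x
    simp only [mem_iUnion]
    exact ⟨fun ⟨k, hk⟩ => ⟨⟨k⟩, hk⟩, fun ⟨k, hk⟩ => ⟨k.down, hk⟩⟩
  rw [h1]
  refine (Cardinal.mk_iUnion_le_sum_mk).trans_lt ((Cardinal.sum_le_mk_mul_iSup _).trans_lt ?_)
  refine Cardinal.mul_lt_of_lt hθ.aleph0_le (by simpa using hunc) ?_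
  refine Cardinal.iSup_lt_of_lt_cof_ord ?_ fun k => hB k.down
  rw [hθ.cof_ord]
  simpa using hunc

theorem le_two_powerlt (κ : Cardinal.{u}) : κ ≤ 2 ^< κ := by
  by_contra hcon
  push Not at hcon
  exact absurd (Cardinal.le_powerlt 2 hcon) (not_le.2 (Cardinal.cantor _))

/-- **Upper bound from a matrix of approximations.** -/
theorem netWeight_le_of_matrix {K : Set E} (hK : IsCompact K) {θ : Cardinal.{u}}
    (hθ : θ.IsRegular) (hunc : ℵ₀ < θ) (hprec : IsMeasurePrecaliber θ) {ι : Type u} (hι : #ι = θ)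
    {𝒩 : Set (Set E)} (h𝒩 : IsNetworkOn (extremePoints ℝ K) 𝒩)
    (S : ι → ℕ → Set (𝒩 × ℚ × ℚ))
    (hS : ∀ t, #{i | ¬ ∀ᶠ n in atTop, t ∈ S i n} < θ) {B : Cardinal.{u}}
    (hB : ∀ i n, 2 ^ #(S i n) ≤ B) (hθB : θ ≤ B) : netWeight K ≤ B := by
  classical
  haveI : Infinite ι := by
    rw [Cardinal.infinite_iff, hι]
    exact hθ.aleph0_le
  let T : Type u := 𝒩 × ℚ × ℚ
  let tt : T → Set E × ℚ × ℚ := fun t => (t.1.1, t.2)
  let ty : (E →L[ℝ] ℝ) → Set T := fun f => {t | tt t ∈ typ f}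
  let P : ℕ → ι → ℕ → Set T → (E →L[ℝ] ℝ) → Prop := fun m i n A f =>
    (∀ x ∈ K, |f x| ≤ m) ∧ ty f ∩ S i n = A
  let r : ℕ → ι → ℕ → Set T → (E →L[ℝ] ℝ) := fun m i n A =>
    if h : ∃ f, P m i n A f then h.choose else 0
  have hr : ∀ m i n A f, P m i n A f → P m i n A (r m i n A) := by
    intro m i n A f hf
    have h : ∃ f, P m i n A f := ⟨f, hf⟩
    simp only [r, dif_pos h]
    exact h.choose_spec
  -- the separating family
  let D : Type u := Σ p : ULift.{u} (ℕ × ℕ) × ι, 𝒫 (S p.2 p.1.down.2)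
  let d : D → E → ℝ := fun p => r p.1.1.down.1 p.1.2 p.1.1.down.2 p.2.1
  have hB0 : ℵ₀ ≤ B := hθ.aleph0_le.trans hθB
  have hDc : #D ≤ B := by
    have h1 : #D ≤ Cardinal.sum fun _ : ULift.{u} (ℕ × ℕ) × ι => (B : Cardinal.{u}) := by
      rw [Cardinal.mk_sigma]
      refine Cardinal.sum_le_sum _ _ fun p => ?_
      rw [Cardinal.mk_powerset]
      exact hB _ _
    refine h1.trans ?_
    rw [Cardinal.sum_const', ← Cardinal.mul_def, hι]
    have h3 : #(ULift.{u} (ℕ × ℕ)) = ℵ₀ := by simp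
    rw [h3]
    calc ℵ₀ * θ * B ≤ B * B * B := by gcongr
      _ = B := by rw [Cardinal.mul_eq_self hB0, Cardinal.mul_eq_self hB0]
  have hsep : ∀ x ∈ K, ∀ y ∈ K, (∀ i, d i x = d i y) → x = y := by
    intro x hx y hy hxy
    by_contra hne
    obtain ⟨f, hf⟩ := geometric_hahn_banach_point_point hne
    obtain ⟨C, hC⟩ := hK.exists_bound_of_continuousOn (f := fun x => f x) f.continuous.continuousOn
    obtain ⟨m, hm⟩ := exists_nat_ge C
    have hfm : ∀ x ∈ K, |f x| ≤ m := fun z hz => by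
      have := hC z hz
      rw [Real.norm_eq_abs] at this
      exact this.trans hm
    let g : ι → ℕ → E →L[ℝ] ℝ := fun i n => r m i n (ty f ∩ S i n)
    have hg : ∀ i n, P m i n (ty f ∩ S i n) (g i n) := fun i n => hr m i n _ f ⟨hfm, rfl⟩
    -- convergence at the extreme points
    have hconv : ∀ b : K, (b : E) ∈ extremePoints ℝ K →
        #{i | ¬ Tendsto (fun n => resK K (g i n - f) b) atTop (𝓝 0)} < θ := by
      rintro ⟨b, hbK⟩ hb
      -- the triples
      have htr : ∀ k : ℕ, ∃ t : T, t ∈ ty f ∧ b ∈ (t.1 : Set E) ∧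
          (t.2.2 : ℝ) - t.2.1 < 1 / ((k : ℝ) + 1) := by
        intro k
        have hk : (0 : ℝ) < 1 / ((k : ℝ) + 1) := by positivity
        set ε := 1 / ((k : ℝ) + 1)
        obtain ⟨p, hp1, hp2⟩ := exists_rat_btwn (show f b - ε / 2 < f b by linarith)
        obtain ⟨s, hs1, hs2⟩ := exists_rat_btwn (show f b < f b + ε / 2 by linarith)
        obtain ⟨N, hN, hbN, hNU⟩ := h𝒩.2 b hb {x | (p : ℝ) < f x ∧ f x < s}
          ((isOpen_lt continuous_const f.continuous).inter
            (isOpen_lt f.continuous continuous_const)) ⟨hp2, hs1⟩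
        refine ⟨(⟨N, hN⟩, p, s), fun x hx => ⟨(hNU hx).1.le, (hNU hx).2.le⟩, hbN, ?_⟩
        simp only
        linarith
      choose t ht1 ht2 ht3 using htr
      refine lt_of_le_of_lt (Cardinal.mk_le_mk_of_subset ?_)
        (mk_iUnion_nat_lt hθ hunc (fun k => {i | ¬ ∀ᶠ n in atTop, t k ∈ S i n})
          fun k => hS (t k))
      intro i hi
      by_contra hcon
      simp only [mem_iUnion, mem_ofPred_eq, not_exists, not_not] at hcon
      apply hi
      rw [Metric.tendsto_atTop']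
      intro ε hε
      obtain ⟨k, hk⟩ := exists_nat_one_div_lt hε
      obtain ⟨N, hN⟩ := eventually_atTop.1 (hcon k)
      refine ⟨N, fun n hn => ?_⟩
      have h1 : t k ∈ ty f ∩ S i n := ⟨ht1 k, hN n hn.le⟩
      have h2 := ht1 k b (ht2 k)
      rw [← (hg i n).2] at h1
      have h3 := h1.1 b (ht2 k)
      have h4 := ht3 k
      simp only [tt] at h2 h3
      rw [Real.dist_eq, sub_zero, resK_apply]
      simp only [FunLike.coe_sub, Pi.sub_apply]
      rw [abs_lt]
      constructor <;> linarith [h2.1, h2.2, h3.1, h3.2]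
    have hlimit := precaliber_limit hK hθ hunc hprec hι (fun i n => resK K (g i n - f))
      (fun i n => resK_mem K _) (m + m) (by
        rintro i n ⟨z, hz⟩
        simp only [resK_apply, FunLike.coe_sub, Pi.sub_apply]
        exact (abs_sub _ _).trans (add_le_add ((hg i n).1 z hz) (hfm z hz))) hconv
    have hx' := hlimit ⟨x, hx⟩
    have hy' := hlimit ⟨y, hy⟩
    -- a common good index
    obtain ⟨i, hi⟩ : ∃ i, i ∉ {i | ¬ Tendsto (fun n => resK K (g i n - f) ⟨x, hx⟩) atTop (𝓝 0)} ∪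
        {i | ¬ Tendsto (fun n => resK K (g i n - f) ⟨y, hy⟩) atTop (𝓝 0)} := by
      by_contra hcon
      push Not at hcon
      have h1 : #(univ : Set ι) < θ := by
        rw [← eq_univ_of_forall hcon]
        exact (Cardinal.mk_union_le _ _).trans_lt (Cardinal.add_lt_of_lt hθ.aleph0_le hx' hy')
      rw [Cardinal.mk_univ, hι] at h1
      exact lt_irrefl _ h1
    simp only [mem_union, mem_ofPred_eq, not_or, not_not] at hi
    obtain ⟨hi1, hi2⟩ := hi
    have h1 : Tendsto (fun n => g i n x) atTop (𝓝 (f x)) := by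
      have := hi1.add_const (f x)
      simpa using this
    have h2 : Tendsto (fun n => g i n y) atTop (𝓝 (f y)) := by
      have := hi2.add_const (f y)
      simpa using this
    have h3 : (fun n => g i n x) = fun n => g i n y := by
      funext n
      exact hxy ⟨⟨⟨m, n⟩, i⟩, ⟨ty f ∩ S i n, inter_subset_right⟩⟩
    rw [h3] at h1
    exact hf.ne (tendsto_nhds_unique h1 h2)
  refine (netWeight_le_of_separating hK d (fun i => ?_) hsep).trans (sup_le hB0 hDc)
  exact (r _ _ _ _).continuous.continuousOn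

/-- The triples over a network of size at most `κ`. -/
theorem mk_triples_le {κ : Cardinal.{u}} (hκ : ℵ₀ ≤ κ) {𝒩 : Set (Set E)} (h : #𝒩 ≤ κ) :
    #(𝒩 × ℚ × ℚ) ≤ κ := by
  have h1 : #(𝒩 × ℚ × ℚ) = #𝒩 * ℵ₀ := by
    simp [Cardinal.mk_prod]
  rw [h1]
  exact (Cardinal.mul_le_max _ _).trans (sup_le (sup_le h hκ) hκ)

/-- **Upper bound, uncountable cofinality.** -/
theorem netWeight_le_powerlt_of_precaliber {K : Set E} (hK : IsCompact K) {κ : Cardinal.{u}}
    (hcof : ℵ₀ < κ.ord.cof) (hprec : IsMeasurePrecaliber κ.ord.cof)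
    (hE : netWeight (extremePoints ℝ K) ≤ κ) : netWeight K ≤ 2 ^< κ := by
  classical
  have hκ : ℵ₀ < κ := hcof.trans_le (Ordinal.cof_ord_le κ)
  have hreg : (κ.ord.cof).IsRegular := Cardinal.isRegular_cof (Cardinal.isSuccLimit_ord hκ.le)
  obtain ⟨𝒩, h𝒩, h𝒩c⟩ := exists_network (extremePoints ℝ K)
  have hT : #(𝒩 × ℚ × ℚ) ≤ κ := mk_triples_le hκ.le (h𝒩c.trans hE)
  have hα : #κ.ord.ToType = κ := by rw [Cardinal.mk_toType, Cardinal.card_ord]
  obtain ⟨ι⟩ : Nonempty ((𝒩 × ℚ × ℚ) ↪ κ.ord.ToType) := by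
    rw [← Cardinal.le_def, hα]
    exact hT
  obtain ⟨s, hs, hstype⟩ := Ordinal.exists_ord_cof_eq (α := κ.ord.ToType)
  rw [Ordinal.cof_toType] at hstype
  have hscard : #s = κ.ord.cof := by
    have := congrArg Ordinal.card hstype
    rwa [Cardinal.card_ord, Ordinal.card_type] at this
  refine netWeight_le_of_matrix hK hreg hcof hprec hscard h𝒩
    (fun i _ => {t | ι t < (i : κ.ord.ToType)}) ?_ ?_ ?_
  · intro t
    -- an element of `s` above `ι t`
    obtain ⟨b, hb⟩ := exists_not_le_of_lt_cof (α := κ.ord.ToType) (y := {ι t}) (by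
      rw [Ordinal.cof_toType]
      simpa using Cardinal.one_lt_aleph0.trans hcof)
    obtain ⟨c, hcs, hbc⟩ := hs b
    have htc : ι t < c := (hb _ rfl).trans_le hbc
    have h1 := Cardinal.mk_Iio_lt (α := s) ⟨c, hcs⟩ (by rw [hstype, hscard])
    rw [hscard] at h1
    refine lt_of_le_of_lt (Cardinal.mk_le_mk_of_subset ?_) h1
    intro i hi
    by_contra hcon
    apply hi
    refine Eventually.of_forall fun _ => ?_
    have : c ≤ (i : κ.ord.ToType) := by
      have h2 : ¬ (i < (⟨c, hcs⟩ : s)) := hcon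
      exact not_lt.1 h2
    exact htc.trans_le this
  · intro i _
    refine Cardinal.le_powerlt 2 (lt_of_le_of_lt ?_ (mk_Iio_lt_ord (κ := κ) (i : κ.ord.ToType)))
    refine Cardinal.mk_le_of_injective (f := fun t => ⟨ι t.1, t.2⟩) ?_
    intro t t' h
    exact Subtype.ext (ι.injective (congrArg Subtype.val h))
  · exact (Ordinal.cof_ord_le κ).trans (le_two_powerlt κ)

/-- **Upper bound, successors of cardinals of countable cofinality.** -/
theorem netWeight_le_of_succ {K : Set E} (hK : IsCompact K) {l : Cardinal.{u}}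
    (hcof : l.ord.cof = ℵ₀) (hprec : IsMeasurePrecaliber (Order.succ l))
    (hE : netWeight (extremePoints ℝ K) ≤ Order.succ l) :
    netWeight K ≤ Order.succ l ⊔ 2 ^< l := by
  classical
  have hl : ℵ₀ ≤ l := by
    rw [← hcof]
    exact Ordinal.cof_ord_le l
  set κ := Order.succ l with hκdef
  have hreg : κ.IsRegular := Cardinal.isRegular_succ hl
  have hκ : ℵ₀ < κ := Order.lt_succ_of_le hl
  obtain ⟨𝒩, h𝒩, h𝒩c⟩ := exists_network (extremePoints ℝ K)
  have hT : #(𝒩 × ℚ × ℚ) ≤ κ := mk_triples_le hκ.le (h𝒩c.trans hE)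
  have hα : #κ.ord.ToType = κ := by rw [Cardinal.mk_toType, Cardinal.card_ord]
  obtain ⟨ι⟩ : Nonempty ((𝒩 × ℚ × ℚ) ↪ κ.ord.ToType) := by
    rw [← Cardinal.le_def, hα]
    exact hT
  have hSi : ∀ i : κ.ord.ToType, #{t : 𝒩 × ℚ × ℚ | ι t < i} ≤ l := by
    intro i
    refine Order.le_of_lt_succ (lt_of_le_of_lt ?_ (mk_Iio_lt_ord (κ := κ) i))
    refine Cardinal.mk_le_of_injective (f := fun t => ⟨ι t.1, t.2⟩) ?_
    intro t t' h
    exact Subtype.ext (ι.injective (congrArg Subtype.val h))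
  have hdec := fun i : κ.ord.ToType => exists_countable_decomp hcof (hSi i)
  choose S hSm hSu hSc using hdec
  refine netWeight_le_of_matrix hK hreg hκ hprec hα h𝒩
    (fun i n => Subtype.val '' S i n) ?_ ?_ le_sup_left
  · intro t
    obtain ⟨b, hb⟩ := exists_not_le_of_lt_cof (α := κ.ord.ToType) (y := {ι t}) (by
      rw [Ordinal.cof_toType, hreg.cof_ord]
      simpa using Cardinal.one_lt_aleph0.trans hκ)
    have htb : ι t < b := hb _ rfl
    refine lt_of_le_of_lt (Cardinal.mk_le_mk_of_subset ?_) (mk_Iio_lt_ord (κ := κ) b)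
    intro i hi
    by_contra hcon
    apply hi
    have hti : ι t < i := htb.trans_le (not_lt.1 hcon)
    obtain ⟨n₀, hn₀⟩ := hSu i ⟨t, hti⟩
    filter_upwards [eventually_ge_atTop n₀] with n hn
    exact ⟨⟨t, hti⟩, hSm i hn hn₀, rfl⟩
  · intro i n
    rw [Cardinal.mk_image_eq Subtype.val_injective]
    exact (Cardinal.le_powerlt 2 (hSc i n)).trans le_sup_right

end Pool.Agent.Helper50.NW
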