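import Pool.Agent.Helper50.NW.Basic

/-!
# Compact convex sets whose extreme points have network weight of countable cofinality
-/

set_option autoImplicit false
set_option linter.unusedSectionVars false
set_option linter.style.haveILetI false

namespace Pool.Agent.Helper50.NW

open Set Filter Topology Cardinal

universe u

variable {E : Type u} [AddCommGroup E] [Module ℝ E] [TopologicalSpace E]
  [IsTopologicalAddGroup E] [ContinuousSMul ℝ E] [LocallyConvexSpace ℝ E] [T2Space E]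

/-- restriction of a continuous linear functional to `K` -/
def resK (K : Set E) (f : E →L[ℝ] ℝ) : C(K, ℝ) := ⟨fun x => f x, by fun_prop⟩

@[simp] theorem resK_apply (K : Set E) (f : E →L[ℝ] ℝ) (x : K) : resK K f x = f x := rfl

theorem resK_mem (K : Set E) (f : E →L[ℝ] ℝ) : resK K f ∈ affSet K := by
  intro x y z a b _ _ _ hz
  simp [hz]

/-- the type of a functional over a family of triples `(N, r, s)` -/
def typ (f : E →L[ℝ] ℝ) : Set (Set E × ℚ × ℚ) :=
  {t | ∀ x ∈ t.1, (t.2.1 : ℝ) ≤ f x ∧ f x ≤ t.2.2}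

/-- **Sequential approximation.** If the types of `f n` eventually contain every element of the
type of `f` over a network of the extreme points, then `f n → f` pointwise on `K`. -/
theorem tendsto_of_typ {K : Set E} (hK : IsCompact K) {𝒩 : Set (Set E)}
    (h𝒩 : IsNetworkOn (extremePoints ℝ K) 𝒩) (f : E →L[ℝ] ℝ) (g : ℕ → E →L[ℝ] ℝ) (M : ℝ)
    (hfM : ∀ x ∈ K, |f x| ≤ M) (hgM : ∀ n, ∀ x ∈ K, |g n x| ≤ M)
    (h : ∀ t : Set E × ℚ × ℚ, t.1 ∈ 𝒩 → t ∈ typ f → ∀ᶠ n in atTop, t ∈ typ (g n))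
    {x₀ : E} (hx₀ : x₀ ∈ K) : Tendsto (fun n => g n x₀) atTop (𝓝 (f x₀)) := by
  have key : Tendsto (fun n => resK K (g n - f) ⟨x₀, hx₀⟩) atTop (𝓝 0) := by
    refine rainwater hK (fun n => resK K (g n - f)) (fun n => resK_mem K _) (M + M) ?_ ?_ _
    · rintro n ⟨x, hx⟩
      simp only [resK_apply, FunLike.coe_sub, Pi.sub_apply]
      exact (abs_sub _ _).trans (add_le_add (hgM n x hx) (hfM x hx))
    · rintro ⟨b, hbK⟩ hb
      simp only [resK_apply, FunLike.coe_sub, Pi.sub_apply]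
      rw [Metric.tendsto_atTop]
      intro ε hε
      obtain ⟨r, hr1, hr2⟩ := exists_rat_btwn (show f b - ε / 2 < f b by linarith)
      obtain ⟨s, hs1, hs2⟩ := exists_rat_btwn (show f b < f b + ε / 2 by linarith)
      obtain ⟨N, hN, hbN, hNU⟩ := h𝒩.2 b hb {x | (r : ℝ) < f x ∧ f x < s}
        ((isOpen_lt continuous_const f.continuous).inter
          (isOpen_lt f.continuous continuous_const)) ⟨hr2, hs1⟩
      obtain ⟨n₀, hn₀⟩ := eventually_atTop.1 (h (N, r, s) hN
        (fun x hx => ⟨(hNU hx).1.le, (hNU hx).2.le⟩))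
      refine ⟨n₀, fun n hn => ?_⟩
      obtain ⟨h1, h2⟩ := hn₀ n hn b hbN
      simp only at h1 h2
      rw [Real.dist_eq, sub_zero, abs_lt]
      constructor <;> linarith
  have := key.add_const (f x₀)
  simpa using this

theorem netWeight_le_powerlt {K : Set E} (hK : IsCompact K) {κ : Cardinal.{u}}
    (hκ : κ.ord.cof = ℵ₀) (hE : netWeight (extremePoints ℝ K) ≤ κ) :
    netWeight K ≤ 2 ^< κ := by
  classical
  have hinf : ℵ₀ ≤ κ := by
    rw [← hκ]
    exact Ordinal.cof_ord_le κ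
  obtain ⟨𝒩, h𝒩, h𝒩c⟩ := exists_network (extremePoints ℝ K)
  replace h𝒩c := h𝒩c.trans hE
  -- the index set of triples
  let T : Type u := 𝒩 × ℚ × ℚ
  have hT : #T ≤ κ := by
    have h1 : #T = #𝒩 * ℵ₀ := by
      simp [T, Cardinal.mk_prod]
    rw [h1]
    refine (Cardinal.mul_le_max _ _).trans (sup_le (sup_le h𝒩c hinf) hinf)
  obtain ⟨S, hSm, hSu, hSc⟩ := exists_countable_decomp hκ hT
  let tt : T → Set E × ℚ × ℚ := fun t => (t.1.1, t.2)
  let ty : (E →L[ℝ] ℝ) → Set T := fun f => {t | tt t ∈ typ f}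
  -- realizations
  let P : ℕ → ℕ → Set T → (E →L[ℝ] ℝ) → Prop := fun m n A f =>
    (∀ x ∈ K, |f x| ≤ m) ∧ ty f ∩ S n = A
  let r : ℕ → ℕ → Set T → (E →L[ℝ] ℝ) := fun m n A =>
    if h : ∃ f, P m n A f then h.choose else 0
  have hr : ∀ m n A f, P m n A f → P m n A (r m n A) := by
    intro m n A f hf
    have h : ∃ f, P m n A f := ⟨f, hf⟩
    simp only [r, dif_pos h]
    exact h.choose_spec
  -- the separating family
  let D : Type u := Σ p : ULift.{u} (ℕ × ℕ), 𝒫 (S p.down.2)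
  let d : D → E → ℝ := fun p => r p.1.down.1 p.1.down.2 p.2.1
  have hDc : #D ≤ 2 ^< κ := by
    have h2 : ℵ₀ ≤ 2 ^< κ := by
      by_contra hcon
      push Not at hcon
      obtain ⟨n, hn⟩ := Cardinal.lt_aleph0.1 hcon
      have h3 : (2 : Cardinal.{u}) ^ (n : Cardinal.{u}) ≤ 2 ^< κ :=
        Cardinal.le_powerlt 2 ((Cardinal.natCast_lt_aleph0 (n := n)).trans_le hinf)
      rw [hn] at h3
      exact absurd h3 (not_le.2 (Cardinal.cantor _))
    have h1 : #D ≤ Cardinal.sum fun _ : ULift.{u} (ℕ × ℕ) => (2 ^< κ : Cardinal.{u}) := by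
      rw [Cardinal.mk_sigma]
      refine Cardinal.sum_le_sum _ _ fun p => ?_
      rw [Cardinal.mk_powerset]
      exact Cardinal.le_powerlt 2 (hSc _)
    refine h1.trans ?_
    rw [Cardinal.sum_const']
    have h3 : #(ULift.{u} (ℕ × ℕ)) = ℵ₀ := by simp
    rw [h3]
    exact (Cardinal.mul_le_max _ _).trans (sup_le (sup_le h2 le_rfl) h2)
  have hsep : ∀ x ∈ K, ∀ y ∈ K, (∀ i, d i x = d i y) → x = y := by
    intro x hx y hy hxy
    by_contra hne
    obtain ⟨f, hf⟩ := geometric_hahn_banach_point_point hne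
    -- bound of f on K
    obtain ⟨C, hC⟩ := hK.exists_bound_of_continuousOn (f := fun x => f x) f.continuous.continuousOn
    obtain ⟨m, hm⟩ := exists_nat_ge C
    have hfm : ∀ x ∈ K, |f x| ≤ m := fun z hz => by
      have := hC z hz
      rw [Real.norm_eq_abs] at this
      exact this.trans hm
    let g : ℕ → E →L[ℝ] ℝ := fun n => r m n (ty f ∩ S n)
    have hg : ∀ n, P m n (ty f ∩ S n) (g n) := fun n => hr m n _ f ⟨hfm, rfl⟩
    have happ : ∀ z ∈ K, Tendsto (fun n => g n z) atTop (𝓝 (f z)) := by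
      intro z hz
      refine tendsto_of_typ hK h𝒩 f g m hfm (fun n => (hg n).1) ?_ hz
      rintro ⟨N, q⟩ hN ht
      obtain ⟨n₀, hn₀⟩ := hSu (⟨N, hN⟩, q)
      filter_upwards [eventually_ge_atTop n₀] with n hn
      have h1 : ((⟨N, hN⟩, q) : T) ∈ ty f ∩ S n := ⟨ht, hSm hn hn₀⟩
      rw [← (hg n).2] at h1
      exact h1.1
    have h1 := happ x hx
    have h2 := happ y hy
    have h3 : (fun n => g n x) = fun n => g n y := by
      funext n
      exact hxy ⟨⟨m, n⟩, ⟨ty f ∩ S n, inter_subset_right⟩⟩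
    rw [h3] at h1
    exact hf.ne (tendsto_nhds_unique h1 h2)
  have h2 : ℵ₀ ≤ 2 ^< κ := by
    by_contra hcon
    push Not at hcon
    obtain ⟨n, hn⟩ := Cardinal.lt_aleph0.1 hcon
    have h3 : (2 : Cardinal.{u}) ^ (n : Cardinal.{u}) ≤ 2 ^< κ :=
      Cardinal.le_powerlt 2 ((Cardinal.natCast_lt_aleph0 (n := n)).trans_le hinf)
    rw [hn] at h3
    exact absurd h3 (not_le.2 (Cardinal.cantor _))
  refine (netWeight_le_of_separating hK d (fun i => ?_) hsep).trans (sup_le h2 hDc)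
  exact (r _ _ _).continuous.continuousOn

end Pool.Agent.Helper50.NW
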