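import Pool.Agent.Helper50.NW.NonExt2

/-!
# Milman's theorem and the porcupine construction
-/

set_option autoImplicit false
set_option linter.unusedSectionVars false
set_option linter.style.haveILetI false

namespace Pool.Agent.Helper50.NW

open Set Filter Topology

universe u

section Milman

variable {V : Type*} [AddCommGroup V] [Module ℝ V] [TopologicalSpace V]
  [IsTopologicalAddGroup V] [ContinuousSMul ℝ V] [LocallyConvexSpace ℝ V] [T2Space V]

theorem isCompact_convexJoin {D C : Set V} (hD : IsCompact D) (hC : IsCompact C) :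
    IsCompact (convexJoin ℝ D C) := by
  have : convexJoin ℝ D C =
      (fun p : (V × V) × ℝ => (1 - p.2) • p.1.1 + p.2 • p.1.2) '' ((D ×ˢ C) ×ˢ Icc 0 1) := by
    ext x
    rw [mem_convexJoin]
    constructor
    · rintro ⟨a, ha, b, hb, hx⟩
      rw [segment_eq_image] at hx
      obtain ⟨t, ht, rfl⟩ := hx
      exact ⟨((a, b), t), ⟨⟨ha, hb⟩, ht⟩, rfl⟩
    · rintro ⟨⟨⟨a, b⟩, t⟩, ⟨⟨ha, hb⟩, ht⟩, rfl⟩
      refine ⟨a, ha, b, hb, ?_⟩
      rw [segment_eq_image]
      exact ⟨t, ht, rfl⟩
  rw [this]
  exact ((hD.prod hC).prod isCompact_Icc).image (by fun_prop)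

/-- **Milman's theorem**: the extreme points of the closed convex hull of a compact set, if that
hull is compact, lie in the set. -/
theorem milman {L : Set V} (hL : IsCompact L) (hK : IsCompact (closure (convexHull ℝ L))) :
    extremePoints ℝ (closure (convexHull ℝ L)) ⊆ L := by
  classical
  set K := closure (convexHull ℝ L) with hKdef
  have hKc : Convex ℝ K := (convex_convexHull ℝ L).closure
  intro e he
  by_contra heL
  have hsep : ∀ x : V, ∃ (l : V →L[ℝ] ℝ) (t : ℝ), x ∈ L → l x < t ∧ t < l e := by
    intro x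
    by_cases hx : x ∈ L
    · obtain ⟨l, hl⟩ := geometric_hahn_banach_point_point (show x ≠ e from fun h => heL (h ▸ hx))
      obtain ⟨t, ht1, ht2⟩ := exists_between hl
      exact ⟨l, t, fun _ => ⟨ht1, ht2⟩⟩
    · exact ⟨0, 0, fun h => absurd h hx⟩
  choose l t hlt using hsep
  obtain ⟨T, hT⟩ := hL.elim_nhds_subcover' (fun x _ => {y | l x y < t x})
    (fun x hx => (isOpen_lt (l x).continuous continuous_const).mem_nhds (hlt x hx).1)
  let Cx : V → Set V := fun x => K ∩ {y | l x y ≤ t x}
  have hCc : ∀ x, IsCompact (Cx x) := fun x =>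
    hK.inter_right (isClosed_le (l x).continuous continuous_const)
  have hCconv : ∀ x, Convex ℝ (Cx x) := fun x =>
    hKc.inter (convex_halfSpace_le (l x).toLinearMap.isLinear (t x))
  -- build the compact convex set
  have key : ∀ S : Finset L, ∃ D : Set V, IsCompact D ∧ Convex ℝ D ∧ D ⊆ K ∧ e ∉ D ∧
      ∀ x ∈ S, Cx x ⊆ D := by
    intro S
    induction S using Finset.induction_on with
    | empty => exact ⟨∅, isCompact_empty, convex_empty, empty_subset _, notMem_empty _, by simp⟩
    | insert x S hx ih =>
      obtain ⟨D, hDc, hDv, hDK, heD, hDS⟩ := ih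
      have heC : e ∉ Cx x := fun h => absurd h.2 (not_le.2 (hlt x x.2).2)
      rcases D.eq_empty_or_nonempty with hD | hD
      · refine ⟨Cx x, hCc x, hCconv x, inter_subset_left, heC, ?_⟩
        intro y hy
        rcases Finset.mem_insert.1 hy with rfl | hy
        · exact le_rfl
        · have := hDS y hy
          rw [hD] at this
          exact this.trans (empty_subset _)
      · rcases (Cx x).eq_empty_or_nonempty with hC | hC
        · refine ⟨D, hDc, hDv, hDK, heD, ?_⟩
          intro y hy
          rcases Finset.mem_insert.1 hy with rfl | hy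
          · rw [hC]; exact empty_subset _
          · exact hDS y hy
        · refine ⟨convexJoin ℝ D (Cx x), isCompact_convexJoin hDc (hCc x),
            hDv.convexJoin (hCconv x), ?_, ?_, ?_⟩
          · intro z hz
            rw [mem_convexJoin] at hz
            obtain ⟨a, ha, b, hb, hz⟩ := hz
            exact hKc.segment_subset (hDK ha) hb.1 hz
          · intro hz
            rw [mem_convexJoin] at hz
            obtain ⟨a, ha, b, hb, hz⟩ := hz
            rw [mem_extremePoints_iff_forall_segment] at he
            rcases he.2 a (hDK ha) b hb.1 hz with h | h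
            · exact heD (h ▸ ha)
            · exact heC (h ▸ hb)
          · intro y hy
            rcases Finset.mem_insert.1 hy with rfl | hy
            · exact subset_convexJoin_right hD
            · exact (hDS y hy).trans (subset_convexJoin_left hC)
  obtain ⟨D, hDc, hDv, -, heD, hDS⟩ := key T
  have hLD : L ⊆ D := by
    intro y hy
    obtain ⟨x, hx, hyx⟩ := mem_iUnion₂.1 (hT hy)
    have hyx' : l x y < t x := hyx
    exact hDS x hx ⟨subset_closure (subset_convexHull ℝ L hy), hyx'.le⟩
  exact heD (closure_minimal (convexHull_min hLD hDv) hDc.isClosed he.1)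

end Milman

section Porcupine

variable {V : Type u} [AddCommGroup V] [Module ℝ V] [TopologicalSpace V]

/-- The spikes of the porcupine. -/
noncomputable def spike (X : Set V) (p : X × Bool) : V × (X → ℝ) := by
  classical
  exact (p.1, Pi.single p.1 (if p.2 then 1 else -1))

/-- The porcupine over `Z` with spikes at the points of `X`. -/
def porc (Z X : Set V) : Set (V × (X → ℝ)) :=
  ((fun z => (z, 0)) '' Z) ∪ Set.range (spike X)

theorem isCompact_porc {Z X : Set V} (hZ : IsCompact Z) (hX : X ⊆ Z) :
    IsCompact (porc Z X) := by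
  classical
  rw [isCompact_iff_ultrafilter_le_nhds']
  intro 𝒰 h𝒰
  have hfst : ∀ w ∈ porc Z X, w.1 ∈ Z := by
    rintro w (⟨z, hz, rfl⟩ | ⟨p, rfl⟩)
    · exact hz
    · exact hX p.1.2
  obtain ⟨z, hz, hlim⟩ := hZ.ultrafilter_le_nhds' (𝒰.map Prod.fst) (by
    rw [Ultrafilter.mem_map]
    exact Filter.mem_of_superset h𝒰 hfst)
  have hlim' : Tendsto (fun w : V × (X → ℝ) => w.1) 𝒰 (𝓝 z) := hlim
  -- if all second coordinates are eventually zero
  have hzero : (∀ x : X, ∀ᶠ w in (𝒰 : Filter (V × (X → ℝ))), w.2 x = 0) →
      ∃ w ∈ porc Z X, (𝒰 : Filter (V × (X → ℝ))) ≤ 𝓝 w := by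
    intro h
    refine ⟨(z, 0), Or.inl ⟨z, hz, rfl⟩, ?_⟩
    have h2 : Tendsto (fun w : V × (X → ℝ) => w.2) 𝒰 (𝓝 0) := by
      rw [tendsto_pi_nhds]
      intro x
      exact tendsto_const_nhds.congr' ((h x).mono fun w hw => hw.symm)
    have h3 := hlim'.prodMk_nhds h2
    exact h3
  by_cases hcase : ∃ x : X, ∀ᶠ w in (𝒰 : Filter (V × (X → ℝ))), w.2 x ≠ 0
  · obtain ⟨x, hx⟩ := hcase
    have h1 : ∀ᶠ w in (𝒰 : Filter (V × (X → ℝ))), w = spike X (x, true) ∨ w = spike X (x, false) := by
      filter_upwards [hx, h𝒰] with w hw hw'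
      rcases hw' with ⟨z, -, rfl⟩ | ⟨p, rfl⟩
      · exact absurd rfl hw
      · have hpx : p.1 = x := by
          by_contra hne
          apply hw
          simp only [spike]
          rw [Pi.single_apply, if_neg fun h => hne h.symm]
        obtain ⟨y, b⟩ := p
        simp only at hpx
        subst hpx
        cases b
        · exact Or.inr rfl
        · exact Or.inl rfl
    rw [Ultrafilter.eventually_or] at h1
    rcases h1 with h1 | h1
    · refine ⟨_, Or.inr ⟨(x, true), rfl⟩, ?_⟩
      exact le_trans (by
        rw [Filter.le_pure_iff]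
        exact h1) (pure_le_nhds _)
    · refine ⟨_, Or.inr ⟨(x, false), rfl⟩, ?_⟩
      exact le_trans (by
        rw [Filter.le_pure_iff]
        exact h1) (pure_le_nhds _)
  · apply hzero
    push Not at hcase
    exact hcase

variable [IsTopologicalAddGroup V] [ContinuousSMul ℝ V] [LocallyConvexSpace ℝ V] [T2Space V]

/-- The extreme points of the closed convex hull of the porcupine are spikes. -/
theorem extremePoints_porc_subset {Z X : Set V} (hZ : IsCompact Z) (hX : X ⊆ Z)
    (hK : IsCompact (closure (convexHull ℝ (porc Z X))))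
    (hsplit : ∀ z ∈ Z, z ∉ X → IsSplit (closure (convexHull ℝ Z)) z) :
    extremePoints ℝ (closure (convexHull ℝ (porc Z X))) ⊆ Set.range (spike X) := by
  classical
  intro e he
  rcases milman (isCompact_porc hZ hX) hK he with ⟨z, hz, rfl⟩ | h
  · exfalso
    by_cases hzX : z ∈ X
    · -- midpoint of two spikes
      have h1 : spike X (⟨z, hzX⟩, true) ∈ closure (convexHull ℝ (porc Z X)) :=
        subset_closure (subset_convexHull ℝ _ (Or.inr ⟨_, rfl⟩))
      have h2 : spike X (⟨z, hzX⟩, false) ∈ closure (convexHull ℝ (porc Z X)) :=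
        subset_closure (subset_convexHull ℝ _ (Or.inr ⟨_, rfl⟩))
      have h3 : ((z, 0) : V × (X → ℝ)) ∈
          openSegment ℝ (spike X (⟨z, hzX⟩, true)) (spike X (⟨z, hzX⟩, false)) := by
        refine ⟨1 / 2, 1 / 2, by norm_num, by norm_num, by norm_num, ?_⟩
        refine Prod.ext ?_ ?_
        · simp only [spike, Prod.fst_add, Prod.smul_fst]
          rw [← add_smul]
          norm_num
        · funext x
          simp only [spike, Prod.snd_add, Prod.smul_snd, Pi.add_apply, Pi.smul_apply, smul_eq_mul,
            if_true, Pi.zero_apply]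
          by_cases hx : x = ⟨z, hzX⟩
          · subst hx
            simp
          · simp [hx]
      have h4 := he.2 h1 h2 h3
      have h5 := congrArg (fun w : V × (X → ℝ) => w.2 ⟨z, hzX⟩) h4
      simp [spike] at h5
    · obtain ⟨q₁, hq₁, q₂, hq₂, t, ht0, ht1, hz', hne⟩ := hsplit z hz hzX
      have hsub : ∀ q ∈ closure (convexHull ℝ Z),
          ((q, 0) : V × (X → ℝ)) ∈ closure (convexHull ℝ (porc Z X)) := by
        intro q hq
        have hcont : Continuous (fun q : V => ((q, 0) : V × (X → ℝ))) := by fun_prop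
        have h1 : (fun q : V => ((q, 0) : V × (X → ℝ))) '' closure (convexHull ℝ Z) ⊆
            closure ((fun q : V => ((q, 0) : V × (X → ℝ))) '' convexHull ℝ Z) :=
          image_closure_subset_closure_image hcont
        refine closure_mono ?_ (h1 ⟨q, hq, rfl⟩)
        have h2 : (fun q : V => ((q, 0) : V × (X → ℝ))) '' convexHull ℝ Z =
            convexHull ℝ ((fun q : V => ((q, 0) : V × (X → ℝ))) '' Z) := by
          have := (LinearMap.inl ℝ V (X → ℝ)).image_convexHull Z
          exact this
        rw [h2]
        exact convexHull_mono (subset_union_left)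
      have h3 : ((z, 0) : V × (X → ℝ)) ∈ openSegment ℝ ((q₁, 0) : V × (X → ℝ)) (q₂, 0) := by
        refine ⟨t, 1 - t, ht0, by linarith, by ring, ?_⟩
        refine Prod.ext ?_ ?_
        · simpa using hz'.symm
        · simp
      have h4 := he.2 (hsub q₁ hq₁) (hsub q₂ hq₂) h3
      exact hne (congrArg Prod.fst h4)
  · exact h

end Porcupine

end Pool.Agent.Helper50.NW
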