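import Pool.Agent.Helper50.NW.Count
import Pool.Agent.Helper50.NW.Porc

/-!
# The counterexample from a cofinality which is not a measure precaliber
-/

set_option autoImplicit false
set_option linter.unusedSectionVars false
set_option linter.style.haveILetI false

namespace Pool.Agent.Helper50.NW

open Set Filter Topology Cardinal MeasureTheory

universe u

/-- Normal form of a family witnessing the failure of the precaliber property. -/
theorem exists_normal_family {θ : Cardinal.{u}} (hreg : θ.IsRegular) (hunc : ℵ₀ < θ)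
    (h : ¬ IsMeasurePrecaliber θ) :
    ∃ (Ω : Type u) (_ : MeasurableSpace Ω) (μ : Measure Ω) (_ : IsProbabilityMeasure μ)
      (A : θ.ord.ToType → Set Ω) (n : ℕ), (∀ i, MeasurableSet (A i)) ∧
      (∀ i, 1 < coef μ A i) ∧ (∀ i, coef μ A i ≤ n + 1) ∧
      ∀ y ∈ Centered μ A, ∃ b, ∀ x ∈ y, x < b := by
  classical
  rw [IsMeasurePrecaliber] at h
  push Not at h
  obtain ⟨Ω, mΩ, μ, hμ, ι, A, hι, hm, hpos, hno⟩ := h
  have hposr : ∀ i, 0 < μ.real (A i) := fun i => by
    rw [measureReal_def]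
    exact ENNReal.toReal_pos (hpos i) (measure_ne_top _ _)
  haveI : Infinite ι := by
    rw [Cardinal.infinite_iff, hι]
    exact hreg.aleph0_le
  -- events of full measure
  let S₁ : Set ι := {i | μ (A i) = 1}
  have hS₁ : #S₁ < #ι := by
    refine lt_of_le_of_ne (Cardinal.mk_set_le _) fun heq => ?_
    obtain ⟨F, hF, hF0⟩ := hno S₁ (heq.trans hι)
    have : μ (⋂ i ∈ F, A i)ᶜ = 0 := by
      rw [compl_iInter₂]
      refine (measure_biUnion_null_iff F.countable_toSet).2 fun i hi => ?_
      rw [prob_compl_eq_zero_iff (hm i)]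
      exact hF hi
    have h2 : μ (univ : Set Ω) = 0 := by
      rw [← union_compl_self (⋂ i ∈ F, A i)]
      exact measure_union_null hF0 this
    rw [measure_univ] at h2
    exact one_ne_zero h2
  have hcompl : #(S₁ᶜ : Set ι) = #ι := Cardinal.mk_compl_of_infinite _ hS₁
  -- pigeonhole
  have hn : ∀ i : ι, ∃ n : ℕ, (μ.real (A i))⁻¹ ≤ n + 1 := fun i => by
    obtain ⟨n, hn⟩ := exists_nat_ge (μ.real (A i))⁻¹
    exact ⟨n, hn.trans (by linarith)⟩
  choose m hm' using hn
  obtain ⟨⟨n⟩, hfib⟩ := Cardinal.infinite_pigeonhole_card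
    (fun i : (S₁ᶜ : Set ι) => (⟨m i⟩ : ULift.{u} ℕ)) θ (by rw [hcompl, hι]) hreg.aleph0_le (by
      rw [hreg.cof_ord]
      simpa using hunc)
  set T : Set (S₁ᶜ : Set ι) := (fun i : (S₁ᶜ : Set ι) => (⟨m i⟩ : ULift.{u} ℕ)) ⁻¹' {⟨n⟩} with hT
  have hTle : #T = θ := by
    refine le_antisymm ?_ hfib
    rw [← hι, ← hcompl]
    exact Cardinal.mk_set_le _
  obtain ⟨e⟩ : Nonempty (θ.ord.ToType ≃ T) := by
    rw [← Cardinal.eq, Cardinal.mk_toType, Cardinal.card_ord, hTle]
  let idx : θ.ord.ToType → ι := fun i => ((e i : (S₁ᶜ : Set ι)) : ι)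
  have hidx : Function.Injective idx := fun i j hij =>
    e.injective (Subtype.ext (Subtype.ext hij))
  refine ⟨Ω, mΩ, μ, hμ, fun i => A (idx i), n, fun i => hm _, ?_, ?_, ?_⟩
  · intro i
    rw [coef, one_lt_inv₀ (hposr _)]
    have h1 : μ (A (idx i)) ≠ 1 := (e i : (S₁ᶜ : Set ι)).2
    have h2 : μ.real (A (idx i)) ≤ 1 := measureReal_le_one
    refine lt_of_le_of_ne h2 fun h3 => h1 ?_
    rw [measureReal_def, ENNReal.toReal_eq_one_iff] at h3
    exact h3
  · intro i
    have h1 : m (idx i) = n := by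
      have := (e i).2
      exact congrArg ULift.down this
    rw [coef, ← h1]
    exact hm' _
  · intro y hy
    have hylt : #y < θ := by
      refine lt_of_le_of_ne ?_ fun heq => ?_
      · have := Cardinal.mk_set_le y
        rwa [Cardinal.mk_toType, Cardinal.card_ord] at this
      · obtain ⟨F, hF, hF0⟩ := hno (idx '' y) (by
          rw [Cardinal.mk_image_eq hidx, heq])
        -- pull back `F`
        have hpre : ∀ i ∈ F, ∃ j ∈ y, idx j = i := fun i hi => hF hi
        let G : Finset θ.ord.ToType := F.attach.image fun i => (hpre i.1 i.2).choose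
        have hG : (G : Set θ.ord.ToType) ⊆ y := by
          intro j hj
          simp only [G, Finset.coe_image, Finset.coe_attach, image_univ, mem_range] at hj
          obtain ⟨i, rfl⟩ := hj
          exact (hpre i.1 i.2).choose_spec.1
        apply hy G hG
        refine measure_mono_null ?_ hF0
        intro ω hω
        rw [mem_iInter₂] at hω ⊢
        intro i hi
        have h1 := hω (hpre i hi).choose (by
          simp only [G, Finset.mem_image, Finset.mem_attach, true_and]
          exact ⟨⟨i, hi⟩, rfl⟩)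
        have h2 : ω ∈ A (idx (hpre i hi).choose) := h1
        rwa [(hpre i hi).choose_spec.2] at h2
    apply exists_not_le_of_lt_cof
    rw [Ordinal.cof_toType, hreg.cof_ord]
    exact hylt

/-- **The counterexample.** -/
theorem exists_counterexample {κ : Cardinal.{u}} (h2 : 2 ^< κ ≤ κ)
    (hcof : ℵ₀ < κ.ord.cof) (hprec : ¬ IsMeasurePrecaliber κ.ord.cof) :
    ∃ (V : Type u) (_ : AddCommGroup V) (_ : Module ℝ V) (_ : TopologicalSpace V)
      (_ : IsTopologicalAddGroup V) (_ : ContinuousSMul ℝ V) (_ : LocallyConvexSpace ℝ V)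
      (_ : T2Space V) (K : Set V), IsCompact K ∧ Convex ℝ K ∧ K.Nonempty ∧
      netWeight (extremePoints ℝ K) ≤ κ ∧ κ < netWeight K := by
  classical
  have hκ : ℵ₀ < κ := hcof.trans_le (Ordinal.cof_ord_le κ)
  set θ := κ.ord.cof with hθ
  have hreg : θ.IsRegular := by
    refine Cardinal.isRegular_cof ?_
    exact Cardinal.isSuccLimit_ord hκ.le
  obtain ⟨Ω, mΩ, μ, hμ, A, n, hA, hgt, hle, hbdd⟩ := exists_normal_family hreg hcof hprec
  let I := θ.ord.ToType
  let C := κ.ord.ToType
  haveI : Nonempty I := by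
    rw [← Cardinal.mk_ne_zero_iff, Cardinal.mk_toType, Cardinal.card_ord]
    exact hreg.ne_zero
  have hCcard : #C = κ := by rw [Cardinal.mk_toType, Cardinal.card_ord]
  have hIcard : #I = θ := by rw [Cardinal.mk_toType, Cardinal.card_ord]
  haveI : Nonempty C := by
    rw [← Cardinal.mk_ne_zero_iff, hCcard]
    exact (Cardinal.aleph0_pos.trans hκ).ne'
  haveI : Nontrivial C := by
    rw [← Cardinal.one_lt_iff_nontrivial, hCcard]
    exact Cardinal.one_lt_aleph0.trans hκ
  have hC2 : ∀ x : C, ∃ y, y ≠ x := fun x => exists_ne x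
  -- the parameter lam
  let lam : ℝ := (n + 1) / (n + 2)
  have h0 : 0 < lam := by positivity
  have h1 : lam < 1 := by
    simp only [lam]
    rw [div_lt_one (by positivity)]
    linarith
  have ha1 : ∀ b, 1 < coef μ A b := hgt
  have ha : ∀ b, (1 - lam) * coef μ A b ≤ lam := by
    intro b
    have e1 : 1 - lam = 1 / (n + 2) := by
      simp only [lam]
      field_simp
      ring
    rw [e1]
    have e2 : (0 : ℝ) < n + 2 := by positivity
    have := hle b
    calc 1 / ((n : ℝ) + 2) * coef μ A b ≤ 1 / ((n : ℝ) + 2) * (n + 1) := by gcongr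
      _ = lam := by simp only [lam]; ring
  have hunb : ∀ b : ℕ → I, ∃ b', ∀ n, b n < b' := by
    intro b
    obtain ⟨b', hb'⟩ := exists_not_le_of_lt_cof (α := I) (y := Set.range b) (by
      rw [Ordinal.cof_toType, hreg.cof_ord]
      exact (Cardinal.mk_le_aleph0_iff.2 (Set.countable_range b)).trans_lt hcof)
    exact ⟨b', fun n => hb' _ ⟨n, rfl⟩⟩
  let Cen := Centered μ A
  let Z : Set ((I → C) → ℝ) := Zset lam (coef μ A) Cen C
  let X : Set ((I → C) → ℝ) := NodeSet lam (coef μ A) Cen C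
  have hZc : IsCompact Z := isCompact_Zset h0 h1 (fun b => (ha1 b).le) ha
    (centered_of_finset μ A) (centered_finset μ A)
  have hXZ : X ⊆ Z := fun z hz => hz.1
  have hXcard : #X ≤ κ := by
    refine mk_nodeSet_le hκ h2 Cen ?_ ?_ rfl
    · rw [hIcard]
      exact Ordinal.cof_ord_le κ
    · intro b
      exact mk_Iio_lt_ord b
  let K : Set (((I → C) → ℝ) × (X → ℝ)) := closure (convexHull ℝ (porc Z X))
  -- compactness
  have hKc : IsCompact K := by
    have hQ : IsCompact ((Set.univ.pi fun _ : I → C => Icc (-1 : ℝ) 1) ×ˢ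
        (Set.univ.pi fun _ : X => Icc (-1 : ℝ) 1)) :=
      (isCompact_univ_pi fun _ => isCompact_Icc).prod (isCompact_univ_pi fun _ => isCompact_Icc)
    have hQv : Convex ℝ ((Set.univ.pi fun _ : I → C => Icc (-1 : ℝ) 1) ×ˢ
        (Set.univ.pi fun _ : X => Icc (-1 : ℝ) 1)) :=
      (convex_pi fun _ _ => convex_Icc _ _).prod (convex_pi fun _ _ => convex_Icc _ _)
    have hZ1 : ∀ z ∈ Z, z ∈ (Set.univ.pi fun _ : I → C => Icc (-1 : ℝ) 1) := by
      rintro z ⟨p, hp, rfl⟩ g -
      exact abs_le.1 (abs_zf_le_one h0 h1 (fun b => (ha1 b).le) ha hp g)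
    have hsub : porc Z X ⊆ (Set.univ.pi fun _ : I → C => Icc (-1 : ℝ) 1) ×ˢ
        (Set.univ.pi fun _ : X => Icc (-1 : ℝ) 1) := by
      rintro w (⟨z, hz, rfl⟩ | ⟨⟨x, b⟩, rfl⟩)
      · refine ⟨hZ1 z hz, fun x _ => ?_⟩
        simp
      · refine ⟨hZ1 _ (hXZ x.2), fun y _ => ?_⟩
        simp only [spike, Pi.single_apply]
        by_cases hy : y = x
        · rw [if_pos hy]
          cases b <;> simp
        · rw [if_neg hy]
          simp
    exact hQ.of_isClosed_subset isClosed_closure
      (closure_minimal (convexHull_min hsub hQv) hQ.isClosed)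
  refine ⟨((I → C) → ℝ) × (X → ℝ), inferInstance, inferInstance, inferInstance, inferInstance,
    inferInstance, inferInstance, inferInstance, K, hKc, (convex_convexHull ℝ _).closure, ?_, ?_, ?_⟩
  · -- nonempty
    let s₀ : Hist I := ⟨fun _ => univ, fun _ => 1, fun _ => ∅⟩
    have hs₀ : s₀.Valid Cen := ⟨fun _ => isLowerSet_univ, fun _ => le_rfl, fun _ => empty_subset _,
      fun _ => empty_mem_centered, fun _ => Or.inl rfl⟩
    have hp₀ : (⟨fun _ => Classical.arbitrary C, univ, s₀, 1⟩ : Par I C).Valid lam Cen :=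
      ⟨isLowerSet_univ, hs₀, by simp, fun m ⟨b, _, hb⟩ => absurd (mem_univ b) hb⟩
    exact ⟨_, subset_closure (subset_convexHull ℝ _ (Or.inl ⟨_, ⟨_, hp₀, rfl⟩, rfl⟩))⟩
  · -- extreme points
    have hext : extremePoints ℝ K ⊆ Set.range (spike X) := by
      refine extremePoints_porc_subset hZc hXZ hKc ?_
      rintro z ⟨p, hp, rfl⟩ hzX
      rcases node_or_split h0 h1 ha1 ha hA hC2 hunb hbdd hp with ⟨f, b', s, c, h⟩ | h
      · exact absurd ⟨⟨p, hp, rfl⟩, f, b', s, c, h⟩ hzX
      · exact h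
    refine (netWeight_le_of_network (isNetworkOn_singletons _)).trans (sup_le hκ.le ?_)
    refine Cardinal.mk_image_le.trans ((Cardinal.mk_le_mk_of_subset hext).trans ?_)
    refine Cardinal.mk_range_le.trans ?_
    rw [Cardinal.mk_prod]
    have e1 : Cardinal.lift.{u} #Bool = 2 := by simp
    rw [e1, Cardinal.lift_uzero]
    calc #X * 2 ≤ κ * κ := by
          gcongr
          exact ((Cardinal.natCast_lt_aleph0 (n := 2)).trans hκ).le
      _ = κ := Cardinal.mul_eq_self hκ.le
  · -- the discrete set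
    by_contra hcon
    push Not at hcon
    obtain ⟨𝒩, h𝒩, h𝒩c⟩ := exists_network K
    replace h𝒩c := h𝒩c.trans hcon
    let s₀ : Hist I := ⟨fun _ => univ, fun _ => 1, fun _ => ∅⟩
    have hs₀ : s₀.Valid Cen := ⟨fun _ => isLowerSet_univ, fun _ => le_rfl, fun _ => empty_subset _,
      fun _ => empty_mem_centered, fun _ => Or.inl rfl⟩
    let p : (I → C) → Par I C := fun f => ⟨f, univ, s₀, 1⟩
    have hp : ∀ f, (p f).Valid lam Cen := fun f =>
      ⟨isLowerSet_univ, hs₀, by simp [p], fun m ⟨b, _, hb⟩ => absurd (mem_univ b) hb⟩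
    let z : (I → C) → (((I → C) → ℝ) × (X → ℝ)) := fun f => (zf lam (coef μ A) (p f), 0)
    have hzK : ∀ f, z f ∈ K := fun f =>
      subset_closure (subset_convexHull ℝ _ (Or.inl ⟨_, ⟨_, hp f, rfl⟩, rfl⟩))
    have hzv : ∀ f g, f ≠ g → (z f).1 g = 0 := by
      intro f g hfg
      have hne : ¬ ∀ b ∈ (univ : Set I), f b = g b :=
        fun h => hfg (funext fun b => h b (mem_univ b))
      change zf lam (coef μ A) ⟨f, univ, s₀, 1⟩ g = 0
      rw [zf_of_ne (p := ⟨f, univ, s₀, 1⟩) hne, hw]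
      have : ∀ i, hterm lam (coef μ A) s₀ (diff f g) i = 0 := fun i =>
        hterm_of_mem (mem_univ _)
      simp [this]
    have hzf : ∀ f, (z f).1 f = 1 := fun f => by
      change zf lam (coef μ A) ⟨f, univ, s₀, 1⟩ f = 1
      rw [zf_of_eq (by simp)]
    have hN : ∀ f, ∃ N ∈ 𝒩, z f ∈ N ∧ N ⊆ {w | (1 / 2 : ℝ) < w.1 f} := fun f =>
      h𝒩.2 (z f) (hzK f) _ (isOpen_lt continuous_const (by fun_prop)) (by
        simp only [mem_ofPred_eq]
        rw [hzf]
        norm_num)
    choose N hN𝒩 hzN hNs using hN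
    have hinj : Function.Injective (fun f => (⟨N f, hN𝒩 f⟩ : 𝒩)) := by
      intro f g hfg
      have hfg' : N f = N g := congrArg Subtype.val hfg
      by_contra hne
      have h3 : z f ∈ N g := hfg' ▸ hzN f
      have h4 := hNs g h3
      simp only [mem_ofPred_eq] at h4
      rw [hzv f g hne] at h4
      linarith
    have hcard : #(I → C) ≤ κ := (Cardinal.mk_le_of_injective hinj).trans h𝒩c
    have hcard' : #(I → C) = κ ^ θ := by
      rw [← Cardinal.power_def, hCcard, hIcard]
    rw [hcard'] at hcard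
    exact absurd hcard (not_le.2 (Cardinal.lt_power_cof_ord hκ.le))

end Pool.Agent.Helper50.NW
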