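import Pool.Agent.Helper50.NW.Bound
import Pool.Agent.Helper50.NW.Counter
import Pool.Agent.Helper63.NW.Cube
import Pool.Agent.Helper78.NW.P1

/-!
# The characterization
-/

set_option autoImplicit false
set_option linter.unusedSectionVars false
set_option linter.style.haveILetI false

namespace Pool.Agent.Helper50.NW

open Set Filter Topology Cardinal MeasureTheory

universe u

/-- For every regular cardinal there is a strong limit cardinal of that cofinality. -/
theorem exists_strongLimit_cof {θ : Cardinal.{u}} (hθ : θ.IsRegular) :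
    ∃ κ : Cardinal.{u}, κ.IsStrongLimit ∧ κ.ord.cof = θ := by
  have hlim : Order.IsSuccLimit θ.ord := Cardinal.isSuccLimit_ord hθ.aleph0_le
  refine ⟨beth θ.ord, isStrongLimit_beth.2 hlim.isSuccPrelimit, ?_⟩
  have h1 : Order.IsNormal (fun o : Ordinal.{u} => (beth o).ord) :=
    Cardinal.isNormal_ord.comp isNormal_beth
  have h2 := Ordinal.cof_map_of_isNormal h1 hlim
  rw [hθ.cof_ord] at h2
  exact h2

/-- The counterexample with network weight of the extreme points exactly `κ`. -/
theorem exists_counterexample_eq {κ : Cardinal.{u}} (h2 : 2 ^< κ ≤ κ)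
    (hcof : ℵ₀ < κ.ord.cof) (hprec : ¬ IsMeasurePrecaliber κ.ord.cof) :
    ∃ (V : Type u) (_ : AddCommGroup V) (_ : Module ℝ V) (_ : TopologicalSpace V)
      (_ : IsTopologicalAddGroup V) (_ : ContinuousSMul ℝ V) (_ : LocallyConvexSpace ℝ V)
      (_ : T2Space V) (K : Set V), IsCompact K ∧ Convex ℝ K ∧
      netWeight (extremePoints ℝ K) = κ ∧ κ < netWeight K := by
  have hκ : ℵ₀ ≤ κ := hcof.le.trans (Ordinal.cof_ord_le κ)
  obtain ⟨V, i1, i2, i3, i4, i5, i6, i7, K, hK, hKc, hKne, h3, h4⟩ :=
    exists_counterexample h2 hcof hprec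
  have hι : #κ.out = κ := Cardinal.mk_out κ
  obtain ⟨h5, h6⟩ := cube_trick hK hKne hκ h3 κ.out hι
  refine ⟨V × (κ.out → ℝ), inferInstance, inferInstance, inferInstance, inferInstance,
    inferInstance, inferInstance, inferInstance,
    K ×ˢ (Set.univ.pi fun _ : κ.out => Set.Icc (0 : ℝ) 1), ?_, ?_, h5, h4.trans_le h6⟩
  · exact hK.prod (isCompact_univ_pi fun _ => isCompact_Icc)
  · exact hKc.prod (convex_pi fun _ _ => convex_Icc _ _)

end Pool.Agent.Helper50.NW
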