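import Mathlib

/-!
# Histories

A history is a sequence of triples `(L i, e i, y i)`, where `L i` is an increasing sequence of lower
sets of a well-ordered set `I`, `e i` is a sign and `y i` a subset of `L (i+1)` from a family `Cen`
of subsets of `I` (of finite character). It determines the function `hw` on `I` and the sequence of
values `hv`.
-/

set_option autoImplicit false
set_option linter.unusedSectionVars false
set_option linter.style.haveILetI false

namespace Pool.Agent.Helper50.NW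

open Set Filter Topology

universe u

variable {I : Type u} [LinearOrder I]

/-- A history: lower sets, signs, centered sets. -/
structure Hist (I : Type u) where
  /-- the lower sets -/
  L : ℕ → Set I
  /-- the signs -/
  e : ℕ → ℝ
  /-- the centered sets -/
  y : ℕ → Set I

/-- Validity of a history with respect to the family `Cen`. -/
structure Hist.Valid (Cen : Set (Set I)) (s : Hist I) : Prop where
  lower : ∀ i, IsLowerSet (s.L i)
  mono : ∀ i, s.L i ⊆ s.L (i + 1)
  ysub : ∀ i, s.y i ⊆ s.L (i + 1)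
  cen : ∀ i, s.y i ∈ Cen
  sign : ∀ i, s.e i = 1 ∨ s.e i = -1

/-- `v n = ∑_{i<n} (1-λ) λ^i e_i` -/
noncomputable def hv (lam : ℝ) (s : Hist I) (n : ℕ) : ℝ :=
  ∑ i ∈ Finset.range n, (1 - lam) * lam ^ i * s.e i

open Classical in
/-- the terms of the series defining `hw` -/
noncomputable def hterm (lam : ℝ) (a : I → ℝ) (s : Hist I) (b : I) (i : ℕ) : ℝ :=
  if b ∈ s.L i then 0 else (1 - lam) * lam ^ i * s.e i * (1 - if b ∈ s.y i then a b else 0)

/-- the value `w_b` of a history -/
noncomputable def hw (lam : ℝ) (a : I → ℝ) (s : Hist I) (b : I) : ℝ := ∑' i, hterm lam a s b i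

variable {lam : ℝ} {a : I → ℝ} {Cen : Set (Set I)}

theorem Hist.Valid.mono' {s : Hist I} (hs : s.Valid Cen) {i j : ℕ} (h : i ≤ j) :
    s.L i ⊆ s.L j := monotone_nat_of_le_succ hs.mono h

theorem Hist.Valid.abs_e {s : Hist I} (hs : s.Valid Cen) (i : ℕ) : |s.e i| = 1 := by
  rcases hs.sign i with h | h <;> simp [h]

theorem hterm_of_mem {s : Hist I} {b : I} {i : ℕ} (h : b ∈ s.L i) : hterm lam a s b i = 0 := by
  simp [hterm, h]

theorem hterm_of_notMem {s : Hist I} {b : I} {i : ℕ} (h : b ∉ s.L i) (h' : b ∉ s.y i) :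
    hterm lam a s b i = (1 - lam) * lam ^ i * s.e i := by
  simp [hterm, h, h']

theorem hterm_of_mem_y {s : Hist I} {b : I} {i : ℕ} (h : b ∉ s.L i) (h' : b ∈ s.y i) :
    hterm lam a s b i = (1 - lam) * lam ^ i * s.e i * (1 - a b) := by
  simp [hterm, h, h']

section Bounds

variable (h0 : 0 < lam) (h1 : lam < 1) (ha1 : ∀ b, 1 ≤ a b) (ha : ∀ b, (1 - lam) * a b ≤ lam)

include h0 h1 ha1 ha

theorem abs_hterm_le {s : Hist I} (hs : s.Valid Cen) (b : I) (i : ℕ) :
    |hterm lam a s b i| ≤ lam ^ i := by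
  have hl : 0 < lam ^ i := by positivity
  by_cases hb : b ∈ s.L i
  · rw [hterm_of_mem hb, abs_zero]; exact hl.le
  · by_cases hy : b ∈ s.y i
    · rw [hterm_of_mem_y hb hy, abs_mul, abs_mul, hs.abs_e, mul_one,
        abs_of_pos (mul_pos (sub_pos.2 h1) hl), abs_sub_comm, abs_of_nonneg (sub_nonneg.2 (ha1 b))]
      have := ha b
      have h2 : (1 - lam) * (a b - 1) ≤ 1 := by nlinarith [ha1 b]
      calc (1 - lam) * lam ^ i * (a b - 1) = ((1 - lam) * (a b - 1)) * lam ^ i := by ring
        _ ≤ 1 * lam ^ i := by gcongr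
        _ = lam ^ i := one_mul _
    · rw [hterm_of_notMem hb hy, abs_mul, hs.abs_e, mul_one,
        abs_of_pos (mul_pos (sub_pos.2 h1) hl)]
      nlinarith

theorem summable_hterm {s : Hist I} (hs : s.Valid Cen) (b : I) :
    Summable (hterm lam a s b) := by
  refine Summable.of_norm_bounded (g := fun i => lam ^ i)
    (summable_geometric_of_lt_one h0.le h1) fun i => ?_
  rw [Real.norm_eq_abs]
  exact abs_hterm_le h0 h1 ha1 ha hs b i

omit ha1 ha in
theorem abs_hv_sub_le {s : Hist I} (hs : s.Valid Cen) {n m : ℕ} (h : n ≤ m) :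
    |hv lam s m - hv lam s n| ≤ lam ^ n - lam ^ m := by
  induction m, h using Nat.le_induction with
  | base => simp
  | succ m hm ih =>
    have e1 : hv lam s (m + 1) = hv lam s m + (1 - lam) * lam ^ m * s.e m := by
      simp [hv, Finset.sum_range_succ]
    have e2 : |(1 - lam) * lam ^ m * s.e m| = (1 - lam) * lam ^ m := by
      rw [abs_mul, hs.abs_e, mul_one, abs_of_pos (mul_pos (sub_pos.2 h1) (by positivity))]
    calc |hv lam s (m + 1) - hv lam s n|
        = |(hv lam s m - hv lam s n) + (1 - lam) * lam ^ m * s.e m| := by rw [e1]; ring_nf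
      _ ≤ |hv lam s m - hv lam s n| + |(1 - lam) * lam ^ m * s.e m| := abs_add_le _ _
      _ ≤ (lam ^ n - lam ^ m) + (1 - lam) * lam ^ m := by rw [e2]; gcongr
      _ = lam ^ n - lam ^ (m + 1) := by rw [pow_succ]; ring

omit h0 h1 ha1 ha in
/-- if `b` enters at stage `k` in `y k`, the value -/
theorem hw_of_mem_y {s : Hist I} (hs : s.Valid Cen) {b : I} {k : ℕ} (hb : b ∉ s.L k)
    (hy : b ∈ s.y k) :
    hw lam a s b = hv lam s (k + 1) - (1 - lam) * lam ^ k * s.e k * a b := by
  have hz : ∀ i, i ∉ Finset.range (k + 1) → hterm lam a s b i = 0 := by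
    intro i hi
    rw [Finset.mem_range, not_lt] at hi
    exact hterm_of_mem (hs.mono' hi (hs.ysub k hy))
  rw [hw, tsum_eq_sum hz, Finset.sum_range_succ, hterm_of_mem_y hb hy]
  have : ∑ i ∈ Finset.range k, hterm lam a s b i = hv lam s k := by
    refine Finset.sum_congr rfl fun i hi => ?_
    rw [Finset.mem_range] at hi
    have h2 : b ∉ s.L (i + 1) := fun h => hb (hs.mono' hi h)
    exact hterm_of_notMem (fun h => hb (hs.mono' hi.le h)) (fun h => h2 (hs.ysub i h))
  rw [this]
  have e1 : hv lam s (k + 1) = hv lam s k + (1 - lam) * lam ^ k * s.e k := by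
    simp [hv, Finset.sum_range_succ]
  rw [e1]
  ring

/-- The main estimate: if `b` is not in `L i` for `i < n` then `w_b` is within `λ^n` of `v n`. -/
theorem abs_hw_sub_le {s : Hist I} (hs : s.Valid Cen) {b : I} {n : ℕ}
    (hb : ∀ i < n, b ∉ s.L i) : |hw lam a s b - hv lam s n| ≤ lam ^ n := by
  by_cases hP : ∃ k, b ∉ s.L k ∧ b ∈ s.y k
  · obtain ⟨k, hk1, hk2⟩ := hP
    have hnk : n ≤ k + 1 := by
      by_contra hcon
      push Not at hcon
      exact hb (k + 1) hcon (hs.ysub k hk2)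
    have e1 := hw_of_mem_y (lam := lam) (a := a) hs hk1 hk2
    have e2 : |hw lam a s b - hv lam s (k + 1)| ≤ lam ^ (k + 1) := by
      have : hw lam a s b - hv lam s (k + 1) = -((1 - lam) * lam ^ k * s.e k * a b) := by
        rw [e1]; ring
      rw [this, abs_neg, abs_mul, abs_mul, hs.abs_e, mul_one,
        abs_of_pos (mul_pos (sub_pos.2 h1) (by positivity)),
        abs_of_nonneg (by linarith [ha1 b])]
      calc (1 - lam) * lam ^ k * a b = ((1 - lam) * a b) * lam ^ k := by ring
        _ ≤ lam * lam ^ k := by gcongr; exact ha b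
        _ = lam ^ (k + 1) := by rw [pow_succ]; ring
    have e3 := abs_hv_sub_le h0 h1 hs hnk
    calc |hw lam a s b - hv lam s n|
        = |(hw lam a s b - hv lam s (k + 1)) + (hv lam s (k + 1) - hv lam s n)| := by ring_nf
      _ ≤ _ := abs_add_le _ _
      _ ≤ lam ^ (k + 1) + (lam ^ n - lam ^ (k + 1)) := add_le_add e2 e3
      _ = lam ^ n := by ring
  · push Not at hP
    have hs1 := summable_hterm h0 h1 ha1 ha hs b
    have e1 : hw lam a s b = ∑ i ∈ Finset.range n, hterm lam a s b i +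
        ∑' i, hterm lam a s b (i + n) := (hs1.sum_add_tsum_nat_add n).symm
    have e2 : ∑ i ∈ Finset.range n, hterm lam a s b i = hv lam s n := by
      refine Finset.sum_congr rfl fun i hi => ?_
      rw [Finset.mem_range] at hi
      exact hterm_of_notMem (hb i hi) (hP i (hb i hi))
    rw [e1, e2, add_sub_cancel_left]
    have hbd : ∀ i, ‖hterm lam a s b (i + n)‖ ≤ (1 - lam) * lam ^ n * lam ^ i := by
      intro i
      rw [Real.norm_eq_abs]
      have hpos : 0 < (1 - lam) * lam ^ n * lam ^ i :=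
        mul_pos (mul_pos (sub_pos.2 h1) (by positivity)) (by positivity)
      by_cases hb' : b ∈ s.L (i + n)
      · rw [hterm_of_mem hb', abs_zero]
        exact hpos.le
      · rw [hterm_of_notMem hb' (hP _ hb'), abs_mul, hs.abs_e, mul_one,
          abs_of_pos (mul_pos (sub_pos.2 h1) (by positivity)), pow_add]
        exact le_of_eq (by ring)
    have hsum : HasSum (fun i => (1 - lam) * lam ^ n * lam ^ i) (lam ^ n) := by
      have h2 := (hasSum_geometric_of_lt_one h0.le h1).mul_left ((1 - lam) * lam ^ n)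
      have h3 : 1 - lam ≠ 0 := (sub_pos.2 h1).ne'
      have h4 : (1 - lam) * lam ^ n * (1 - lam)⁻¹ = lam ^ n := by
        rw [mul_right_comm, mul_inv_cancel₀ h3, one_mul]
      rwa [h4] at h2
    have := tsum_of_norm_bounded hsum hbd
    rwa [Real.norm_eq_abs] at this

theorem abs_hw_le_one {s : Hist I} (hs : s.Valid Cen) (b : I) : |hw lam a s b| ≤ 1 := by
  have := abs_hw_sub_le h0 h1 ha1 ha hs (b := b) (n := 0) (by simp)
  simpa [hv] using this

end Bounds

/-- `w_b` when `b` enters exactly at stage `n`. -/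
theorem hw_eq_hv {s : Hist I} (hs : s.Valid Cen) {b : I} {n : ℕ} (hb : ∀ i < n, b ∉ s.L i)
    (hy : ∀ i < n, b ∉ s.y i) (hn : b ∈ s.L n) : hw lam a s b = hv lam s n := by
  have hz : ∀ i, i ∉ Finset.range n → hterm lam a s b i = 0 := by
    intro i hi
    rw [Finset.mem_range, not_lt] at hi
    exact hterm_of_mem (hs.mono' hi hn)
  rw [hw, tsum_eq_sum hz]
  refine Finset.sum_congr rfl fun i hi => ?_
  rw [Finset.mem_range] at hi
  exact hterm_of_notMem (hb i hi) (hy i hi)

section Ultra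

variable {P : Type*} (𝒰 : Ultrafilter P)

open Classical in
/-- Ultrafilter limit of histories. -/
noncomputable def Hist.lim (s : P → Hist I) : Hist I where
  L := fun i => {b | ∀ᶠ j in (𝒰 : Filter P), b ∈ (s j).L i}
  e := fun i => if ∀ᶠ j in (𝒰 : Filter P), (s j).e i = 1 then 1 else -1
  y := fun i => {b | ∀ᶠ j in (𝒰 : Filter P), b ∈ (s j).y i}

variable (hCen : ∀ y : Set I, (∀ F : Finset I, (F : Set I) ⊆ y → (F : Set I) ∈ Cen) → y ∈ Cen)
  (hCen' : ∀ y ∈ Cen, ∀ F : Finset I, (F : Set I) ⊆ y → (F : Set I) ∈ Cen)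

include hCen hCen' in
theorem Hist.lim_valid {s : P → Hist I} (hs : ∀ j, (s j).Valid Cen) :
    (Hist.lim 𝒰 s).Valid Cen := by
  refine ⟨?_, ?_, ?_, ?_, ?_⟩
  · intro i b b' hbb hb
    exact hb.mono fun j hj => (hs j).lower i hbb hj
  · intro i b hb
    exact hb.mono fun j hj => (hs j).mono i hj
  · intro i b hb
    exact hb.mono fun j hj => (hs j).ysub i hj
  · intro i
    apply hCen
    intro F hF
    have : ∀ᶠ j in (𝒰 : Filter P), ∀ b ∈ F, b ∈ (s j).y i := by
      rw [Filter.eventually_all_finset]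
      exact fun b hb => hF hb
    obtain ⟨j, hj⟩ := this.exists
    exact hCen' _ ((hs j).cen i) F fun b hb => hj b hb
  · intro i
    simp only [Hist.lim]
    split_ifs <;> simp

theorem Hist.lim_e_eventually {s : P → Hist I} (hs : ∀ j, (s j).Valid Cen) (i : ℕ) :
    ∀ᶠ j in (𝒰 : Filter P), (s j).e i = (Hist.lim 𝒰 s).e i := by
  simp only [Hist.lim]
  split_ifs with h
  · exact h
  · rw [← Ultrafilter.eventually_not] at h
    exact h.mono fun j hj => ((hs j).sign i).resolve_left hj

theorem Hist.lim_hv_eventually {s : P → Hist I} (hs : ∀ j, (s j).Valid Cen) (lam : ℝ) (n : ℕ) :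
    ∀ᶠ j in (𝒰 : Filter P), hv lam (s j) n = hv lam (Hist.lim 𝒰 s) n := by
  have : ∀ᶠ j in (𝒰 : Filter P), ∀ i ∈ Finset.range n, (s j).e i = (Hist.lim 𝒰 s).e i := by
    rw [Filter.eventually_all_finset]
    exact fun i _ => Hist.lim_e_eventually 𝒰 hs i
  refine this.mono fun j hj => ?_
  exact Finset.sum_congr rfl fun i hi => by rw [hj i hi]

theorem mem_lim_iff_or (Q : P → Prop) :
    (∀ᶠ j in (𝒰 : Filter P), Q j) ∨ (∀ᶠ j in (𝒰 : Filter P), ¬ Q j) := by
  rw [Ultrafilter.eventually_not]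
  exact em _

theorem Hist.lim_hterm_eventually {s : P → Hist I} (hs : ∀ j, (s j).Valid Cen) (b : I) (i : ℕ) :
    ∀ᶠ j in (𝒰 : Filter P), hterm lam a (s j) b i = hterm lam a (Hist.lim 𝒰 s) b i := by
  have h1 : ∀ᶠ j in (𝒰 : Filter P), (b ∈ (s j).L i ↔ b ∈ (Hist.lim 𝒰 s).L i) := by
    rcases mem_lim_iff_or 𝒰 (fun j => b ∈ (s j).L i) with h | h
    · exact h.mono fun j hj => iff_of_true hj h
    · refine h.mono fun j hj => iff_of_false hj ?_
      intro h'
      exact (Ultrafilter.eventually_not.1 h) h'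
  have h2 : ∀ᶠ j in (𝒰 : Filter P), (b ∈ (s j).y i ↔ b ∈ (Hist.lim 𝒰 s).y i) := by
    rcases mem_lim_iff_or 𝒰 (fun j => b ∈ (s j).y i) with h | h
    · exact h.mono fun j hj => iff_of_true hj h
    · refine h.mono fun j hj => iff_of_false hj ?_
      intro h'
      exact (Ultrafilter.eventually_not.1 h) h'
  filter_upwards [h1, h2, Hist.lim_e_eventually 𝒰 hs i] with j hj1 hj2 hj3
  by_cases c1 : b ∈ (Hist.lim 𝒰 s).L i
  · rw [hterm_of_mem c1, hterm_of_mem (hj1.2 c1)]
  · by_cases c2 : b ∈ (Hist.lim 𝒰 s).y i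
    · rw [hterm_of_mem_y c1 c2, hterm_of_mem_y (fun h => c1 (hj1.1 h)) (hj2.2 c2), hj3]
    · rw [hterm_of_notMem c1 c2, hterm_of_notMem (fun h => c1 (hj1.1 h)) (fun h => c2 (hj2.1 h)),
        hj3]

theorem Hist.tendsto_hw (h0 : 0 < lam) (h1 : lam < 1) (ha1 : ∀ b, 1 ≤ a b)
    (ha : ∀ b, (1 - lam) * a b ≤ lam) {s : P → Hist I} (hs : ∀ j, (s j).Valid Cen) (b : I) :
    Tendsto (fun j => hw lam a (s j) b) 𝒰 (𝓝 (hw lam a (Hist.lim 𝒰 s) b)) := by
  refine tendsto_tsum_of_dominated_convergence (bound := fun i => lam ^ i)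
    (summable_geometric_of_lt_one h0.le h1) (fun i => ?_) (Eventually.of_forall fun j i => ?_)
  · exact tendsto_const_nhds.congr' ((Hist.lim_hterm_eventually 𝒰 hs b i).mono fun j hj => hj.symm)
  · rw [Real.norm_eq_abs]
    exact abs_hterm_le h0 h1 ha1 ha (hs j) b i

end Ultra

end Pool.Agent.Helper50.NW
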