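import Pool.Agent.Helper50.NW.Split

/-!
# Points of `Z` of branch type are not extreme, or are of node type
-/

set_option autoImplicit false
set_option linter.unusedSectionVars false
set_option linter.style.haveILetI false

namespace Pool.Agent.Helper50.NW

open Set Filter Topology MeasureTheory

universe u

variable {I : Type u} [LinearOrder I] [WellFoundedLT I] [Nonempty I] {C : Type u} [Nonempty C]
variable {lam : ℝ} {a : I → ℝ} {Cen : Set (Set I)}

theorem hterm_congr {s s' : Hist I} {b : I} {i : ℕ} (h1 : b ∈ s.L i ↔ b ∈ s'.L i)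
    (h2 : b ∈ s.y i ↔ b ∈ s'.y i) (h3 : s.e i = s'.e i) :
    hterm lam a s b i = hterm lam a s' b i := by
  by_cases c1 : b ∈ s'.L i
  · rw [hterm_of_mem c1, hterm_of_mem (h1.2 c1)]
  · by_cases c2 : b ∈ s'.y i
    · rw [hterm_of_mem_y c1 c2, hterm_of_mem_y (fun h => c1 (h1.1 h)) (h2.2 c2), h3]
    · rw [hterm_of_notMem c1 c2, hterm_of_notMem (fun h => c1 (h1.1 h)) (fun h => c2 (h2.1 h)),
        h3]

/-- bounding finitely or countably many stages of a history -/
theorem exists_stage_bound (hunb : ∀ b : ℕ → I, ∃ b', ∀ n, b n < b')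
    (hbdd : ∀ y ∈ Cen, ∃ b, ∀ x ∈ y, x < b) {s : Hist I} (hs : s.Valid Cen) (Q : ℕ → Prop)
    (hQ : ∀ i, Q i → s.L i ≠ univ) :
    ∃ b', ∀ i, Q i → b' ∉ s.L i ∧ ∀ x ∈ s.y i, x < b' := by
  classical
  have h1 : ∀ i, ∃ b, Q i → b ∉ s.L i ∧ ∀ x ∈ s.y i, x < b := by
    intro i
    by_cases hq : Q i
    · obtain ⟨b1, hb1⟩ : ∃ b, b ∉ s.L i := by
        by_contra hcon
        push Not at hcon
        exact hQ i hq (eq_univ_of_forall hcon)
      obtain ⟨b2, hb2⟩ := hbdd _ (hs.cen i)
      refine ⟨max b1 b2, fun _ => ⟨fun h => hb1 (hs.lower i (le_max_left _ _) h), fun x hx => ?_⟩⟩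
      exact (hb2 x hx).trans_le (le_max_right _ _)
    · exact ⟨Classical.arbitrary I, fun h => absurd h hq⟩
  choose b hb using h1
  obtain ⟨b', hb'⟩ := hunb b
  refine ⟨b', fun i hi => ⟨fun h => (hb i hi).1 (hs.lower i (hb' i).le h), fun x hx => ?_⟩⟩
  exact ((hb i hi).2 x hx).trans (hb' i)

/-- A branch type point with eventually constant `w` equal to its value is of node type. -/
theorem zf_univ_eq_node {f : I → C} {s : Hist I} {c : ℝ} {b' : I}
    (h : ∀ b, b' ≤ b → hw lam a s b = c) :
    zf lam a ⟨f, univ, s, c⟩ = zf lam a ⟨f, Iio b', s, c⟩ := by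
  funext g
  by_cases hfg : f = g
  · subst hfg
    rw [zf_of_eq (by simp), zf_of_eq (by simp)]
  · have h1 : ¬ ∀ b ∈ (univ : Set I), f b = g b := fun h => hfg (funext fun b => h b (mem_univ b))
    rw [zf_of_ne (p := ⟨f, univ, s, c⟩) h1]
    by_cases h2 : ∀ b ∈ Iio b', f b = g b
    · rw [zf_of_eq (p := ⟨f, Iio b', s, c⟩) h2]
      apply h
      by_contra hcon
      push Not at hcon
      exact diff_ne hfg (h2 _ hcon)
    · rw [zf_of_ne (p := ⟨f, Iio b', s, c⟩) h2]

/-- extension of a history at stage `k` -/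
noncomputable def extHist (s : Hist I) (k : ℕ) (b' : I) (ε : ℝ) (y : Set I) : Hist I where
  L := fun i => if i < k then s.L i else if i = k then Iio b' else univ
  e := fun i => if i = k then ε else s.e i
  y := fun i => if i < k then s.y i else if i = k then y else ∅

theorem extHist_valid {s : Hist I} (hs : s.Valid Cen) {k : ℕ} {b' : I} {ε : ℝ}
    (hε : ε = 1 ∨ ε = -1) {y : Set I} (hy : y ∈ Cen) (hempty : (∅ : Set I) ∈ Cen)
    (hb' : ∀ i, i < k → b' ∉ s.L i ∧ ∀ x ∈ s.y i, x < b') :
    (extHist s k b' ε y).Valid Cen := by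
  refine ⟨?_, ?_, ?_, ?_, ?_⟩
  · intro i
    simp only [extHist]
    split_ifs
    · exact hs.lower i
    · exact isLowerSet_Iio b'
    · exact isLowerSet_univ
  · intro i x hx
    simp only [extHist] at hx ⊢
    by_cases h1 : i + 1 < k
    · rw [if_pos h1]
      rw [if_pos (by omega)] at hx
      exact hs.mono i hx
    · rw [if_neg h1]
      by_cases h2 : i + 1 = k
      · rw [if_pos h2]
        have hik : i < k := by omega
        rw [if_pos hik] at hx
        show x < b'
        by_contra hcon
        push Not at hcon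
        exact (hb' i hik).1 (hs.lower i hcon hx)
      · rw [if_neg h2]
        trivial
  · intro i x hx
    simp only [extHist] at hx ⊢
    by_cases h1 : i + 1 < k
    · rw [if_pos h1]
      rw [if_pos (by omega)] at hx
      exact hs.ysub i hx
    · rw [if_neg h1]
      by_cases h2 : i + 1 = k
      · rw [if_pos h2]
        have hik : i < k := by omega
        rw [if_pos hik] at hx
        exact (hb' i hik).2 x hx
      · rw [if_neg h2]
        trivial
  · intro i
    simp only [extHist]
    split_ifs
    · exact hs.cen i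
    · exact hy
    · exact hempty
  · intro i
    simp only [extHist]
    split_ifs
    · exact hε
    · exact hs.sign i

theorem hv_extHist_le (s : Hist I) {k : ℕ} (b' : I) (ε : ℝ) (y : Set I) {n : ℕ} (hn : n ≤ k) :
    hv lam (extHist s k b' ε y) n = hv lam s n := by
  refine Finset.sum_congr rfl fun i hi => ?_
  rw [Finset.mem_range] at hi
  have : i ≠ k := by omega
  simp [extHist, this]

theorem hv_extHist_succ (s : Hist I) (k : ℕ) (b' : I) (ε : ℝ) (y : Set I) :
    hv lam (extHist s k b' ε y) (k + 1) = hv lam s k + (1 - lam) * lam ^ k * ε := by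
  have h1 := hv_extHist_le (lam := lam) s b' ε y (le_refl k)
  have h2 : hv lam (extHist s k b' ε y) (k + 1) =
      hv lam (extHist s k b' ε y) k + (1 - lam) * lam ^ k * (extHist s k b' ε y).e k := by
    simp [hv, Finset.sum_range_succ]
  rw [h2, h1]
  simp [extHist]

theorem hw_extHist_lt {s : Hist I} (hs : s.Valid Cen) {k : ℕ} (hk : s.L k = univ) {b' : I} (ε : ℝ)
    (y : Set I) {b : I} (hb : b < b') :
    hw lam a (extHist s k b' ε y) b = hw lam a s b := by
  have hz1 : ∀ i, i ∉ Finset.range k → hterm lam a (extHist s k b' ε y) b i = 0 := by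
    intro i hi
    rw [Finset.mem_range, not_lt] at hi
    apply hterm_of_mem
    simp only [extHist]
    rw [if_neg (by omega)]
    split_ifs
    · exact hb
    · trivial
  have hz2 : ∀ i, i ∉ Finset.range k → hterm lam a s b i = 0 := by
    intro i hi
    rw [Finset.mem_range, not_lt] at hi
    apply hterm_of_mem
    exact hs.mono' hi (by rw [hk]; trivial)
  rw [hw, hw, tsum_eq_sum hz1, tsum_eq_sum hz2]
  refine Finset.sum_congr rfl fun i hi => ?_
  rw [Finset.mem_range] at hi
  have hne : i ≠ k := by omega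
  refine hterm_congr ?_ ?_ ?_ <;> simp [extHist, hi, hne]

open Classical in
theorem hw_extHist_ge {s : Hist I} {k : ℕ} {b' : I} (ε : ℝ)
    (y : Set I) (hb' : ∀ i, i < k → b' ∉ s.L i ∧ ∀ x ∈ s.y i, x < b') (hs : s.Valid Cen)
    {b : I} (hb : b' ≤ b) :
    hw lam a (extHist s k b' ε y) b =
      hv lam s k + (1 - lam) * lam ^ k * ε * (1 - if b ∈ y then a b else 0) := by
  have hz1 : ∀ i, i ∉ Finset.range (k + 1) → hterm lam a (extHist s k b' ε y) b i = 0 := by
    intro i hi
    rw [Finset.mem_range, not_lt] at hi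
    apply hterm_of_mem
    simp only [extHist]
    rw [if_neg (by omega), if_neg (by omega)]
    trivial
  rw [hw, tsum_eq_sum hz1, Finset.sum_range_succ]
  congr 1
  · refine Finset.sum_congr rfl fun i hi => ?_
    rw [Finset.mem_range] at hi
    have hne : i ≠ k := by omega
    have e1 : b ∉ (extHist s k b' ε y).L i := by
      simp only [extHist]
      rw [if_pos hi]
      exact fun h => (hb' i hi).1 (hs.lower i hb h)
    have e2 : b ∉ (extHist s k b' ε y).y i := by
      simp only [extHist]
      rw [if_pos hi]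
      exact fun h => absurd ((hb' i hi).2 b h) (not_lt.2 hb)
    rw [hterm_of_notMem e1 e2]
    simp [extHist, hne]
  · have e1 : b ∉ (extHist s k b' ε y).L k := by
      simp [extHist, hb]
    by_cases hy : b ∈ y
    · have e2 : b ∈ (extHist s k b' ε y).y k := by
        simp [extHist, hy]
      rw [hterm_of_mem_y e1 e2, if_pos hy]
      simp [extHist]
    · have e2 : b ∉ (extHist s k b' ε y).y k := by
        simp [extHist, hy]
      rw [hterm_of_notMem e1 e2, if_neg hy]
      simp [extHist]

end Pool.Agent.Helper50.NW
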