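import Pool.Agent.Helper50.NW.Count

/-!
# If `λ` is a strong limit of countable cofinality and `2^λ = λ⁺`, then `λ⁺` is not a measure
precaliber
-/

set_option autoImplicit false
set_option linter.unusedSectionVars false
set_option linter.style.haveILetI false

namespace Pool.Agent.Helper50.NW

open Set Filter Topology Cardinal MeasureTheory ENNReal

universe u

/-- the fair coin -/
noncomputable def coin : Measure Bool :=
  (2⁻¹ : ℝ≥0∞) • Measure.dirac true + (2⁻¹ : ℝ≥0∞) • Measure.dirac false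

instance : IsProbabilityMeasure coin := by
  constructor
  simp [coin, ENNReal.inv_two_add_inv_two]

theorem coin_singleton (b : Bool) : coin {b} = 2⁻¹ := by
  cases b <;> simp [coin]

/-- the coordinates in `F` are all equal -/
def constOn {Λ : Type u} (F : Finset Λ) : Set (Λ → Bool) :=
  Set.pi F (fun _ => {true}) ∪ Set.pi F (fun _ => {false})

theorem constOn_isOpen {Λ : Type u} (F : Finset Λ) : IsOpen (constOn F) :=
  (isOpen_set_pi F.finite_toSet fun _ _ => isOpen_discrete _).union
    (isOpen_set_pi F.finite_toSet fun _ _ => isOpen_discrete _)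

theorem constOn_measurable {Λ : Type u} (F : Finset Λ) : MeasurableSet (constOn F) :=
  (MeasurableSet.pi F.countable_toSet fun _ _ => measurableSet_singleton _).union
    (MeasurableSet.pi F.countable_toSet fun _ _ => measurableSet_singleton _)

theorem constOn_measure {Λ : Type u} (F : Finset Λ) :
    Measure.infinitePi (fun _ : Λ => coin) (constOn F) ≤ 2 * (2⁻¹ : ℝ≥0∞) ^ F.card := by
  refine (measure_union_le _ _).trans ?_
  rw [Measure.infinitePi_pi _ (fun _ _ => measurableSet_singleton _),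
    Measure.infinitePi_pi _ (fun _ _ => measurableSet_singleton _)]
  simp only [coin_singleton, Finset.prod_const]
  rw [two_mul]

theorem mk_fun_bool (N : Type u) : #(N → Bool) = 2 ^ #N := by
  rw [Cardinal.mk_arrow, Cardinal.mk_bool, Cardinal.lift_two, Cardinal.lift_uzero]

theorem not_isMeasurePrecaliber_succ {l : Cardinal.{u}} (hl : l.IsStrongLimit)
    (hcof : l.ord.cof = ℵ₀) (h : 2 ^ l = Order.succ l) :
    ¬ IsMeasurePrecaliber (Order.succ l) := by
  classical
  intro hP
  have hl0 : ℵ₀ ≤ l := hl.aleph0_le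
  let Λ : Type u := l.out
  have hΛ : #Λ = l := Cardinal.mk_out l
  haveI : Infinite Λ := by
    rw [Cardinal.infinite_iff, hΛ]
    exact hl0
  let I : Type u := (Order.succ l).ord.ToType
  have hI : #I = Order.succ l := by rw [Cardinal.mk_toType, Cardinal.card_ord]
  have hY : #(Λ → Bool) = Order.succ l := by
    rw [mk_fun_bool, hΛ, h]
  obtain ⟨e⟩ : Nonempty (I ≃ (Λ → Bool)) := by
    rw [← Cardinal.eq, hI, hY]
  -- the closed sets
  have hstep : ∀ ξ : I, ∃ F : ℕ → Finset Λ, (∀ n, (F n).card = n + 3) ∧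
      ∀ η < ξ, ∃ n, e η ∈ constOn (F n) := by
    intro ξ
    have hξ : #(Iio ξ) ≤ l := Order.le_of_lt_succ (mk_Iio_lt_ord ξ)
    obtain ⟨S, -, hSu, hSc⟩ := exists_countable_decomp hcof hξ
    have hF : ∀ n, ∃ F : Finset Λ, F.card = n + 3 ∧ ∀ η ∈ S n, e η ∈ constOn F := by
      intro n
      let pat : Λ → (S n → Bool) := fun c η => e η.1 c
      have hcard : #(S n → Bool) < #Λ := by
        rw [mk_fun_bool, hΛ]
        exact hl.isStrongPrelimit (hSc n)
      obtain ⟨a, ha⟩ := Cardinal.exists_infinite_fiber pat hcard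
      have ha' : (pat ⁻¹' {a}).Infinite := Set.infinite_coe_iff.1 ha
      obtain ⟨F, hFsub, hFcard⟩ := ha'.exists_subset_card_eq (n + 3)
      refine ⟨F, hFcard, fun η hη => ?_⟩
      have hval : ∀ c ∈ F, e η c = a ⟨η, hη⟩ := by
        intro c hc
        have h1 : pat c = a := hFsub hc
        exact congrFun h1 ⟨η, hη⟩
      cases hb : a ⟨η, hη⟩ with
      | true => exact Or.inl fun c hc => (hval c hc).trans hb
      | false => exact Or.inr fun c hc => (hval c hc).trans hb
    choose F hF1 hF2 using hF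
    refine ⟨F, hF1, fun η hη => ?_⟩
    obtain ⟨n, hn⟩ := hSu ⟨η, hη⟩
    exact ⟨n, hF2 n ⟨η, hη⟩ hn⟩
  choose F hF1 hF2 using hstep
  let G : I → Set (Λ → Bool) := fun ξ => (⋃ n, constOn (F ξ n))ᶜ
  have hGclosed : ∀ ξ, IsClosed (G ξ) := fun ξ =>
    (isOpen_iUnion fun n => constOn_isOpen _).isClosed_compl
  have hUm : ∀ ξ, MeasurableSet (⋃ n, constOn (F ξ n)) := fun ξ =>
    MeasurableSet.iUnion fun n => constOn_measurable _
  have hGpos : ∀ ξ, Measure.infinitePi (fun _ : Λ => coin) (G ξ) ≠ 0 := by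
    intro ξ h0
    have h1 : Measure.infinitePi (fun _ : Λ => coin) (⋃ n, constOn (F ξ n)) ≤ 2⁻¹ := by
      refine (measure_iUnion_le _).trans ?_
      calc ∑' n, Measure.infinitePi (fun _ : Λ => coin) (constOn (F ξ n))
          ≤ ∑' n : ℕ, 2 * (2⁻¹ : ℝ≥0∞) ^ (n + 3) := by
            refine ENNReal.tsum_le_tsum fun n => ?_
            have := constOn_measure (F ξ n)
            rwa [hF1] at this
        _ = 2⁻¹ := by
          have : ∀ n : ℕ, 2 * (2⁻¹ : ℝ≥0∞) ^ (n + 3) = 2⁻¹ * (2⁻¹ * 2⁻¹ ^ n) := by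
            intro n
            have h2 : (2 : ℝ≥0∞) * 2⁻¹ = 1 := ENNReal.mul_inv_cancel (by norm_num) (by norm_num)
            calc 2 * (2⁻¹ : ℝ≥0∞) ^ (n + 3) = (2 * 2⁻¹) * (2⁻¹ * (2⁻¹ * 2⁻¹ ^ n)) := by ring
              _ = _ := by rw [h2, one_mul]
          simp_rw [this]
          rw [ENNReal.tsum_mul_left, ENNReal.tsum_mul_left, ENNReal.tsum_geometric]
          rw [ENNReal.one_sub_inv_two, inv_inv,
            ENNReal.inv_mul_cancel (by norm_num) (by norm_num), mul_one]
    have h2 : Measure.infinitePi (fun _ : Λ => coin) (⋃ n, constOn (F ξ n)) = 1 := by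
      have := prob_add_prob_compl (μ := Measure.infinitePi (fun _ : Λ => coin)) (hUm ξ)
      change _ + Measure.infinitePi (fun _ : Λ => coin) (G ξ) = 1 at this
      rwa [h0, add_zero] at this
    rw [h2] at h1
    exact absurd h1 (not_le.2 (ENNReal.inv_lt_one.2 (by norm_num)))
  obtain ⟨J, hJcard, hJ⟩ := hP (Λ → Bool) (Measure.infinitePi (fun _ : Λ => coin)) I G hI
    (fun ξ => (hUm ξ).compl) hGpos
  have hJinter : (⋂ i : J, G i.1).Nonempty := by
    by_contra hcon
    rw [not_nonempty_iff_eq_empty] at hcon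
    obtain ⟨t, ht⟩ := isCompact_univ.elim_finite_subfamily_closed (fun i : J => G i.1)
      (fun i => hGclosed i.1) (by rw [hcon, inter_empty])
    apply hJ (t.image Subtype.val)
    · intro i hi
      rw [Finset.coe_image] at hi
      obtain ⟨i', -, rfl⟩ := hi
      exact i'.2
    · rw [univ_inter] at ht
      have : (⋂ i ∈ t.image Subtype.val, G i) = ⋂ i ∈ t, G i.1 := by
        ext x
        simp
      rw [this, ht, measure_empty]
  obtain ⟨y, hy⟩ := hJinter
  rw [mem_iInter] at hy
  obtain ⟨η, rfl⟩ := e.surjective y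
  have hJsub : J ⊆ insert η (Iio η) := by
    intro ξ hξ
    by_contra hcon
    have hlt : η < ξ := by
      rw [mem_insert_iff, not_or] at hcon
      exact lt_of_le_of_ne (not_lt.1 hcon.2) (Ne.symm hcon.1)
    obtain ⟨n, hn⟩ := hF2 ξ η hlt
    exact hy ⟨ξ, hξ⟩ (mem_iUnion.2 ⟨n, hn⟩)
  have h1 : #J < Order.succ l := by
    refine (Cardinal.mk_le_mk_of_subset hJsub).trans_lt ?_
    refine Cardinal.mk_insert_le.trans_lt ?_
    have hsl : ℵ₀ ≤ Order.succ l := hl0.trans (Order.le_succ l)
    exact Cardinal.add_lt_of_lt hsl (mk_Iio_lt_ord η)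
      (Cardinal.one_lt_aleph0.trans_le hsl)
  rw [hJcard] at h1
  exact lt_irrefl _ h1

end Pool.Agent.Helper50.NW
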