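import Pool.Agent.Helper50.NW.Basic

/-!
# Measure precalibers: the definition
-/

set_option autoImplicit false

namespace Pool.Agent.Helper50.NW

open Set Filter Topology Cardinal MeasureTheory

universe u

/-- `θ` is a precaliber of every probability algebra: whenever `(A i)` is a family of `θ` many
events of positive probability in a probability space, there is a subfamily of `θ` many events
all of whose finite intersections have positive probability. -/
def IsMeasurePrecaliber (θ : Cardinal.{u}) : Prop :=
  ∀ (Ω : Type u) [MeasurableSpace Ω] (μ : Measure Ω) [IsProbabilityMeasure μ]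
    (ι : Type u) (A : ι → Set Ω), #ι = θ → (∀ i, MeasurableSet (A i)) → (∀ i, μ (A i) ≠ 0) →
    ∃ J : Set ι, #J = θ ∧ ∀ F : Finset ι, (↑F : Set ι) ⊆ J → μ (⋂ i ∈ F, A i) ≠ 0

end Pool.Agent.Helper50.NW
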