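import Mathlib

/-!
# Simons' inequality and Rainwater's theorem

Elementary proof of Simons' inequality for a uniformly bounded sequence of continuous functions on
a compact space and a boundary `B`, and the resulting theorem of Rainwater: on a compact convex
set, a bounded sequence of continuous affine functions which converges at the extreme points
converges everywhere.
-/

set_option autoImplicit false
set_option linter.unusedSectionVars false
set_option linter.style.haveILetI false

namespace Pool.Agent.Helper50.NW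

open Set Filter Topology

section Simons

variable {X : Type*} [TopologicalSpace X] [CompactSpace X]

/-- closed convex hull of the tail of a sequence -/
def tailHull (f : ℕ → C(X, ℝ)) (n : ℕ) : Set C(X, ℝ) :=
  closure (convexHull ℝ (Set.range fun k => f (n + k)))

theorem tailHull_convex (f : ℕ → C(X, ℝ)) (n : ℕ) : Convex ℝ (tailHull f n) :=
  (convex_convexHull ℝ _).closure

theorem tailHull_closed (f : ℕ → C(X, ℝ)) (n : ℕ) : IsClosed (tailHull f n) := isClosed_closure

theorem mem_tailHull (f : ℕ → C(X, ℝ)) {n k : ℕ} (h : n ≤ k) : f k ∈ tailHull f n :=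
  subset_closure (subset_convexHull ℝ _ ⟨k - n, by simp [Nat.add_sub_cancel' h]⟩)

theorem tailHull_subset_of (f : ℕ → C(X, ℝ)) (n : ℕ) {S : Set C(X, ℝ)} (hS : Convex ℝ S)
    (hS' : IsClosed S) (h : ∀ k, n ≤ k → f k ∈ S) : tailHull f n ⊆ S := by
  refine closure_minimal (convexHull_min ?_ hS) hS'
  rintro _ ⟨k, rfl⟩
  exact h _ (Nat.le_add_right n k)

theorem tailHull_anti (f : ℕ → C(X, ℝ)) {n m : ℕ} (h : n ≤ m) :
    tailHull f m ⊆ tailHull f n :=
  tailHull_subset_of f m (tailHull_convex f n) (tailHull_closed f n)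
    fun _ hk => mem_tailHull f (h.trans hk)

theorem convex_eval_le (b : X) (t : ℝ) : Convex ℝ {g : C(X, ℝ) | g b ≤ t} := by
  intro g hg h hh u v hu hv huv
  simp only [mem_ofPred_eq, ContinuousMap.add_apply, ContinuousMap.smul_apply, smul_eq_mul] at *
  calc u * g b + v * h b ≤ u * t + v * t := by gcongr
    _ = t := by rw [← add_mul, huv, one_mul]

theorem convex_le_eval (b : X) (t : ℝ) : Convex ℝ {g : C(X, ℝ) | t ≤ g b} := by
  intro g hg h hh u v hu hv huv
  simp only [mem_ofPred_eq, ContinuousMap.add_apply, ContinuousMap.smul_apply, smul_eq_mul] at *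
  calc t = u * t + v * t := by rw [← add_mul, huv, one_mul]
    _ ≤ u * g b + v * h b := by gcongr

theorem tailHull_eval_le (f : ℕ → C(X, ℝ)) (n : ℕ) (b : X) (t : ℝ) (h : ∀ k, n ≤ k → f k b ≤ t)
    {g : C(X, ℝ)} (hg : g ∈ tailHull f n) : g b ≤ t :=
  tailHull_subset_of f n (S := {g : C(X, ℝ) | g b ≤ t}) (convex_eval_le b t)
    (isClosed_le (continuous_eval_const b) continuous_const) h hg

theorem tailHull_le_eval (f : ℕ → C(X, ℝ)) (n : ℕ) (b : X) (t : ℝ) (h : ∀ k, n ≤ k → t ≤ f k b)
    {g : C(X, ℝ)} (hg : g ∈ tailHull f n) : t ≤ g b :=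
  tailHull_subset_of f n (S := {g : C(X, ℝ) | t ≤ g b}) (convex_le_eval b t)
    (isClosed_le continuous_const (continuous_eval_const b)) h hg

/-- supremum functional -/
noncomputable def supf (g : C(X, ℝ)) : ℝ := ⨆ x, g x

theorem bddAbove_range (g : C(X, ℝ)) : BddAbove (Set.range g) :=
  (isCompact_range g.continuous).bddAbove

theorem le_supf (g : C(X, ℝ)) (x : X) : g x ≤ supf g := le_ciSup (bddAbove_range g) x

theorem supf_le [Nonempty X] {g : C(X, ℝ)} {t : ℝ} (h : ∀ x, g x ≤ t) : supf g ≤ t := ciSup_le h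

theorem supf_half [Nonempty X] (g h : C(X, ℝ)) :
    supf ((1 / 2 : ℝ) • (g + h)) ≤ (1 / 2) * supf g + (1 / 2) * supf h := by
  refine supf_le fun x => ?_
  have h1 := le_supf g x
  have h2 := le_supf h x
  simp only [ContinuousMap.smul_apply, ContinuousMap.add_apply, smul_eq_mul]
  linarith

/-- **Simons' inequality**, in the form needed here. -/
theorem simons [Nonempty X] (B : Set X) (f : ℕ → C(X, ℝ)) (M : ℝ) (hM : ∀ n x, |f n x| ≤ M)
    (hB : ∀ g ∈ tailHull f 0, ∃ b ∈ B, ∀ x, g x ≤ g b)
    (x₀ : X) (c : ℝ) (hc : ∀ n, c ≤ f n x₀) (δ : ℝ) (hδ : 0 < δ) :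
    ∃ b ∈ B, ∀ n, ∃ k, n ≤ k ∧ c - δ < f k b := by
  classical
  -- bounds on tail hulls
  have hMg : ∀ n, ∀ g ∈ tailHull f n, ∀ x, |g x| ≤ M := by
    intro n g hg x
    rw [abs_le]
    exact ⟨tailHull_le_eval f n x (-M) (fun k _ => (abs_le.1 (hM k x)).1) hg,
      tailHull_eval_le f n x M (fun k _ => (abs_le.1 (hM k x)).2) hg⟩
  have hcg : ∀ n, ∀ g ∈ tailHull f n, c ≤ g x₀ := fun n g hg =>
    tailHull_le_eval f n x₀ c (fun k _ => hc k) hg
  have hne : ∀ n, (tailHull f n).Nonempty := fun n => ⟨f n, mem_tailHull f le_rfl⟩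
  -- the selection step
  have step : ∀ (n : ℕ) (h : C(X, ℝ)), ∃ g ∈ tailHull f n, ∀ g' ∈ tailHull f n,
      supf (h + (2 * (1 / 2 : ℝ) ^ n) • g) ≤
        supf (h + (2 * (1 / 2 : ℝ) ^ n) • g') + δ / 2 * (1 / 4) ^ n := by
    intro n h
    set S := (fun g => supf (h + (2 * (1 / 2 : ℝ) ^ n) • g)) '' tailHull f n with hS
    have hSne : S.Nonempty := (hne n).image _
    have hSb : BddBelow S := by
      refine ⟨h x₀ + (2 * (1 / 2 : ℝ) ^ n) * c, ?_⟩
      rintro _ ⟨g, hg, rfl⟩
      refine le_trans ?_ (le_supf _ x₀)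
      have := hcg n g hg
      simp only [ContinuousMap.add_apply, ContinuousMap.smul_apply, smul_eq_mul]
      gcongr
    have hpos : 0 < δ / 2 * (1 / 4 : ℝ) ^ n := by positivity
    obtain ⟨v, ⟨g, hg, rfl⟩, hv⟩ := Real.lt_sInf_add_pos hSne hpos
    refine ⟨g, hg, fun g' hg' => ?_⟩
    have : sInf S ≤ supf (h + (2 * (1 / 2 : ℝ) ^ n) • g') := csInf_le hSb ⟨g', hg', rfl⟩
    linarith
  choose G hG hGle using step
  -- the recursion
  let H : ℕ → C(X, ℝ) := fun n => Nat.rec 0 (fun n h => h + ((1 / 2 : ℝ) ^ n) • G n h) n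
  have H0 : H 0 = 0 := rfl
  have Hs : ∀ n, H (n + 1) = H n + ((1 / 2 : ℝ) ^ n) • G n (H n) := fun n => rfl
  -- finite stage membership
  have hfin : ∀ n N, n ≤ N → ∀ g ∈ tailHull f N,
      ((1 / 2 : ℝ) * 2 ^ n) • (H N - H n) + ((2 : ℝ) ^ n * (1 / 2) ^ N) • g ∈ tailHull f n := by
    intro n N hnN
    induction N, hnN using Nat.le_induction with
    | base =>
      intro g hg
      have : ((2 : ℝ) ^ n * (1 / 2) ^ n) = 1 := by
        rw [← mul_pow]; norm_num
      rw [sub_self, smul_zero, zero_add, this, one_smul]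
      exact hg
    | succ N hnN ih =>
      intro g hg
      have hg' : (1 / 2 : ℝ) • G N (H N) + (1 / 2 : ℝ) • g ∈ tailHull f N :=
        tailHull_convex f N (hG N (H N)) (tailHull_anti f (Nat.le_succ N) hg)
          (by norm_num) (by norm_num) (by norm_num)
      have := ih _ hg'
      convert this using 1
      rw [Hs]
      ext x
      simp only [ContinuousMap.add_apply, ContinuousMap.smul_apply, ContinuousMap.sub_apply,
        smul_eq_mul]
      ring
  -- convergence of H
  have hGnorm : ∀ n, ‖G n (H n)‖ ≤ |M| := by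
    intro n
    refine (ContinuousMap.norm_le _ (abs_nonneg M)).2 fun x => ?_
    exact (hMg n _ (hG n (H n)) x).trans (le_abs_self M)
  have hcs : CauchySeq H := by
    refine cauchySeq_of_le_geometric (1 / 2) |M| (by norm_num) fun n => ?_
    rw [Hs, dist_eq_norm, sub_add_cancel_left, norm_neg, norm_smul, Real.norm_eq_abs,
      abs_of_pos (by positivity : (0 : ℝ) < (1 / 2) ^ n), mul_comm]
    gcongr
    exact hGnorm n
  obtain ⟨h, hh⟩ := cauchySeq_tendsto_of_complete hcs
  -- the tails u n
  have hu : ∀ n, ((1 / 2 : ℝ) * 2 ^ n) • (h - H n) ∈ tailHull f n := by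
    intro n
    have hg0 : f n ∈ tailHull f n := mem_tailHull f le_rfl
    have hlim : Tendsto (fun N => ((1 / 2 : ℝ) * 2 ^ n) • (H N - H n) +
        ((2 : ℝ) ^ n * (1 / 2) ^ N) • f N) atTop
        (𝓝 (((1 / 2 : ℝ) * 2 ^ n) • (h - H n) + 0)) := by
      refine Tendsto.add (Tendsto.const_smul (hh.sub_const _) _) ?_
      rw [tendsto_zero_iff_norm_tendsto_zero]
      have hb : ∀ N, ‖((2 : ℝ) ^ n * (1 / 2) ^ N) • f N‖ ≤ (2 : ℝ) ^ n * (1 / 2) ^ N * |M| := by
        intro N
        rw [norm_smul, Real.norm_eq_abs, abs_of_pos (by positivity)]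
        gcongr
        exact (ContinuousMap.norm_le _ (abs_nonneg M)).2 fun x =>
          (hM N x).trans (le_abs_self M)
      refine squeeze_zero (fun N => norm_nonneg _) hb ?_
      have h1 : Tendsto (fun N : ℕ => ((1 : ℝ) / 2) ^ N) atTop (𝓝 0) :=
        tendsto_pow_atTop_nhds_zero_of_lt_one (by norm_num) (by norm_num)
      have h2 := (h1.const_mul ((2 : ℝ) ^ n)).mul_const |M|
      simpa using h2
    rw [add_zero] at hlim
    refine (tailHull_closed f n).mem_of_tendsto hlim ?_
    filter_upwards [eventually_ge_atTop n] with N hN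
    exact hfin n N hN (f N) (mem_tailHull f le_rfl)
  -- upper bounds for supf (H n)
  have hsup : ∀ n, supf (H n) ≤ (1 - (1 / 2 : ℝ) ^ n) * supf h + δ * (1 / 2) ^ n := by
    have key : ∀ n, supf (H n) ≤ (1 - (1 / 2 : ℝ) ^ n) * supf h +
        δ * (1 / 2) ^ n * (1 - (1 / 2) ^ n) := by
      intro n
      induction n with
      | zero =>
        have : supf (H 0) ≤ 0 := supf_le fun x => by simp [H0]
        simpa using this
      | succ n ih =>
        have e1 : H (n + 1) = (1 / 2 : ℝ) • ((H n + (2 * (1 / 2 : ℝ) ^ n) • G n (H n)) + H n) := by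
          rw [Hs]
          ext x
          simp only [ContinuousMap.add_apply, ContinuousMap.smul_apply, smul_eq_mul]
          ring
        have e2 : supf (H n + (2 * (1 / 2 : ℝ) ^ n) • G n (H n)) ≤
            supf h + δ / 2 * (1 / 4) ^ n := by
          have := hGle n (H n) _ (hu n)
          have e3 : H n + (2 * (1 / 2 : ℝ) ^ n) • ((1 / 2 : ℝ) * 2 ^ n) • (h - H n) = h := by
            rw [smul_smul]
            have : (2 * (1 / 2 : ℝ) ^ n) * ((1 / 2 : ℝ) * 2 ^ n) = 1 := by
              have : ((1 / 2 : ℝ) ^ n) * (2 ^ n) = 1 := by rw [← mul_pow]; norm_num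
              linear_combination this
            rw [this, one_smul]
            abel
          rwa [e3] at this
        have e4 := supf_half (H n + (2 * (1 / 2 : ℝ) ^ n) • G n (H n)) (H n)
        rw [← e1] at e4
        have e5 : ((1 : ℝ) / 4) ^ n = (1 / 2) ^ n * (1 / 2) ^ n := by
          rw [← mul_pow]; norm_num
        rw [e5] at e2
        rw [pow_succ]
        nlinarith [e4, e2, ih]
    intro n
    refine (key n).trans ?_
    have h1 : 0 < ((1 : ℝ) / 2) ^ n := by positivity
    nlinarith [mul_pos hδ (mul_pos h1 h1)]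
  -- the boundary point
  have hu0 := hu 0
  obtain ⟨b, hbB, hb⟩ := hB _ hu0
  have hbh : ∀ x, h x ≤ h b := by
    intro x
    have := hb x
    simp only [H0, sub_zero, pow_zero, mul_one, ContinuousMap.smul_apply, smul_eq_mul] at this
    linarith
  have hbs : h b = supf h := le_antisymm (le_supf h b) (supf_le hbh)
  have hsc : 2 * c ≤ supf h := by
    have h1 := hcg 0 _ hu0
    simp only [H0, sub_zero, pow_zero, mul_one, ContinuousMap.smul_apply, smul_eq_mul] at h1
    have h2 := le_supf h x₀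
    linarith
  refine ⟨b, hbB, fun n => ?_⟩
  by_contra hcon
  push Not at hcon
  have h1 := tailHull_eval_le f n b (c - δ) hcon (hu n)
  simp only [ContinuousMap.smul_apply, ContinuousMap.sub_apply, smul_eq_mul] at h1
  have h2 := (le_supf (H n) b).trans (hsup n)
  have h3 : (0 : ℝ) < 2 ^ n := by positivity
  have h4 : ((1 : ℝ) / 2) ^ n * 2 ^ n = 1 := by rw [← mul_pow]; norm_num
  rw [hbs] at h1
  have h5 : 2 ^ n * H n b ≤ 2 ^ n * ((1 - (1 / 2 : ℝ) ^ n) * supf h + δ * (1 / 2) ^ n) := by
    gcongr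
  have h6 : (2 : ℝ) ^ n * ((1 - (1 / 2 : ℝ) ^ n) * supf h + δ * (1 / 2) ^ n) =
      2 ^ n * supf h - supf h + δ := by
    linear_combination (-supf h + δ) * h4
  rw [h6] at h5
  nlinarith [h1, h5, hsc, hδ]

end Simons

section Rainwater

variable {E : Type*} [AddCommGroup E] [Module ℝ E] [TopologicalSpace E]
  [IsTopologicalAddGroup E] [ContinuousSMul ℝ E] [LocallyConvexSpace ℝ E] [T2Space E]

/-- continuous affine functions on `K`, as a subset of `C(K, ℝ)` -/
def affSet (K : Set E) : Set C(K, ℝ) :=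
  {g | ∀ x y z : K, ∀ a b : ℝ, 0 ≤ a → 0 ≤ b → a + b = 1 →
    (z : E) = a • (x : E) + b • (y : E) → g z = a * g x + b * g y}

theorem affSet_convex (K : Set E) : Convex ℝ (affSet K) := by
  intro g hg h hh u v _ _ _ x y z a b ha hb hab hz
  simp only [ContinuousMap.add_apply, ContinuousMap.smul_apply, smul_eq_mul]
  rw [hg x y z a b ha hb hab hz, hh x y z a b ha hb hab hz]
  ring

theorem affSet_closed (K : Set E) [CompactSpace K] : IsClosed (affSet K) := by
  have : affSet K = ⋂ (x : K) (y : K) (z : K) (a : ℝ) (b : ℝ) (_ : 0 ≤ a) (_ : 0 ≤ b)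
      (_ : a + b = 1) (_ : (z : E) = a • (x : E) + b • (y : E)),
      {g : C(K, ℝ) | g z = a * g x + b * g y} := by
    ext g
    simp only [affSet, mem_ofPred_eq, mem_iInter]
  rw [this]
  refine isClosed_iInter fun x => isClosed_iInter fun y => isClosed_iInter fun z =>
    isClosed_iInter fun a => isClosed_iInter fun b => isClosed_iInter fun _ =>
    isClosed_iInter fun _ => isClosed_iInter fun _ => isClosed_iInter fun _ => ?_
  exact isClosed_eq (continuous_eval_const z)
    ((continuous_const.mul (continuous_eval_const x)).add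
      (continuous_const.mul (continuous_eval_const y)))

/-- **Bauer's maximum principle** for continuous affine functions. -/
theorem bauer {K : Set E} (hK : IsCompact K) [Nonempty K] {g : C(K, ℝ)}
    (hg : g ∈ affSet K) : ∃ b : K, (b : E) ∈ extremePoints ℝ K ∧ ∀ x, g x ≤ g b := by
  haveI : CompactSpace K := isCompact_iff_compactSpace.1 hK
  obtain ⟨m, -, hm⟩ := isCompact_univ.exists_isMaxOn (Set.univ_nonempty (α := K))
    g.continuous.continuousOn
  have hm' : ∀ x, g x ≤ g m := fun x => hm (mem_univ x)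
  -- the face
  set F : Set E := (↑) '' {x : K | g x = g m} with hF
  have hFc : IsCompact F :=
    ((isClosed_eq g.continuous continuous_const).isCompact).image continuous_subtype_val
  have hFne : F.Nonempty := ⟨m, m, rfl, rfl⟩
  have hFK : F ⊆ K := by
    rintro _ ⟨x, -, rfl⟩
    exact x.2
  have hext : IsExtreme ℝ K F := by
    refine ⟨hFK, ?_⟩
    rintro x hx y hy z ⟨z, hz, rfl⟩ hxy
    obtain ⟨a, b, ha, hb, hab, hz'⟩ := hxy
    have h1 := hg ⟨x, hx⟩ ⟨y, hy⟩ z a b ha.le hb.le hab hz'.symm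
    have h2 := hm' ⟨x, hx⟩
    have h3 := hm' ⟨y, hy⟩
    refine ⟨⟨x, hx⟩, ?_, rfl⟩
    simp only [mem_ofPred_eq] at hz ⊢
    rw [hz] at h1
    have hg1 : g m = a * g m + b * g m := by rw [← add_mul, hab, one_mul]
    have h4 : a * (g m - g ⟨x, hx⟩) ≤ 0 := by nlinarith [mul_le_mul_of_nonneg_left h3 hb.le]
    have h5 : g m - g ⟨x, hx⟩ ≤ 0 := by
      by_contra h6
      push Not at h6
      have := mul_pos ha h6
      linarith
    linarith
  obtain ⟨e, he⟩ := hFc.extremePoints_nonempty hFne
  have heK := hext.extremePoints_subset_extremePoints he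
  obtain ⟨e', he', rfl⟩ := he.1
  exact ⟨e', heK, fun x => by rw [he']; exact hm' x⟩

/-- **Rainwater's theorem** for continuous affine functions on a compact convex set: a bounded
sequence which tends to zero at all extreme points tends to zero everywhere. -/
theorem rainwater {K : Set E} (hK : IsCompact K) (f : ℕ → C(K, ℝ)) (hf : ∀ n, f n ∈ affSet K)
    (M : ℝ) (hM : ∀ n x, |f n x| ≤ M)
    (h0 : ∀ b : K, (b : E) ∈ extremePoints ℝ K → Tendsto (fun n => f n b) atTop (𝓝 0))
    (x₀ : K) : Tendsto (fun n => f n x₀) atTop (𝓝 0) := by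
  haveI : CompactSpace K := isCompact_iff_compactSpace.1 hK
  haveI : Nonempty K := ⟨x₀⟩
  -- one sided statement
  have main : ∀ (g : ℕ → C(K, ℝ)), (∀ n, g n ∈ affSet K) → (∀ n x, |g n x| ≤ M) →
      (∀ b : K, (b : E) ∈ extremePoints ℝ K → Tendsto (fun n => g n b) atTop (𝓝 0)) →
      ∀ c : ℝ, 0 < c → ∀ᶠ n in atTop, g n x₀ < c := by
    intro g hg hgM hg0 c hc
    by_contra hcon
    rw [not_eventually] at hcon
    have hfreq : ∃ᶠ n in atTop, c ≤ g n x₀ := hcon.mono fun n hn => not_lt.1 hn
    obtain ⟨φ, hφ, hφc⟩ := extraction_of_frequently_atTop hfreq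
    obtain ⟨b, hb, hbn⟩ := simons {b : K | (b : E) ∈ extremePoints ℝ K} (fun n => g (φ n)) M
      (fun n x => hgM _ x)
      (fun u hu => bauer hK (tailHull_subset_of _ 0 (affSet_convex K) (affSet_closed K)
        (fun k _ => hg _) hu)) x₀ c hφc (c / 2) (by linarith)
    have hlim := (hg0 b hb).comp hφ.tendsto_atTop
    have hev : ∀ᶠ n in atTop, g (φ n) b < c / 2 :=
      hlim.eventually (gt_mem_nhds (by linarith : (0 : ℝ) < c / 2))
    obtain ⟨n, hn⟩ := eventually_atTop.1 hev
    obtain ⟨k, hnk, hk⟩ := hbn n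
    have := hn k hnk
    linarith
  have hneg := main (fun n => -f n) (fun n => by
      intro x y z a b ha hb hab hz
      simp only [ContinuousMap.neg_apply]
      rw [hf n x y z a b ha hb hab hz]; ring) (fun n x => by
        simp only [ContinuousMap.neg_apply, abs_neg]; exact hM n x) (fun b hb => by
        simpa using (h0 b hb).neg)
  have hpos := main f hf hM h0
  rw [Metric.tendsto_atTop']
  intro ε hε
  have h1 := (hpos ε hε).and (hneg ε hε)
  obtain ⟨N, hN⟩ := eventually_atTop.1 h1
  refine ⟨N, fun n hn => ?_⟩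
  obtain ⟨h2, h3⟩ := hN n hn.le
  simp only [ContinuousMap.neg_apply] at h3
  rw [Real.dist_eq, sub_zero, abs_lt]
  constructor <;> linarith

end Rainwater

end Pool.Agent.Helper50.NW
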