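import Pool.Agent.Helper50.NW.Zset

/-!
# Splitting the non-extreme points of `Z`
-/

set_option autoImplicit false
set_option linter.unusedSectionVars false
set_option linter.style.haveILetI false

namespace Pool.Agent.Helper50.NW

open Set Filter Topology MeasureTheory

universe u

section Centered

variable {I : Type u} {Ω : Type*} [MeasurableSpace Ω] (μ : Measure Ω) (A : I → Set Ω)

/-- the centered subsets of the index set of a family of events -/
def Centered : Set (Set I) :=
  {y | ∀ F : Finset I, (F : Set I) ⊆ y → μ (⋂ i ∈ F, A i) ≠ 0}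

theorem centered_of_finset (y : Set I)
    (h : ∀ F : Finset I, (F : Set I) ⊆ y → (F : Set I) ∈ Centered μ A) : y ∈ Centered μ A :=
  fun F hF => h F hF F le_rfl

theorem centered_finset (y : Set I) (hy : y ∈ Centered μ A) (F : Finset I)
    (hF : (F : Set I) ⊆ y) : (F : Set I) ∈ Centered μ A :=
  fun G hG => hy G (hG.trans hF)

variable {μ A}

theorem finset_mem_centered {F : Finset I} (h : μ (⋂ i ∈ F, A i) ≠ 0) :
    (F : Set I) ∈ Centered μ A := by
  intro G hG h0
  apply h
  refine measure_mono_null ?_ h0
  exact biInter_subset_biInter_left (fun i hi => by exact_mod_cast hG hi)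

theorem empty_mem_centered [IsProbabilityMeasure μ] : (∅ : Set I) ∈ Centered μ A := by
  intro F hF
  have : F = ∅ := by
    rw [Finset.eq_empty_iff_forall_notMem]
    exact fun i hi => hF hi
  subst this
  simp

/-- The convexity lemma: a convex set containing all `v₀ + ∑_{i∈F} u_i`, `F ⊆ Δ` compatible with
`B`, contains `v₀ + ∑_{i∈Δ} P(A_i | B) u_i`. -/
theorem convex_average [IsProbabilityMeasure μ] (hA : ∀ i, MeasurableSet (A i))
    {V : Type*} [AddCommGroup V] [Module ℝ V] {S : Set V} (hS : Convex ℝ S) (u : I → V)
    (Δ : Finset I) : ∀ (B : Set Ω), MeasurableSet B → μ B ≠ 0 → ∀ v₀ : V,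
      (∀ F : Finset I, F ⊆ Δ → μ (B ∩ ⋂ i ∈ F, A i) ≠ 0 → v₀ + ∑ i ∈ F, u i ∈ S) →
      v₀ + ∑ i ∈ Δ, (μ.real (A i ∩ B) / μ.real B) • u i ∈ S := by
  classical
  induction Δ using Finset.induction_on with
  | empty =>
    intro B _ hB v₀ h
    simpa using h ∅ le_rfl (by simpa using hB)
  | insert j Δ hj ih =>
    intro B hBm hB v₀ h
    have hBr : 0 < μ.real B := by
      rw [measureReal_def]
      exact ENNReal.toReal_pos hB (measure_ne_top _ _)
    rw [Finset.sum_insert hj]
    have hsplit : ∀ T : Set Ω, MeasurableSet T →
        μ.real (T ∩ B) = μ.real (T ∩ (B ∩ A j)) + μ.real (T ∩ (B \ A j)) := by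
      intro T hT
      rw [← measureReal_inter_add_sdiff (s := T ∩ B) (t := A j) (hA j)]
      congr 2
      · rw [inter_assoc]
      · rw [inter_sdiff_assoc]
    by_cases h1 : μ (B ∩ A j) = 0
    · have e1 : μ.real (A j ∩ B) = 0 := by
        rw [inter_comm, measureReal_def, h1]; simp
      rw [e1, zero_div, zero_smul, zero_add]
      exact ih B hBm hB v₀ fun F hF hFB => h F (hF.trans (Finset.subset_insert j Δ)) hFB
    · have hB1 : MeasurableSet (B ∩ A j) := hBm.inter (hA j)
      have h1r : 0 < μ.real (B ∩ A j) := by
        rw [measureReal_def]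
        exact ENNReal.toReal_pos h1 (measure_ne_top _ _)
      have k1 := ih (B ∩ A j) hB1 h1 (v₀ + u j) (by
        intro F hF hFB
        have hjF : j ∉ F := fun hh => hj (hF hh)
        have := h (insert j F) (Finset.insert_subset_insert j hF) (by
          rwa [Finset.set_biInter_insert, ← inter_assoc])
        rwa [Finset.sum_insert hjF, ← add_assoc] at this)
      by_cases h2 : μ (B \ A j) = 0
      · have hz : ∀ T : Set Ω, μ.real (T ∩ (B \ A j)) = 0 := by
          intro T
          rw [measureReal_def, measure_mono_null inter_subset_right h2]; simp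
        have e1 : μ.real (B ∩ A j) = μ.real B := by
          have := hsplit univ MeasurableSet.univ
          rw [hz, univ_inter, univ_inter, add_zero] at this
          exact this.symm
        have e2 : μ.real (A j ∩ B) / μ.real B = 1 := by
          rw [inter_comm, e1, div_self hBr.ne']
        rw [e2, one_smul, ← add_assoc]
        convert k1 using 2
        refine Finset.sum_congr rfl fun i _ => ?_
        have := hsplit (A i) (hA i)
        rw [hz, add_zero] at this
        rw [this, e1]
      · have hB2 : MeasurableSet (B \ A j) := hBm.diff (hA j)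
        have h2r : 0 < μ.real (B \ A j) := by
          rw [measureReal_def]
          exact ENNReal.toReal_pos h2 (measure_ne_top _ _)
        have k2 := ih (B \ A j) hB2 h2 v₀ (by
          intro F hF hFB
          refine h F (hF.trans (Finset.subset_insert j Δ)) fun h0 => hFB ?_
          exact measure_mono_null (inter_subset_inter_left _ sdiff_subset) h0)
        have hsum : μ.real B = μ.real (B ∩ A j) + μ.real (B \ A j) := by
          have := hsplit univ MeasurableSet.univ
          simpa using this
        have hw1 : μ.real (B ∩ A j) / μ.real B + μ.real (B \ A j) / μ.real B = 1 := by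
          rw [← add_div, ← hsum, div_self hBr.ne']
        have key := hS k1 k2 (a := μ.real (B ∩ A j) / μ.real B) (b := μ.real (B \ A j) / μ.real B)
          (by positivity) (by positivity) hw1
        convert key using 1
        rw [smul_add, smul_add, smul_add, Finset.smul_sum, Finset.smul_sum]
        have e3 : ∑ i ∈ Δ, (μ.real (A i ∩ B) / μ.real B) • u i =
            ∑ i ∈ Δ, (μ.real (B ∩ A j) / μ.real B) •
              (μ.real (A i ∩ (B ∩ A j)) / μ.real (B ∩ A j)) • u i +
            ∑ i ∈ Δ, (μ.real (B \ A j) / μ.real B) •
              (μ.real (A i ∩ (B \ A j)) / μ.real (B \ A j)) • u i := by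
          rw [← Finset.sum_add_distrib]
          refine Finset.sum_congr rfl fun i _ => ?_
          rw [smul_smul, smul_smul, ← add_smul]
          congr 1
          rw [hsplit (A i) (hA i)]
          field_simp
        rw [e3, inter_comm (A j) B]
        have e4 : v₀ = (μ.real (B ∩ A j) / μ.real B) • v₀ + (μ.real (B \ A j) / μ.real B) • v₀ := by
          rw [← add_smul, hw1, one_smul]
        nth_rewrite 1 [e4]
        abel

end Centered

end Pool.Agent.Helper50.NW
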