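import Pool.Agent.Helper50.NW.Hist

/-!
# The compact set `Z`
-/

set_option autoImplicit false
set_option linter.unusedSectionVars false
set_option linter.style.haveILetI false

namespace Pool.Agent.Helper50.NW

open Set Filter Topology

universe u

variable {I : Type u} [LinearOrder I] [WellFoundedLT I] [Nonempty I] {C : Type u} [Nonempty C]

open Classical in
/-- least place where `f` and `g` differ -/
noncomputable def diff (f g : I → C) : I :=
  if h : ∃ b, f b ≠ g b then (wellFounded_lt (α := I)).min {b | f b ≠ g b} h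
  else Classical.arbitrary I

theorem diff_ne {f g : I → C} (h : f ≠ g) : f (diff f g) ≠ g (diff f g) := by
  classical
  have h' : ∃ b, f b ≠ g b := by
    by_contra hcon
    push Not at hcon
    exact h (funext hcon)
  rw [diff, dif_pos h']
  exact (wellFounded_lt (α := I)).min_mem {b | f b ≠ g b} h'

theorem eq_of_lt_diff {f g : I → C} {b : I} (h : b < diff f g) (hne : f ≠ g) : f b = g b := by
  classical
  have h' : ∃ b, f b ≠ g b := by
    by_contra hcon
    push Not at hcon
    exact hne (funext hcon)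
  by_contra hb
  rw [diff, dif_pos h'] at h
  exact (wellFounded_lt (α := I)).not_lt_min {b | f b ≠ g b} hb h

theorem diff_le {f g : I → C} {b : I} (h : f b ≠ g b) : diff f g ≤ b := by
  by_contra hcon
  push Not at hcon
  exact h (eq_of_lt_diff hcon (fun e => h (by rw [e])))

theorem diff_eq {f g : I → C} {b : I} (h : f b ≠ g b) (h' : ∀ c < b, f c = g c) :
    diff f g = b := by
  refine le_antisymm (diff_le h) ?_
  by_contra hcon
  push Not at hcon
  exact diff_ne (fun e => h (by rw [e])) (h' _ hcon)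

/-- Parameters of a point of `Z`: a branch `f`, a level `L`, a history and a value. -/
structure Par (I C : Type u) where
  /-- branch -/
  f : I → C
  /-- level, as a lower set -/
  L : Set I
  /-- history -/
  s : Hist I
  /-- value -/
  c : ℝ

/-- validity of parameters -/
structure Par.Valid (lam : ℝ) (Cen : Set (Set I)) (p : Par I C) : Prop where
  lower : IsLowerSet p.L
  hist : p.s.Valid Cen
  abs_c : |p.c| ≤ 1
  near : ∀ m, (∃ b ∈ p.L, b ∉ p.s.L m) → |p.c - hv lam p.s (m + 1)| ≤ lam ^ (m + 1)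

open Classical in
/-- the point of `ℝ^(I → C)` with parameters `p` -/
noncomputable def zf (lam : ℝ) (a : I → ℝ) (p : Par I C) (g : I → C) : ℝ :=
  if ∀ b ∈ p.L, p.f b = g b then p.c else hw lam a p.s (diff p.f g)

variable {lam : ℝ} {a : I → ℝ} {Cen : Set (Set I)}

theorem zf_of_eq {p : Par I C} {g : I → C} (h : ∀ b ∈ p.L, p.f b = g b) :
    zf lam a p g = p.c := by
  rw [zf, if_pos h]

theorem zf_of_ne {p : Par I C} {g : I → C} (h : ¬ ∀ b ∈ p.L, p.f b = g b) :
    zf lam a p g = hw lam a p.s (diff p.f g) := by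
  rw [zf, if_neg h]

section

variable (h0 : 0 < lam) (h1 : lam < 1) (ha1 : ∀ b, 1 ≤ a b) (ha : ∀ b, (1 - lam) * a b ≤ lam)

include h0 h1 ha1 ha

theorem abs_zf_le_one {p : Par I C} (hp : p.Valid lam Cen) (g : I → C) :
    |zf lam a p g| ≤ 1 := by
  by_cases h : ∀ b ∈ p.L, p.f b = g b
  · rw [zf_of_eq h]; exact hp.abs_c
  · rw [zf_of_ne h]; exact abs_hw_le_one h0 h1 ha1 ha hp.hist _

/-- The ultrafilter limit of points of `Z` is a point of `Z`. -/
theorem exists_limit
    (hCen : ∀ y : Set I, (∀ F : Finset I, (F : Set I) ⊆ y → (F : Set I) ∈ Cen) → y ∈ Cen)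
    (hCen' : ∀ y ∈ Cen, ∀ F : Finset I, (F : Set I) ⊆ y → (F : Set I) ∈ Cen)
    {P : Type*} (𝒰 : Ultrafilter P) (p : P → Par I C) (hp : ∀ j, (p j).Valid lam Cen) :
    ∃ q : Par I C, q.Valid lam Cen ∧
      ∀ g : I → C, Tendsto (fun j => zf lam a (p j) g) 𝒰 (𝓝 (zf lam a q g)) := by
  classical
  -- the limit node
  let D : (I → C) → I → Prop := fun g b =>
    ∀ᶠ j in (𝒰 : Filter P), b ∈ (p j).L ∧ ∀ c ≤ b, (p j).f c = g c
  let L : Set I := {b | ∃ g, D g b}
  let f : I → C := fun b => if h : ∃ g, D g b then h.choose b else Classical.arbitrary C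
  let s : Hist I := Hist.lim 𝒰 fun j => (p j).s
  have hsv : s.Valid Cen := Hist.lim_valid 𝒰 hCen hCen' fun j => (hp j).hist
  have hDle : ∀ g b b', D g b → b' ≤ b → D g b' := by
    intro g b b' hD hb
    exact hD.mono fun j hj => ⟨(hp j).lower hb hj.1, fun c hc => hj.2 c (hc.trans hb)⟩
  have hDeq : ∀ g g' b, D g b → D g' b → g b = g' b := by
    intro g g' b hg hg'
    obtain ⟨j, hj1, hj2⟩ := (hg.and hg').exists
    rw [← hj1.2 b le_rfl, hj2.2 b le_rfl]
  have hfD : ∀ g b, D g b → f b = g b := by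
    intro g b hD
    have hex : ∃ g, D g b := ⟨g, hD⟩
    simp only [f, dif_pos hex]
    exact hDeq _ _ _ hex.choose_spec hD
  have hDf : ∀ b ∈ L, D f b := by
    rintro b ⟨g, hg⟩
    refine hg.mono fun j hj => ⟨hj.1, fun c hc => ?_⟩
    rw [hj.2 c hc, hfD g c (hDle g b c hg hc)]
  have hLlow : IsLowerSet L := by
    rintro b b' hb ⟨g, hg⟩
    exact ⟨g, hDle g b b' hg hb⟩
  -- the limit value at `f`
  have hbd : ∀ j, zf lam a (p j) f ∈ Icc (-1 : ℝ) 1 := fun j =>
    abs_le.1 (abs_zf_le_one h0 h1 ha1 ha (hp j) f)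
  obtain ⟨c, hc, hclim⟩ := (isCompact_Icc (a := (-1 : ℝ)) (b := 1)).ultrafilter_le_nhds'
    (𝒰.map fun j => zf lam a (p j) f) (by
      rw [Ultrafilter.mem_map]
      exact Filter.Eventually.of_forall hbd)
  have hclim' : Tendsto (fun j => zf lam a (p j) f) 𝒰 (𝓝 c) := hclim
  refine ⟨⟨f, L, s, c⟩, ⟨hLlow, hsv, abs_le.2 hc, ?_⟩, ?_⟩
  · -- the nearness condition
    rintro m ⟨b, hbL, hbs⟩
    have e1 : ∀ᶠ j in (𝒰 : Filter P), b ∉ (p j).s.L m := by
      rw [Ultrafilter.eventually_not]
      exact hbs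
    have e2 := hDf b hbL
    have e3 := Hist.lim_hv_eventually 𝒰 (fun j => (hp j).hist) lam (m + 1)
    have e4 : ∀ᶠ j in (𝒰 : Filter P),
        |zf lam a (p j) f - hv lam s (m + 1)| ≤ lam ^ (m + 1) := by
      filter_upwards [e1, e2, e3] with j hj1 hj2 hj3
      have hj3' : hv lam (p j).s (m + 1) = hv lam s (m + 1) := hj3
      rw [← hj3']
      by_cases h : ∀ b' ∈ (p j).L, (p j).f b' = f b'
      · rw [zf_of_eq h]
        exact (hp j).near m ⟨b, hj2.1, hj1⟩
      · rw [zf_of_ne h]
        have hne : (p j).f ≠ f := fun e => h fun b' _ => by rw [e]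
        have hlt : b < diff (p j).f f := by
          by_contra hcon
          push Not at hcon
          exact diff_ne hne (hj2.2 _ hcon)
        refine abs_hw_sub_le h0 h1 ha1 ha (hp j).hist fun i hi hmem => ?_
        exact hj1 ((hp j).hist.mono' (Nat.lt_succ_iff.1 hi) ((hp j).hist.lower i hlt.le hmem))
    exact le_of_tendsto ((hclim'.sub_const _).abs) e4
  · intro g
    by_cases hg : ∀ b ∈ L, f b = g b
    · -- the value at `g` is eventually the value at `f`
      rw [zf_of_eq (p := ⟨f, L, s, c⟩) hg]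
      refine hclim'.congr' ?_
      by_cases hfg : f = g
      · rw [hfg]
      set γ := diff f g with hγ
      have hγne : f γ ≠ g γ := diff_ne hfg
      have hγL : γ ∉ L := fun h => hγne (hg γ h)
      have hagree : ∀ b < γ, f b = g b := fun b hb => eq_of_lt_diff hb hfg
      have e1 : ∀ᶠ j in (𝒰 : Filter P), ¬ (γ ∈ (p j).L ∧ ∀ c ≤ γ, (p j).f c = f c) := by
        rw [Ultrafilter.eventually_not]
        exact fun h => hγL ⟨f, h⟩
      have e2 : ∀ᶠ j in (𝒰 : Filter P), ¬ (γ ∈ (p j).L ∧ ∀ c ≤ γ, (p j).f c = g c) := by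
        rw [Ultrafilter.eventually_not]
        exact fun h => hγL ⟨g, h⟩
      filter_upwards [e1, e2] with j hj1 hj2
      by_cases hγj : γ ∈ (p j).L
      · -- both differ from `(p j).f` at or below `γ`
        have hd1 : ∃ b ≤ γ, (p j).f b ≠ f b := by
          by_contra hcon
          push Not at hcon
          exact hj1 ⟨hγj, hcon⟩
        have hd2 : ∃ b ≤ γ, (p j).f b ≠ g b := by
          by_contra hcon
          push Not at hcon
          exact hj2 ⟨hγj, hcon⟩
        obtain ⟨b1, hb1, hb1'⟩ := hd1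
        obtain ⟨b2, hb2, hb2'⟩ := hd2
        have hn1 : ¬ ∀ b ∈ (p j).L, (p j).f b = f b :=
          fun h => hb1' (h b1 ((hp j).lower hb1 hγj))
        have hn2 : ¬ ∀ b ∈ (p j).L, (p j).f b = g b :=
          fun h => hb2' (h b2 ((hp j).lower hb2 hγj))
        rw [zf_of_ne hn1, zf_of_ne hn2]
        congr 1
        have hne1 : (p j).f ≠ f := fun e => hb1' (by rw [e])
        have hne2 : (p j).f ≠ g := fun e => hb2' (by rw [e])
        have hle1 : diff (p j).f f ≤ γ := (diff_le hb1').trans hb1
        have hle2 : diff (p j).f g ≤ γ := (diff_le hb2').trans hb2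
        rcases hle1.lt_or_eq with hlt | heq
        · symm
          refine diff_eq ?_ ?_
          · rw [← hagree _ hlt]
            exact diff_ne hne1
          · intro b hb
            rw [eq_of_lt_diff hb hne1, hagree b (hb.trans hlt)]
        · rcases hle2.lt_or_eq with hlt2 | heq2
          · refine diff_eq ?_ ?_
            · rw [hagree _ hlt2]
              exact diff_ne hne2
            · intro b hb
              rw [eq_of_lt_diff hb hne2, hagree b (hb.trans hlt2)]
          · rw [heq, heq2]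
      · have hlt : ∀ b ∈ (p j).L, b < γ := by
          intro b hb
          by_contra hcon
          push Not at hcon
          exact hγj ((hp j).lower hcon hb)
        by_cases hn1 : ∀ b ∈ (p j).L, (p j).f b = f b
        · have hn2 : ∀ b ∈ (p j).L, (p j).f b = g b := fun b hb => by
            rw [hn1 b hb, hagree b (hlt b hb)]
          rw [zf_of_eq hn1, zf_of_eq hn2]
        · have hn2 : ¬ ∀ b ∈ (p j).L, (p j).f b = g b := fun h => hn1 fun b hb => by
            rw [h b hb, hagree b (hlt b hb)]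
          rw [zf_of_ne hn1, zf_of_ne hn2]
          congr 1
          push Not at hn1
          obtain ⟨b, hb, hb'⟩ := hn1
          have hne1 : (p j).f ≠ f := fun e => hb' (by rw [e])
          have hlt' : diff (p j).f f < γ := (diff_le hb').trans_lt (hlt b hb)
          symm
          refine diff_eq ?_ ?_
          · rw [← hagree _ hlt']
            exact diff_ne hne1
          · intro b hb
            rw [eq_of_lt_diff hb hne1, hagree b (hb.trans hlt')]
    · -- the value is eventually `w` at the fixed level `diff f g`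
      rw [zf_of_ne (p := ⟨f, L, s, c⟩) hg]
      push Not at hg
      obtain ⟨b, hbL, hb⟩ := hg
      have hne : f ≠ g := fun e => hb (by rw [e])
      set β := diff f g with hβ
      have hβne : f β ≠ g β := diff_ne hne
      have hβL : β ∈ L := hLlow (diff_le hb) hbL
      have hD := hDf β hβL
      have hlim := Hist.tendsto_hw 𝒰 h0 h1 ha1 ha (fun j => (hp j).hist) β
      refine hlim.congr' ?_
      filter_upwards [hD] with j hj
      have hn : ¬ ∀ b ∈ (p j).L, (p j).f b = g b := fun h => hβne (by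
        rw [← hj.2 β le_rfl]
        exact h β hj.1)
      rw [zf_of_ne hn]
      congr 1
      symm
      refine diff_eq ?_ ?_
      · rw [hj.2 β le_rfl]
        exact hβne
      · intro b' hb'
        rw [hj.2 b' hb'.le, eq_of_lt_diff hb' hne]

end

/-- the set `Z` -/
def Zset (lam : ℝ) (a : I → ℝ) (Cen : Set (Set I)) (C : Type u) [Nonempty C] :
    Set ((I → C) → ℝ) :=
  {z | ∃ p : Par I C, p.Valid lam Cen ∧ z = zf lam a p}

theorem isCompact_Zset (h0 : 0 < lam) (h1 : lam < 1) (ha1 : ∀ b, 1 ≤ a b)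
    (ha : ∀ b, (1 - lam) * a b ≤ lam)
    (hCen : ∀ y : Set I, (∀ F : Finset I, (F : Set I) ⊆ y → (F : Set I) ∈ Cen) → y ∈ Cen)
    (hCen' : ∀ y ∈ Cen, ∀ F : Finset I, (F : Set I) ⊆ y → (F : Set I) ∈ Cen) :
    IsCompact (Zset lam a Cen C) := by
  classical
  rw [isCompact_iff_ultrafilter_le_nhds']
  intro 𝒰 h𝒰
  obtain ⟨z₀, p₀, hp₀, -⟩ := 𝒰.nonempty_of_mem h𝒰
  let p : ((I → C) → ℝ) → Par I C := fun z =>
    if h : ∃ p : Par I C, p.Valid lam Cen ∧ z = zf lam a p then h.choose else p₀
  have hp : ∀ z, (p z).Valid lam Cen := by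
    intro z
    by_cases h : ∃ p : Par I C, p.Valid lam Cen ∧ z = zf lam a p
    · simp only [p, dif_pos h]
      exact h.choose_spec.1
    · simp only [p, dif_neg h]
      exact hp₀
  have hpz : ∀ z ∈ Zset lam a Cen C, z = zf lam a (p z) := by
    intro z h
    have h' : ∃ p : Par I C, p.Valid lam Cen ∧ z = zf lam a p := h
    simp only [p, dif_pos h']
    exact h'.choose_spec.2
  obtain ⟨q, hq, hlim⟩ := exists_limit h0 h1 ha1 ha hCen hCen' 𝒰 p hp
  refine ⟨zf lam a q, ⟨q, hq, rfl⟩, ?_⟩
  have : Tendsto (fun z : (I → C) → ℝ => z) 𝒰 (𝓝 (zf lam a q)) := by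
    rw [tendsto_pi_nhds]
    intro g
    refine (hlim g).congr' ?_
    filter_upwards [h𝒰] with z hz
    exact (congrFun (hpz z hz) g).symm
  exact this

end Pool.Agent.Helper50.NW
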